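import Mathlib
import Pool.Agent.Lib.P4a7640.Defs
import Pool.Agent.Lib.P4a7640.Periodic
import Pool.Agent.Lib.P4a7640D.Base
import Pool.Agent.Lib.P4a7640E.Base

/-!
# Sign patterns on arbitrary sets of shifts: definitions
-/

open Finset Filter Topology
open Pool.Agent.Lib.P4a7640 Pool.Agent.Lib.P4a7640D Pool.Agent.Lib.P4a7640E

namespace Pool.Agent.Lib.P4a7640C

/-- elementary symmetric function, complex weights -/
def esyC (w : ℕ → ℂ) (D : Finset ℕ) (r : ℕ) : ℂ := ∑ T ∈ D.powersetCard r, ∏ p ∈ T, w p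

/-- `θ_p(n) = ∑_{h ∈ S, p ∣ n + h} (z_h(p) - 1)` -/
def th (z : ℕ → ℕ → ℂ) (S : Finset ℕ) (n p : ℕ) : ℂ :=
  ∑ h ∈ S, if p ∣ n + h then z h p - 1 else 0

/-- the mean value of `θ_p` -/
noncomputable def thm (z : ℕ → ℕ → ℂ) (S : Finset ℕ) (p : ℕ) : ℂ := (∑ h ∈ S, (z h p - 1)) / p

/-- `∏_{p ∈ D, p ∣ n} z_p` -/
def gc (z : ℕ → ℂ) (D : Finset ℕ) (n : ℕ) : ℂ := ∏ p ∈ D.filter (fun p => p ∣ n), z p

/-- multiplicative and bounded by `1` -/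
def MulC (F : ℕ → ℂ) : Prop :=
  F 1 = 1 ∧ (∀ m n : ℕ, 0 < m → 0 < n → m.Coprime n → F (m * n) = F m * F n) ∧ ∀ n, ‖F n‖ ≤ 1

/-- the periodic approximation of `F` (period `q * QQ z m`) -/
noncomputable def PPc (F : ℕ → ℂ) {q : ℕ} (χ : DirichletCharacter ℂ q) (z m n : ℕ) : ℂ :=
  F (Nat.gcd n (QQ z m)) * χ ((n / Nat.gcd n (QQ z m) : ℕ) : ZMod q)

/-- `u` at the primes `≤ N^(1/c)`, the character `ψ` at the primes above -/
noncomputable def vc (c : ℕ) (u : ℕ → ℤˣ) {q : ℕ} (ψ : DirichletCharacter ℂ q) (N n : ℕ) : ℂ :=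
  sgC (u n) * ∏ p ∈ n.primeFactors.filter (fun p => N < p ^ c), (sgC (u p) * ψ (p : ZMod q))

/-- `∏ u(p) conj χ(p)` over the prime factors `p > N^(1/c)` of `n` -/
noncomputable def wc (c : ℕ) (u : ℕ → ℤˣ) {q : ℕ} (χ : DirichletCharacter ℂ q) (N n : ℕ) : ℂ :=
  ∏ p ∈ n.primeFactors.filter (fun p => N < p ^ c),
    (sgC (u p) * (starRingEnd ℂ) (χ (p : ZMod q)))

/-- the harmonic sum -/
noncomputable def HH (N : ℕ) : ℝ := ∑ n ∈ Icc 1 N, (1:ℝ) / n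

/-- logarithmic average over `n ≤ N`, complex values -/
noncomputable def LC (N : ℕ) (F : ℕ → ℂ) : ℂ := (∑ n ∈ Icc 1 N, F n / n) / (HH N : ℂ)

/-- logarithmic average over `n ≤ N`, real values -/
noncomputable def LR (N : ℕ) (F : ℕ → ℝ) : ℝ := (∑ n ∈ Icc 1 N, F n / n) / HH N

/-- the indicator of `n ≥ N^(1/B)` -/
def io (B N n : ℕ) : ℝ := if N ≤ n ^ B then 1 else 0

/-- the monomial `∏ v(n + t i) ∏ conj v(n + t' i)` -/
noncomputable def mono (c : ℕ) (u : ℕ → ℤˣ) {q : ℕ} (χ : DirichletCharacter ℂ q) (N : ℕ) {a b : ℕ}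
    (t : Fin a → ℕ) (t' : Fin b → ℕ) (n : ℕ) : ℂ :=
  (∏ i, vc c u χ N (n + t i)) * ∏ i, (starRingEnd ℂ) (vc c u χ N (n + t' i))

/-- number of `i` with `t i = h` -/
def mu {a : ℕ} (t : Fin a → ℕ) (h : ℕ) : ℕ := (univ.filter fun i => t i = h).card

/-- the number of `r`-tuples of elements of `J` in which every element has even multiplicity -/
def Tev (J : Finset ℕ) (r : ℕ) : ℕ :=
  ((Fintype.piFinset fun _ : Fin r => J).filter fun t => ∀ h ∈ J, Even (mu t h)).card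

/-- the linear form `∑ x_j v(n + j)` -/
noncomputable def ZZ (c : ℕ) (u : ℕ → ℤˣ) {q : ℕ} (χ : DirichletCharacter ℂ q) (N : ℕ)
    (J : Finset ℕ) (x : ℕ → ℝ) (n : ℕ) : ℂ := ∑ j ∈ J, (x j : ℂ) * vc c u χ N (n + j)

/-- weights: bounded by `1` and slowly varying along `l` -/
def Wts (l : Filter ℕ) (a : ℕ → ℕ → ℝ) : Prop :=
  (∀ N n, |a N n| ≤ 1) ∧
    ∀ ε : ℝ, 0 < ε → ∀ᶠ N in l, ∀ n : ℕ, 1 ≤ n → |a N (n + 1) - a N n| ≤ ε / n

open Classical in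
/-- the patterns `x ∈ {-1,1}^J` such that `f(n+j) = x_j` for all `j ∈ J` for a set of `n` of
positive upper logarithmic density along `l` -/
noncomputable def patJ (f : ℕ → ℤˣ) (l : Filter ℕ) (J : Finset ℕ) : Finset (J → ℤˣ) :=
  univ.filter fun x => ¬ Tendsto (fun N => pr N fun n => ∀ j : J, f (n + j) = x j) l (𝓝 0)

/-- the primes `N^a < p ≤ N^b` -/
noncomputable def win (a b : ℝ) (N : ℕ) : Finset ℕ :=
  (Icc 1 ⌊(N:ℝ) ^ b⌋₊).filter fun p => p.Prime ∧ (N:ℝ) ^ a < p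

/-- `∑_{N^a < p ≤ N^b} u(p) conj χ(p) / p → τ log (b/a)` along `l` for all `0 < a < b ≤ 1` -/
def MeanTop (l : Filter ℕ) (u : ℕ → ℤˣ) {q : ℕ} (χ : DirichletCharacter ℂ q) (τ : ℂ) : Prop :=
  ∀ a b : ℝ, 0 < a → a < b → b ≤ 1 →
    Tendsto (fun N : ℕ => ∑ p ∈ win a b N,
      ((u p : ℤ) : ℂ) * (starRingEnd ℂ) (χ (p : ZMod q)) / p) l (𝓝 (τ * (Real.log (b / a) : ℂ)))

end Pool.Agent.Lib.P4a7640C
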