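import Mathlib
import Pool.Agent.Lib.P4a7640C.Base

/-!
# Partial summation on `N^(1/B) ≤ n ≤ N`; shifts

Module P4a7640C.AbelN (1.5 h).

Let `y` be the least `n ≥ 1` with `N ≤ n^B` (`y ≤ N` as `N ≤ N^B`), so `io B N n = 1` iff `y ≤ n` (for `n ≥ 1`), and
`W n = a n / n`, decreasing on `n ≥ 1`, `0 ≤ W n ≤ 1/n`.

`abelN`: `Σ n ∈ Icc y N, W n F n = Σ x ∈ Ico y N, S x (W x - W (x+1)) + S N W N`, `S x = Σ n ∈ Icc y x, F n` (`CSQAux.abel`-like, see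
P4a7640G/CSQ.lean, or `Finset.sum_range_by_parts`), `‖S x‖ ≤ ‖Σ n ≤ x‖ + ‖Σ n ≤ y - 1‖ ≤ x ε + (y ε + 1) ≤ 2 x ε + 1`
(`Σ n ≤ y-1 = Σ n ≤ y - F y`). So the norm is at most `Σ x ∈ Ico y N, (2 x ε + 1) (W x - W (x+1)) + (2 N ε + 1) W N =
2 ε (y W y + Σ x ∈ Ioc y N, W x) + W y ≤ 2 ε (HH N + 1) + 1`.

`shiftW`: `G n = io B N n * a n / n` for `n ≥ 1`; `Σ n ∈ Icc 1 N, G n w (n+j) - Σ n ∈ Icc 1 N, G n w n`. Induction on `j` or directly:
for one step `Σ n ∈ Icc 1 N, G n (w (n+j+1) - w (n+j)) = Σ n ∈ Icc 2 N, (G (n-1) - G n) w (n+j) + G N w (N+j+1) - G 1 w (1+j)` and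
`Σ n ∈ Icc 2 N, |G (n-1) - G n| ≤ 2 * sup G ≤ 2` (zero, one jump up of size `≤ 1`, then decreasing), so one step costs at most `4`.
-/

open Finset

namespace Pool.Agent.Lib.P4a7640C

namespace AbelNAux

/-- the weight -/
noncomputable def W (N B : ℕ) (a : ℕ → ℝ) (n : ℕ) : ℝ := io B N n * a n / n

/-- Abel summation -/
theorem abel (f : ℕ → ℂ) (g : ℕ → ℂ) {N : ℕ} (hN : 1 ≤ N) :
    ∑ n ∈ Icc 1 N, f n * g n =
      ∑ x ∈ Ico 1 N, (f x - f (x + 1)) * (∑ n ∈ Icc 1 x, g n) + f N * ∑ n ∈ Icc 1 N, g n := by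
  induction N, hN using Nat.le_induction with
  | base => simp
  | succ N hN ih =>
    rw [Finset.sum_Icc_succ_top (by omega), Finset.sum_Ico_succ_top (by omega), ih,
      Finset.sum_Icc_succ_top (f := g) (by omega)]
    ring

theorem abelR (f : ℕ → ℝ) {N : ℕ} (hN : 1 ≤ N) :
    ∑ x ∈ Ico 1 N, (x : ℝ) * (f x - f (x + 1)) + N * f N = ∑ n ∈ Icc 1 N, f n := by
  induction N, hN using Nat.le_induction with
  | base => simp
  | succ N hN ih =>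
    rw [Finset.sum_Icc_succ_top (by omega), Finset.sum_Ico_succ_top (by omega), ← ih]
    push_cast
    ring

/-- difference of shifts -/
theorem abelS (f v : ℕ → ℂ) {N : ℕ} (hN : 1 ≤ N) :
    ∑ n ∈ Icc 1 N, f n * (v (n + 1) - v n) =
      f N * v (N + 1) - f 1 * v 1 + ∑ x ∈ Ico 1 N, (f x - f (x + 1)) * v (x + 1) := by
  induction N, hN using Nat.le_induction with
  | base => simp; ring
  | succ N hN ih =>
    rw [Finset.sum_Icc_succ_top (by omega), Finset.sum_Ico_succ_top (by omega), ih]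
    ring

theorem tele (f : ℕ → ℝ) {N : ℕ} (hN : 1 ≤ N) :
    ∑ x ∈ Ico 1 N, (f (x + 1) - f x) = f N - f 1 := by
  induction N, hN using Nat.le_induction with
  | base => simp
  | succ N hN ih =>
    rw [Finset.sum_Ico_succ_top (by omega), ih]
    ring

theorem io_cases (B N n : ℕ) : (io B N n = 1 ∧ N ≤ n ^ B) ∨ (io B N n = 0 ∧ n ^ B < N) := by
  unfold io
  by_cases h : N ≤ n ^ B
  · exact Or.inl ⟨if_pos h, h⟩
  · exact Or.inr ⟨if_neg h, not_le.1 h⟩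

theorem io_self {B N : ℕ} (hB : 1 ≤ B) (hN : 1 ≤ N) : io B N N = 1 := by
  unfold io
  rw [if_pos]
  calc N = N ^ 1 := (pow_one N).symm
    _ ≤ N ^ B := Nat.pow_le_pow_right hN hB

theorem term_eq (N B : ℕ) (a : ℕ → ℝ) (z : ℂ) (n : ℕ) :
    ((io B N n * a n : ℝ) : ℂ) * z / n = ((W N B a n : ℝ) : ℂ) * z := by
  unfold W
  push_cast
  ring

theorem W_nonneg {N B : ℕ} {a : ℕ → ℝ} (ha : ∀ n, 0 ≤ a n ∧ a n ≤ 1) (n : ℕ) :
    0 ≤ W N B a n := by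
  unfold W
  refine div_nonneg (mul_nonneg ?_ (ha n).1) (Nat.cast_nonneg n)
  rcases io_cases B N n with ⟨h, _⟩ | ⟨h, _⟩ <;> rw [h] <;> norm_num

theorem W_le {N B : ℕ} {a : ℕ → ℝ} (ha : ∀ n, 0 ≤ a n ∧ a n ≤ 1) (n : ℕ) :
    W N B a n ≤ io B N n / n := by
  unfold W
  refine div_le_div_of_nonneg_right ?_ (Nat.cast_nonneg n)
  have h1 : 0 ≤ io B N n := by
    rcases io_cases B N n with ⟨h, _⟩ | ⟨h, _⟩ <;> rw [h] <;> norm_num
  calc io B N n * a n ≤ io B N n * 1 := mul_le_mul_of_nonneg_left (ha n).2 h1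
    _ = io B N n := mul_one _

/-- the three cases for a difference -/
theorem diff_cases {N B : ℕ} {a : ℕ → ℝ} (ha : ∀ n, 0 ≤ a n ∧ a n ≤ 1)
    (hanti : ∀ n, a (n + 1) ≤ a n) {x : ℕ} (hx : 1 ≤ x) :
    (N ≤ x ^ B ∧ io B N x = 1 ∧ io B N (x + 1) = 1 ∧ 0 ≤ W N B a x - W N B a (x + 1)) ∨
    (io B N x = 0 ∧ io B N (x + 1) = 0 ∧ W N B a x - W N B a (x + 1) = 0) ∨
    (N ≤ (x + 1) ^ B ∧ io B N x = 0 ∧ io B N (x + 1) = 1 ∧
      W N B a x - W N B a (x + 1) = -(a (x + 1) / ((x + 1 : ℕ) : ℝ))) := by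
  have hx0 : (0 : ℝ) < x := by exact_mod_cast hx
  have hx1 : (0 : ℝ) < ((x + 1 : ℕ) : ℝ) := by positivity
  rcases io_cases B N x with ⟨h1, h2⟩ | ⟨h1, h2⟩
  · left
    have h3 : N ≤ (x + 1) ^ B := h2.trans (Nat.pow_le_pow_left (by omega) B)
    have h4 : io B N (x + 1) = 1 := if_pos h3
    refine ⟨h2, h1, h4, ?_⟩
    unfold W
    rw [h1, h4, one_mul, one_mul, sub_nonneg]
    refine div_le_div₀ (ha x).1 (hanti x) hx0 ?_
    push_cast
    linarith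
  · right
    rcases io_cases B N (x + 1) with ⟨h3, h4⟩ | ⟨h3, h4⟩
    · right
      refine ⟨h4, h1, h3, ?_⟩
      unfold W
      rw [h1, h3]
      ring
    · left
      refine ⟨h1, h3, ?_⟩
      unfold W
      rw [h1, h3]
      ring

theorem norm_ofReal_mul (r : ℝ) (z : ℂ) : ‖(r : ℂ) * z‖ = |r| * ‖z‖ := by
  rw [norm_mul, Complex.norm_real, Real.norm_eq_abs]

end AbelNAux

open AbelNAux

theorem abelN {N B : ℕ} (hN : 1 ≤ N) (hB : 1 ≤ B) {F : ℕ → ℂ} (hF : ∀ n, ‖F n‖ ≤ 1) {ε : ℝ}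
    (hε : 0 ≤ ε) (h : ∀ x ≤ N, N ≤ x ^ B → ‖∑ n ∈ Icc 1 x, F n‖ ≤ x * ε) {a : ℕ → ℝ}
    (ha : ∀ n, 0 ≤ a n ∧ a n ≤ 1) (hanti : ∀ n, a (n + 1) ≤ a n) :
    ‖∑ n ∈ Icc 1 N, ((io B N n * a n : ℝ) : ℂ) * F n / n‖ ≤ 2 * ε * (HH N + 1) + 1 := by
  have hsum : ∑ n ∈ Icc 1 N, ((io B N n * a n : ℝ) : ℂ) * F n / n =
      ∑ n ∈ Icc 1 N, ((W N B a n : ℝ) : ℂ) * F n :=
    Finset.sum_congr rfl fun n _ => term_eq N B a (F n) n
  rw [hsum, abel (fun n => ((W N B a n : ℝ) : ℂ)) F hN]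
  have hmain : ∀ x ∈ Ico 1 N,
      ‖(((W N B a x : ℝ) : ℂ) - ((W N B a (x + 1) : ℝ) : ℂ)) * ∑ n ∈ Icc 1 x, F n‖ ≤
      ε * (x * (W N B a x - W N B a (x + 1))) + (2 * ε + 1) * (io B N (x + 1) - io B N x) := by
    intro x hx
    rw [Finset.mem_Ico] at hx
    have hx0 : (0 : ℝ) < x := by exact_mod_cast hx.1
    rw [← Complex.ofReal_sub, norm_ofReal_mul]
    rcases diff_cases (N := N) (B := B) ha hanti hx.1 with ⟨h1, h2, h3, h4⟩ | ⟨h2, h3, h4⟩ |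
      ⟨h1, h2, h3, h4⟩
    · rw [h2, h3, abs_of_nonneg h4, sub_self, mul_zero, add_zero]
      have h5 := h x (by omega) h1
      calc (W N B a x - W N B a (x + 1)) * ‖∑ n ∈ Icc 1 x, F n‖
          ≤ (W N B a x - W N B a (x + 1)) * (x * ε) := mul_le_mul_of_nonneg_left h5 h4
        _ = ε * (x * (W N B a x - W N B a (x + 1))) := by ring
    · rw [h2, h3, h4]
      simp
    · have h5 := h (x + 1) (by omega) h1
      have h6 : ‖∑ n ∈ Icc 1 x, F n‖ ≤ ((x + 1 : ℕ) : ℝ) * ε + 1 := by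
        have h7 : ∑ n ∈ Icc 1 x, F n = ∑ n ∈ Icc 1 (x + 1), F n - F (x + 1) := by
          rw [Finset.sum_Icc_succ_top (by omega)]
          ring
        rw [h7]
        exact (norm_sub_le _ _).trans (add_le_add h5 (hF _))
      rw [h4, h2, h3, abs_neg, sub_zero, mul_one]
      set A : ℝ := a (x + 1) with hA
      have hA0 : 0 ≤ A := (ha _).1
      have hA1 : A ≤ 1 := (ha _).2
      have hx1 : (1 : ℝ) ≤ ((x + 1 : ℕ) : ℝ) := by push_cast; linarith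
      have hxp : (0 : ℝ) < ((x + 1 : ℕ) : ℝ) := by linarith
      have hAx : A / ((x + 1 : ℕ) : ℝ) * ((x + 1 : ℕ) : ℝ) = A := by field_simp
      have hAx0 : 0 ≤ A / ((x + 1 : ℕ) : ℝ) := by positivity
      have hAx1 : A / ((x + 1 : ℕ) : ℝ) ≤ 1 := by
        rw [div_le_one hxp]; linarith
      rw [abs_of_nonneg hAx0]
      calc A / ((x + 1 : ℕ) : ℝ) * ‖∑ n ∈ Icc 1 x, F n‖
          ≤ A / ((x + 1 : ℕ) : ℝ) * (((x + 1 : ℕ) : ℝ) * ε + 1) :=
            mul_le_mul_of_nonneg_left h6 hAx0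
        _ = A * ε + A / ((x + 1 : ℕ) : ℝ) := by
            rw [mul_add, ← mul_assoc, hAx, mul_one]
        _ ≤ ε * (x * -(A / ((x + 1 : ℕ) : ℝ))) + (2 * ε + 1) := by
            have h8 : (x : ℝ) * (A / ((x + 1 : ℕ) : ℝ)) ≤ 1 := by
              have h9 : (x : ℝ) * (A / ((x + 1 : ℕ) : ℝ)) ≤
                  A / ((x + 1 : ℕ) : ℝ) * ((x + 1 : ℕ) : ℝ) := by
                rw [mul_comm]
                refine mul_le_mul_of_nonneg_left ?_ hAx0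
                push_cast; linarith
              linarith
            have h10 : ε * (x * (A / ((x + 1 : ℕ) : ℝ))) ≤ ε * 1 := mul_le_mul_of_nonneg_left h8 hε
            have h11 : A * ε ≤ 1 * ε := mul_le_mul_of_nonneg_right hA1 hε
            nlinarith
  have hlast : ‖((W N B a N : ℝ) : ℂ) * ∑ n ∈ Icc 1 N, F n‖ ≤ ε * (N * W N B a N) := by
    rw [norm_ofReal_mul, abs_of_nonneg (W_nonneg ha N)]
    have h1 : N ≤ N ^ B := by
      calc N = N ^ 1 := (pow_one N).symm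
        _ ≤ N ^ B := Nat.pow_le_pow_right hN hB
    have h2 := h N le_rfl h1
    calc W N B a N * ‖∑ n ∈ Icc 1 N, F n‖ ≤ W N B a N * (N * ε) :=
          mul_le_mul_of_nonneg_left h2 (W_nonneg ha N)
      _ = ε * (N * W N B a N) := by ring
  have hW : ∑ n ∈ Icc 1 N, W N B a n ≤ HH N := by
    unfold HH
    refine Finset.sum_le_sum fun n _ => (W_le ha n).trans ?_
    refine div_le_div_of_nonneg_right ?_ (Nat.cast_nonneg n)
    rcases io_cases B N n with ⟨h, _⟩ | ⟨h, _⟩ <;> rw [h] <;> norm_num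
  have hH0 : 0 ≤ HH N := by
    unfold HH
    exact Finset.sum_nonneg fun n _ => by positivity
  have hio1 : 0 ≤ io B N 1 := by
    rcases io_cases B N 1 with ⟨h, _⟩ | ⟨h, _⟩ <;> rw [h] <;> norm_num
  have hioN := io_self hB hN
  calc ‖∑ x ∈ Ico 1 N, (((W N B a x : ℝ) : ℂ) - ((W N B a (x + 1) : ℝ) : ℂ)) *
        ∑ n ∈ Icc 1 x, F n + ((W N B a N : ℝ) : ℂ) * ∑ n ∈ Icc 1 N, F n‖
      ≤ ∑ x ∈ Ico 1 N, (ε * (x * (W N B a x - W N B a (x + 1))) +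
          (2 * ε + 1) * (io B N (x + 1) - io B N x)) + ε * (N * W N B a N) :=
        (norm_add_le _ _).trans (add_le_add ((norm_sum_le _ _).trans
          (Finset.sum_le_sum hmain)) hlast)
    _ = ε * ∑ n ∈ Icc 1 N, W N B a n + (2 * ε + 1) * (io B N N - io B N 1) := by
        rw [Finset.sum_add_distrib, ← Finset.mul_sum, ← Finset.mul_sum, tele _ hN,
          ← abelR (W N B a) hN]
        ring
    _ ≤ ε * HH N + (2 * ε + 1) * 1 := by
        refine add_le_add (mul_le_mul_of_nonneg_left hW hε) ?_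
        refine mul_le_mul_of_nonneg_left ?_ (by linarith)
        rw [hioN]; linarith
    _ ≤ 2 * ε * (HH N + 1) + 1 := by nlinarith [mul_nonneg hε hH0]

theorem AbelNAux.step {N B : ℕ} (hN : 1 ≤ N) (hB : 1 ≤ B) {v : ℕ → ℂ} (hv : ∀ n, ‖v n‖ ≤ 1)
    {a : ℕ → ℝ} (ha : ∀ n, 0 ≤ a n ∧ a n ≤ 1) (hanti : ∀ n, a (n + 1) ≤ a n) :
    ‖∑ n ∈ Icc 1 N, ((W N B a n : ℝ) : ℂ) * (v (n + 1) - v n)‖ ≤ 2 := by
  rw [abelS (fun n => ((W N B a n : ℝ) : ℂ)) v hN]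
  have hmain : ∀ x ∈ Ico 1 N,
      ‖(((W N B a x : ℝ) : ℂ) - ((W N B a (x + 1) : ℝ) : ℂ)) * v (x + 1)‖ ≤
      -(W N B a (x + 1) - W N B a x) + 2 * (io B N (x + 1) - io B N x) := by
    intro x hx
    rw [Finset.mem_Ico] at hx
    have hx0 : (0 : ℝ) < x := by exact_mod_cast hx.1
    rw [← Complex.ofReal_sub, norm_ofReal_mul]
    have h0 : |W N B a x - W N B a (x + 1)| * ‖v (x + 1)‖ ≤ |W N B a x - W N B a (x + 1)| * 1 :=
      mul_le_mul_of_nonneg_left (hv _) (abs_nonneg _)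
    refine h0.trans ?_
    rw [mul_one]
    rcases diff_cases (N := N) (B := B) ha hanti hx.1 with ⟨h1, h2, h3, h4⟩ | ⟨h2, h3, h4⟩ |
      ⟨h1, h2, h3, h4⟩
    · rw [h2, h3, abs_of_nonneg h4]
      linarith
    · rw [h2, h3, h4]
      simp
      linarith
    · have hA0 : 0 ≤ a (x + 1) := (ha _).1
      have hA1 : a (x + 1) ≤ 1 := (ha _).2
      have hxp : (0 : ℝ) < ((x + 1 : ℕ) : ℝ) := by positivity
      have hAx0 : 0 ≤ a (x + 1) / ((x + 1 : ℕ) : ℝ) := by positivity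
      have hAx1 : a (x + 1) / ((x + 1 : ℕ) : ℝ) ≤ 1 := by
        rw [div_le_one hxp]; push_cast; linarith
      rw [h2, h3]
      have h5 : -(W N B a (x + 1) - W N B a x) = -(a (x + 1) / ((x + 1 : ℕ) : ℝ)) := by
        rw [← h4]; ring
      rw [h5, h4, abs_neg, abs_of_nonneg hAx0]
      linarith
  have h1 : ‖((W N B a N : ℝ) : ℂ) * v (N + 1)‖ ≤ W N B a N := by
    rw [norm_ofReal_mul, abs_of_nonneg (W_nonneg ha N)]
    calc W N B a N * ‖v (N + 1)‖ ≤ W N B a N * 1 :=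
          mul_le_mul_of_nonneg_left (hv _) (W_nonneg ha N)
      _ = W N B a N := mul_one _
  have h2 : ‖((W N B a 1 : ℝ) : ℂ) * v 1‖ ≤ W N B a 1 := by
    rw [norm_ofReal_mul, abs_of_nonneg (W_nonneg ha 1)]
    calc W N B a 1 * ‖v 1‖ ≤ W N B a 1 * 1 :=
          mul_le_mul_of_nonneg_left (hv _) (W_nonneg ha 1)
      _ = W N B a 1 := mul_one _
  have h3 : W N B a 1 ≤ io B N 1 := by
    have := W_le (N := N) (B := B) ha 1
    simpa using this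
  have h4 := io_self hB hN
  calc ‖((W N B a N : ℝ) : ℂ) * v (N + 1) - ((W N B a 1 : ℝ) : ℂ) * v 1 +
        ∑ x ∈ Ico 1 N, (((W N B a x : ℝ) : ℂ) - ((W N B a (x + 1) : ℝ) : ℂ)) * v (x + 1)‖
      ≤ (W N B a N + W N B a 1) + ∑ x ∈ Ico 1 N, (-(W N B a (x + 1) - W N B a x) +
          2 * (io B N (x + 1) - io B N x)) :=
        (norm_add_le _ _).trans (add_le_add ((norm_sub_le _ _).trans (add_le_add h1 h2))
          ((norm_sum_le _ _).trans (Finset.sum_le_sum hmain)))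
    _ = (W N B a N + W N B a 1) + (-(W N B a N - W N B a 1) + 2 * (io B N N - io B N 1)) := by
        rw [Finset.sum_add_distrib, Finset.sum_neg_distrib, ← Finset.mul_sum, tele _ hN,
          tele _ hN]
    _ ≤ 2 := by rw [h4]; linarith

theorem shiftW {N B : ℕ} (hN : 1 ≤ N) (hB : 1 ≤ B) {w : ℕ → ℂ} (hw : ∀ n, ‖w n‖ ≤ 1)
    {a : ℕ → ℝ} (ha : ∀ n, 0 ≤ a n ∧ a n ≤ 1) (hanti : ∀ n, a (n + 1) ≤ a n) (j : ℕ) :
    ‖∑ n ∈ Icc 1 N, ((io B N n * a n : ℝ) : ℂ) * w (n + j) / n -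
      ∑ n ∈ Icc 1 N, ((io B N n * a n : ℝ) : ℂ) * w n / n‖ ≤ 4 * j := by
  have hsum : ∀ i : ℕ, ∑ n ∈ Icc 1 N, ((io B N n * a n : ℝ) : ℂ) * w (n + i) / n =
      ∑ n ∈ Icc 1 N, ((W N B a n : ℝ) : ℂ) * w (n + i) :=
    fun i => Finset.sum_congr rfl fun n _ => term_eq N B a (w (n + i)) n
  have h0 := hsum 0
  simp only [Nat.add_zero] at h0
  rw [hsum j, h0]
  induction j with
  | zero => simp
  | succ j ih =>
    have h1 := AbelNAux.step hN hB (v := fun n => w (n + j)) (fun n => hw _) ha hanti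
    have h2 : ∑ n ∈ Icc 1 N, ((W N B a n : ℝ) : ℂ) * w (n + (j + 1)) -
        ∑ n ∈ Icc 1 N, ((W N B a n : ℝ) : ℂ) * w n =
        (∑ n ∈ Icc 1 N, ((W N B a n : ℝ) : ℂ) * w (n + j) -
          ∑ n ∈ Icc 1 N, ((W N B a n : ℝ) : ℂ) * w n) +
        ∑ n ∈ Icc 1 N, ((W N B a n : ℝ) : ℂ) * (w (n + 1 + j) - w (n + j)) := by
      have h3 : ∑ n ∈ Icc 1 N, ((W N B a n : ℝ) : ℂ) * (w (n + 1 + j) - w (n + j)) =
          ∑ n ∈ Icc 1 N, ((W N B a n : ℝ) : ℂ) * w (n + (j + 1)) -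
          ∑ n ∈ Icc 1 N, ((W N B a n : ℝ) : ℂ) * w (n + j) := by
        rw [← Finset.sum_sub_distrib]
        refine Finset.sum_congr rfl fun n _ => ?_
        have e : n + 1 + j = n + (j + 1) := by omega
        rw [e]
        ring
      rw [h3]
      ring
    rw [h2]
    refine (norm_add_le _ _).trans ?_
    push_cast
    linarith

end Pool.Agent.Lib.P4a7640C
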