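import Mathlib
import Pool.Agent.Lib.P4a7640C.Base

/-!
# The periodic approximation, complex values

Module P4a7640C.PerC (1 h).

Same proofs as `abs_PP`, `PP_periodic`, `char_eq_of_squarefree`, `PP_eq_of_not_bad` in P4a7640/Periodic.lean with
complex values: `F` in the place of `sg ∘ h`, no real part. (`MulC F` contains `F 1 = 1`.)
-/

open Finset
open Pool.Agent.Lib.P4a7640

namespace Pool.Agent.Lib.P4a7640C

lemma charC_eq_of_squarefree {F : ℕ → ℂ} (hF : MulC F) {q : ℕ} (χ : DirichletCharacter ℂ q) :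
    ∀ b : ℕ, Squarefree b → (∀ p : ℕ, p.Prime → p ∣ b → F p = χ (p : ZMod q)) →
      F b = χ (b : ZMod q) := by
  intro b
  induction b using Nat.recOnPosPrimePosCoprime with
  | prime_pow p n hp hn =>
    intro hsq hall
    have h1 : n = 1 := by
      by_contra hcon
      have h2 : p * p ∣ p ^ n := by
        rw [← sq]
        exact pow_dvd_pow p (by omega)
      have h3 := hsq p h2
      exact hp.one_lt.ne' (Nat.isUnit_iff.mp h3)
    rw [h1, pow_one]
    exact hall p hp (by rw [h1, pow_one])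
  | zero =>
    intro hsq _
    exact absurd hsq not_squarefree_zero
  | one =>
    intro _ _
    rw [hF.1]
    simp
  | coprime a b ha hb hc iha ihb =>
    intro hsq hall
    rw [hF.2.1 a b (by omega) (by omega) hc, iha (hsq.squarefree_of_dvd (dvd_mul_right a b))
      (fun p hp hpa => hall p hp (hpa.mul_right b)),
      ihb (hsq.squarefree_of_dvd (dvd_mul_left b a)) (fun p hp hpb => hall p hp (hpb.mul_left a))]
    push_cast
    rw [map_mul]

theorem norm_PPc_le {F : ℕ → ℂ} (hF : MulC F) {q : ℕ} (χ : DirichletCharacter ℂ q) (z m n : ℕ) :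
    ‖PPc F χ z m n‖ ≤ 1 := by
  unfold PPc
  rw [norm_mul]
  exact mul_le_one₀ (hF.2.2 _) (norm_nonneg _) (DirichletCharacter.norm_le_one χ _)

theorem PPc_periodic (F : ℕ → ℂ) {q : ℕ} (χ : DirichletCharacter ℂ q) (z m n : ℕ) :
    PPc F χ z m (n + q * QQ z m) = PPc F χ z m n := by
  unfold PPc
  have h1 : Nat.gcd (n + q * QQ z m) (QQ z m) = Nat.gcd n (QQ z m) := by
    rw [Nat.gcd_add_mul_right_left]
  rw [h1]
  congr 2
  set a := Nat.gcd n (QQ z m) with ha
  obtain ⟨b, hb⟩ : a ∣ n := Nat.gcd_dvd_left _ _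
  obtain ⟨c, hc⟩ : a ∣ QQ z m := Nat.gcd_dvd_right _ _
  have ha0 : 0 < a := Nat.gcd_pos_of_pos_right _ (QQ_pos z m)
  have h2 : (n + q * QQ z m) / a = b + q * c := by
    rw [hc]
    conv_lhs => rw [hb]
    rw [show a * b + q * (a * c) = a * (b + q * c) by ring, Nat.mul_div_cancel_left _ ha0]
  have h3 : n / a = b := by
    conv_lhs => rw [hb]
    rw [Nat.mul_div_cancel_left _ ha0]
  rw [h2, h3]
  push_cast
  simp

theorem PPc_eq {F : ℕ → ℂ} (hF : MulC F) {q : ℕ} (χ : DirichletCharacter ℂ q) {z m n : ℕ}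
    (hn : 0 < n) (hgood : ¬ Bad (fun p => F p ≠ χ (p : ZMod q)) z m n) :
    PPc F χ z m n = F n := by
  unfold Bad at hgood
  push Not at hgood
  obtain ⟨g1, g2, g3⟩ := hgood
  unfold PPc
  set Q := QQ z m with hQ
  set a := Nat.gcd n Q with ha
  have hQ0 : Q ≠ 0 := (QQ_pos z m).ne'
  obtain ⟨b, hb⟩ : a ∣ n := Nat.gcd_dvd_left _ _
  have ha0 : 0 < a := Nat.gcd_pos_of_pos_left _ hn
  have hb0 : 0 < b := by
    rcases Nat.eq_zero_or_pos b with h0 | h0
    · rw [h0] at hb
      omega
    · exact h0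
  have h3 : n / a = b := by
    conv_lhs => rw [hb]
    rw [Nat.mul_div_cancel_left _ ha0]
  -- primes dividing b exceed z
  have hbig : ∀ p : ℕ, p.Prime → p ∣ b → z < p := by
    intro p hp hpb
    by_contra hcon
    push Not at hcon
    have h4 : n.factorization p ≤ m := by
      by_contra hcon2
      push Not at hcon2
      exact g1 p hp hcon ((hp.pow_dvd_iff_le_factorization hn.ne').mpr hcon2)
    have h5 : m ≤ Q.factorization p := by
      rw [← hp.pow_dvd_iff_le_factorization hQ0, hQ]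
      exact pow_dvd_pow_of_dvd (hp.dvd_factorial.mpr hcon) m
    have h6 : a.factorization p = n.factorization p := by
      rw [ha, Nat.factorization_gcd hn.ne' hQ0, Finsupp.inf_apply]
      exact min_eq_left (h4.trans h5)
    have h7 : n.factorization p = a.factorization p + b.factorization p := by
      conv_lhs => rw [hb]
      rw [Nat.factorization_mul ha0.ne' hb0.ne', Finsupp.add_apply]
    have h8 : 1 ≤ b.factorization p := (hp.dvd_iff_one_le_factorization hb0.ne').mp hpb
    omega
  have hdb : b ∣ n := ⟨a, by rw [mul_comm]; exact hb⟩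
  have hcop : a.Coprime b := by
    rw [Nat.coprime_iff_gcd_eq_one]
    by_contra hcon
    obtain ⟨p, hp, hpd⟩ := Nat.exists_prime_and_dvd hcon
    have h4 : p ∣ a := hpd.trans (Nat.gcd_dvd_left _ _)
    have h5 : p ∣ b := hpd.trans (Nat.gcd_dvd_right _ _)
    have h6 : p ∣ Q := h4.trans (Nat.gcd_dvd_right _ _)
    have h7 : p ∣ z.factorial := hp.dvd_of_dvd_pow h6
    have h8 := hp.dvd_factorial.mp h7
    have h9 := hbig p hp h5
    omega
  have hsq : Squarefree b := by
    rw [Nat.squarefree_iff_prime_squarefree]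
    intro p hp hpp
    have h4 : p ∣ b := (dvd_mul_right p p).trans hpp
    exact g2 p hp (hbig p hp h4) ((sq p ▸ hpp).trans hdb)
  have hchar := charC_eq_of_squarefree hF χ b hsq fun p hp hpb => by
    by_contra hcon
    exact g3 p hp (hbig p hp hpb) hcon (hpb.trans hdb)
  rw [h3, ← hchar, ← hF.2.1 a b ha0 hb0 hcop, ← hb]

end Pool.Agent.Lib.P4a7640C
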