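import Mathlib
import Pool.Agent.Lib.P4a7640C.Base
import Pool.Agent.Lib.P4a7640C.PerC
import Pool.Agent.Lib.P4a7640G.NatDiff

/-!
# Comparison with the periodic approximation on natural averages

Module P4a7640C.DiffC (1 h). Imports are black boxes.

Adapt `nat_diff` (P4a7640G/NatDiff.lean). Put `F h n = V h n * conj (G h n)`, so `V h n = F h n * G h n` (`‖G h n‖ = 1`).
Pointwise (`n ≥ 1`) `‖∏ V h (n+h) - (∏ PPc (F h) ..) * ∏ G h (n+h)‖ = ‖∏ F h (n+h) - ∏ PPc (F h) (ψ h) z m (n+h)‖ ≤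
∑ h ∈ S, 2 * BI (B h) z m (n + h)`, `B h = fun p => F h p ≠ ψ h p` (difference of two products of numbers of norm `≤ 1` is
at most the sum of the differences; `PPc_eq` when not `Bad`, and the difference is at most `2` in any case; `BI` is the
indicator of `Bad`). Then `NatDiffAux.bi_sum` (with `L := M`, `j := h`, `htop`) for each `h ∈ S`.
-/

open Finset
open Pool.Agent.Lib.P4a7640 Pool.Agent.Lib.P4a7640G

namespace Pool.Agent.Lib.P4a7640C

private theorem prod_close {ι : Type*} (S : Finset ι) (a b : ι → ℂ) (ha : ∀ i ∈ S, ‖a i‖ ≤ 1)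
    (hb : ∀ i ∈ S, ‖b i‖ ≤ 1) : ‖∏ i ∈ S, a i - ∏ i ∈ S, b i‖ ≤ ∑ i ∈ S, ‖a i - b i‖ := by
  classical
  induction S using Finset.induction_on with
  | empty => simp
  | insert k S hk ih =>
    rw [Finset.prod_insert hk, Finset.prod_insert hk, Finset.sum_insert hk]
    have h1 := ih (fun i hi => ha i (Finset.mem_insert_of_mem hi))
      (fun i hi => hb i (Finset.mem_insert_of_mem hi))
    have hbp : ‖∏ i ∈ S, b i‖ ≤ 1 := by
      rw [norm_prod]
      exact Finset.prod_le_one (fun _ _ => norm_nonneg _)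
        (fun i hi => hb i (Finset.mem_insert_of_mem hi))
    have h2 : a k * ∏ i ∈ S, a i - b k * ∏ i ∈ S, b i =
        a k * (∏ i ∈ S, a i - ∏ i ∈ S, b i) + (a k - b k) * ∏ i ∈ S, b i := by ring
    rw [h2]
    refine (norm_add_le _ _).trans ?_
    rw [norm_mul, norm_mul]
    have h3 : ‖a k‖ * ‖∏ i ∈ S, a i - ∏ i ∈ S, b i‖ ≤ 1 * ∑ i ∈ S, ‖a i - b i‖ :=
      mul_le_mul (ha k (Finset.mem_insert_self k S)) h1 (norm_nonneg _) zero_le_one
    have h4 : ‖a k - b k‖ * ‖∏ i ∈ S, b i‖ ≤ ‖a k - b k‖ * 1 :=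
      mul_le_mul_of_nonneg_left hbp (norm_nonneg _)
    linarith

theorem nat_diffC {S : Finset ℕ} {V G : ℕ → ℕ → ℂ}
    (hF : ∀ h ∈ S, MulC fun n => V h n * (starRingEnd ℂ) (G h n)) (hG : ∀ h ∈ S, ∀ n, ‖G h n‖ = 1)
    {q : ℕ} (ψ : ℕ → DirichletCharacter ℂ q) {z m M x N : ℕ} (hz : 1 ≤ z) (hxN : x ≤ N)
    (hM : ∀ h ∈ S, h ≤ M)
    (htop : ∀ h ∈ S, ∀ p : ℕ, p.Prime → z < p → p ≤ N →
      V h p * (starRingEnd ℂ) (G h p) = ψ h (p : ZMod q)) :
    ‖∑ n ∈ Icc 1 x, ∏ h ∈ S, V h (n + h) -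
      ∑ n ∈ Icc 1 x, (∏ h ∈ S, PPc (fun n => V h n * (starRingEnd ℂ) (G h n)) (ψ h) z m (n + h)) *
        ∏ h ∈ S, G h (n + h)‖ ≤
      2 * S.card * ((x + M) * (z * (1 / 2) ^ (m + 1) + 1 / z) + M) := by
  classical
  rw [← Finset.sum_sub_distrib]
  refine (norm_sum_le _ _).trans ?_
  have h2 : ∀ n ∈ Icc 1 x, ‖∏ h ∈ S, V h (n + h) -
      (∏ h ∈ S, PPc (fun n => V h n * (starRingEnd ℂ) (G h n)) (ψ h) z m (n + h)) *
        ∏ h ∈ S, G h (n + h)‖ ≤
      ∑ h ∈ S, 2 * BI (fun p => V h p * (starRingEnd ℂ) (G h p) ≠ ψ h (p : ZMod q)) z m (n + h) := by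
    intro n hn
    rw [Finset.mem_Icc] at hn
    have h3 : ∏ h ∈ S, V h (n + h) =
        (∏ h ∈ S, V h (n + h) * (starRingEnd ℂ) (G h (n + h))) * ∏ h ∈ S, G h (n + h) := by
      rw [← Finset.prod_mul_distrib]
      refine Finset.prod_congr rfl fun h hh => ?_
      have hc : (starRingEnd ℂ) (G h (n + h)) * G h (n + h) = 1 := by
        rw [mul_comm, Complex.mul_conj, Complex.normSq_eq_norm_sq, hG h hh]
        simp
      rw [mul_assoc, hc, mul_one]
    have h4 : ‖∏ h ∈ S, G h (n + h)‖ = 1 := by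
      rw [norm_prod]
      exact Finset.prod_eq_one fun h hh => hG h hh _
    rw [h3, ← sub_mul, norm_mul, h4, mul_one]
    refine (prod_close S _ _ (fun h hh => (hF h hh).2.2 (n + h))
      (fun h hh => norm_PPc_le (hF h hh) (ψ h) z m (n + h))).trans ?_
    refine Finset.sum_le_sum fun h hh => ?_
    by_cases hbad : Bad (fun p => V h p * (starRingEnd ℂ) (G h p) ≠ ψ h (p : ZMod q)) z m (n + h)
    · rw [BI, if_pos hbad, mul_one]
      refine (norm_sub_le _ _).trans ?_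
      have h5 := (hF h hh).2.2 (n + h)
      have h6 := norm_PPc_le (hF h hh) (ψ h) z m (n + h)
      simp only at h5
      linarith
    · rw [BI, if_neg hbad, mul_zero]
      have h5 := PPc_eq (hF h hh) (ψ h) (z := z) (m := m) (n := n + h) (by omega) hbad
      rw [h5]
      simp
  refine (Finset.sum_le_sum h2).trans ?_
  rw [Finset.sum_comm]
  have h5 : ∀ h ∈ S, ∑ n ∈ Icc 1 x,
      2 * BI (fun p => V h p * (starRingEnd ℂ) (G h p) ≠ ψ h (p : ZMod q)) z m (n + h) ≤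
      2 * (((x : ℝ) + M) * (z * (1 / 2) ^ (m + 1) + 1 / z) + M) := by
    intro h hh
    rw [← Finset.mul_sum]
    refine mul_le_mul_of_nonneg_left ?_ (by norm_num)
    exact NatDiffAux.bi_sum hz hxN (hM h hh) fun p hp hzp hpN hne => hne (htop h hh p hp hzp hpN)
  refine (Finset.sum_le_sum h5).trans ?_
  rw [Finset.sum_const, nsmul_eq_mul]
  exact le_of_eq (by ring)

end Pool.Agent.Lib.P4a7640C
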