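import Mathlib
import Pool.Agent.Lib.P4a7640C.Base
import Pool.Agent.Lib.P4a7640D.Trunc

/-!
# Truncated expansion of a product of complex factors; telescoping

Module P4a7640C.TruncC (1 h).

`truncC`: induction on `D` (`Finset.induction_on`), for all `R` at once. Put
`Err R D = ∏ p ∈ D, (1 + θ p) - ∑ r ∈ range (R + 1), esyC θ D r`. For `p ∉ D`:
`esyC θ (insert p D) (r + 1) = esyC θ D (r + 1) + θ p * esyC θ D r` (`Finset.powersetCard_succ_insert`,
`Finset.sum_union`, `Finset.sum_image`; separate lemma, the same for `esy`) and `esyC θ _ 0 = 1`, so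
`∑ r ∈ range (R + 1), esyC θ (insert p D) r = ∑ r ∈ range (R + 1), esyC θ D r + θ p * ∑ r ∈ range R, esyC θ D r`
and `Err R (insert p D) = (1 + θ p) * Err R D + θ p * esyC θ D R`. Hence
`‖Err R (insert p D)‖ ≤ ‖Err R D‖ + ‖θ p‖ * esy (‖θ ·‖) D R ≤ esy (‖θ ·‖) D (R + 1) + ‖θ p‖ * esy (‖θ ·‖) D R =
esy (‖θ ·‖) (insert p D) (R + 1)` (`‖esyC θ D R‖ ≤ esy (‖θ ·‖) D R` by the triangle inequality).

`prod_telescopeC`: as `P4a7640D.prod_telescope` (P4a7640D/Trunc.lean) with norms in the place of `|.|`.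
-/

open Finset
open Pool.Agent.Lib.P4a7640D

namespace Pool.Agent.Lib.P4a7640C

private theorem esum_insert {R : Type*} [CommSemiring R] (w : ℕ → R) {D : Finset ℕ} {p : ℕ}
    (hp : p ∉ D) (r : ℕ) :
    ∑ T ∈ (insert p D).powersetCard (r + 1), ∏ q ∈ T, w q =
      ∑ T ∈ D.powersetCard (r + 1), ∏ q ∈ T, w q +
        w p * ∑ T ∈ D.powersetCard r, ∏ q ∈ T, w q := by
  classical
  rw [Finset.powersetCard_succ_insert hp, Finset.sum_union, Finset.sum_image, Finset.mul_sum]
  · congr 1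
    refine Finset.sum_congr rfl fun T hT => ?_
    have hpT : p ∉ T := fun h => hp ((Finset.mem_powersetCard.1 hT).1 h)
    rw [Finset.prod_insert hpT]
  · intro T hT T' hT' h
    have hpT : p ∉ T := fun h => hp ((Finset.mem_powersetCard.1 hT).1 h)
    have hpT' : p ∉ T' := fun h => hp ((Finset.mem_powersetCard.1 hT').1 h)
    rw [← Finset.erase_insert hpT, ← Finset.erase_insert hpT', h]
  · rw [Finset.disjoint_left]
    intro T hT hT2
    obtain ⟨T', _, rfl⟩ := Finset.mem_image.1 hT2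
    exact hp ((Finset.mem_powersetCard.1 hT).1 (Finset.mem_insert_self _ _))

theorem norm_esyC_le (θ : ℕ → ℂ) (D : Finset ℕ) (r : ℕ) :
    ‖esyC θ D r‖ ≤ esy (fun p => ‖θ p‖) D r := by
  unfold esyC esy
  refine (norm_sum_le _ _).trans (le_of_eq ?_)
  exact Finset.sum_congr rfl fun T _ => norm_prod _ _

theorem truncC (θ : ℕ → ℂ) (D : Finset ℕ) (R : ℕ) (h : ∀ p ∈ D, ‖1 + θ p‖ ≤ 1) :
    ‖∏ p ∈ D, (1 + θ p) - ∑ r ∈ range (R + 1), esyC θ D r‖ ≤ esy (fun p => ‖θ p‖) D (R + 1) := by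
  classical
  induction D using Finset.induction_on with
  | empty =>
    have h1 : ∑ r ∈ range (R + 1), esyC θ ∅ r = 1 := by
      rw [Finset.sum_range_succ']
      have h2 : ∀ r, esyC θ ∅ (r + 1) = 0 := by
        intro r
        unfold esyC
        rw [Finset.powersetCard_eq_empty.2 (by simp), Finset.sum_empty]
      rw [Finset.sum_eq_zero fun r _ => h2 r]
      simp [esyC]
    rw [h1, Finset.prod_empty, sub_self, norm_zero]
    unfold esy
    exact Finset.sum_nonneg fun T _ => Finset.prod_nonneg fun p _ => norm_nonneg _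
  | insert p D hp ih =>
    have ih' := ih fun q hq => h q (Finset.mem_insert_of_mem hq)
    have hpn := h p (Finset.mem_insert_self _ _)
    have e1 : ∀ r, esyC θ (insert p D) (r + 1) = esyC θ D (r + 1) + θ p * esyC θ D r :=
      fun r => esum_insert θ hp r
    have e0 : ∀ E : Finset ℕ, esyC θ E 0 = 1 := by
      intro E
      simp [esyC]
    have e2 : ∑ r ∈ range (R + 1), esyC θ (insert p D) r =
        ∑ r ∈ range (R + 1), esyC θ D r +
          θ p * (∑ r ∈ range (R + 1), esyC θ D r - esyC θ D R) := by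
      have e3 : ∑ r ∈ range (R + 1), esyC θ D r - esyC θ D R = ∑ r ∈ range R, esyC θ D r := by
        rw [Finset.sum_range_succ]
        ring
      rw [e3, Finset.sum_range_succ', Finset.sum_range_succ' (fun r => esyC θ D r),
        Finset.sum_congr rfl fun r _ => e1 r, Finset.sum_add_distrib, ← Finset.mul_sum, e0, e0]
      ring
    have e4 : ∏ q ∈ insert p D, (1 + θ q) - ∑ r ∈ range (R + 1), esyC θ (insert p D) r =
        (1 + θ p) * (∏ q ∈ D, (1 + θ q) - ∑ r ∈ range (R + 1), esyC θ D r) +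
          θ p * esyC θ D R := by
      rw [Finset.prod_insert hp, e2]
      ring
    have e5 : esy (fun p => ‖θ p‖) (insert p D) (R + 1) =
        esy (fun p => ‖θ p‖) D (R + 1) + ‖θ p‖ * esy (fun p => ‖θ p‖) D R :=
      esum_insert (fun p => ‖θ p‖) hp R
    rw [e4, e5]
    refine (norm_add_le _ _).trans (add_le_add ?_ ?_)
    · rw [norm_mul]
      calc ‖1 + θ p‖ * ‖∏ q ∈ D, (1 + θ q) - ∑ r ∈ range (R + 1), esyC θ D r‖
          ≤ 1 * ‖∏ q ∈ D, (1 + θ q) - ∑ r ∈ range (R + 1), esyC θ D r‖ :=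
            mul_le_mul_of_nonneg_right hpn (norm_nonneg _)
        _ ≤ _ := by
            rw [one_mul]
            exact ih'
    · rw [norm_mul]
      exact mul_le_mul_of_nonneg_left (norm_esyC_le θ D R) (norm_nonneg _)

theorem prod_telescopeC {ι : Type*} (s : Finset ι) (a b : ι → ℂ) (e : ι → ℝ)
    (ha : ∀ i ∈ s, ‖a i‖ ≤ 1) (hab : ∀ i ∈ s, ‖a i - b i‖ ≤ e i) :
    ‖∏ i ∈ s, a i - ∏ i ∈ s, b i‖ ≤ ∏ i ∈ s, (1 + e i) - 1 := by
  classical
  induction s using Finset.induction_on with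
  | empty => simp
  | insert i s hi ih =>
    rw [Finset.prod_insert hi, Finset.prod_insert hi, Finset.prod_insert hi]
    have ih' := ih (fun j hj => ha j (Finset.mem_insert_of_mem hj))
      (fun j hj => hab j (Finset.mem_insert_of_mem hj))
    have hai := ha i (Finset.mem_insert_self _ _)
    have habi := hab i (Finset.mem_insert_self _ _)
    have he : 0 ≤ e i := (norm_nonneg _).trans habi
    have hA : ‖∏ j ∈ s, a j‖ ≤ 1 := by
      rw [norm_prod]
      exact Finset.prod_le_one (fun j _ => norm_nonneg _)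
        (fun j hj => ha j (Finset.mem_insert_of_mem hj))
    have hb : ‖b i‖ ≤ 1 + e i := by
      have h1 : ‖b i‖ ≤ ‖a i‖ + ‖a i - b i‖ := by
        have := norm_sub_le (a i) (a i - b i)
        rwa [sub_sub_cancel] at this
      linarith
    have h0 : (0 : ℝ) ≤ ∏ j ∈ s, (1 + e j) - 1 := (norm_nonneg _).trans ih'
    have h1 : a i * ∏ j ∈ s, a j - b i * ∏ j ∈ s, b j =
        (a i - b i) * ∏ j ∈ s, a j + b i * (∏ j ∈ s, a j - ∏ j ∈ s, b j) := by ring
    rw [h1]
    have h2 := norm_add_le ((a i - b i) * ∏ j ∈ s, a j) (b i * (∏ j ∈ s, a j - ∏ j ∈ s, b j))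
    rw [norm_mul, norm_mul] at h2
    have h3 : ‖a i - b i‖ * ‖∏ j ∈ s, a j‖ ≤ e i * 1 :=
      mul_le_mul habi hA (norm_nonneg _) he
    have h4 : ‖b i‖ * ‖∏ j ∈ s, a j - ∏ j ∈ s, b j‖ ≤
        (1 + e i) * (∏ j ∈ s, (1 + e j) - 1) :=
      mul_le_mul hb ih' (norm_nonneg _) (by linarith)
    nlinarith

end Pool.Agent.Lib.P4a7640C
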