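import Mathlib
import Pool.Agent.Lib.P4a7640C.Base
import Pool.Agent.Lib.P4a7640C.TruncC

/-!
# The main term

Module P4a7640C.MainC (1 h). Imports are black boxes.

`one_add_thm`: `‖1 + θ‖ ≤ exp (-A/2)` for `θ = thm z S p`, `A = ∑ h ∈ S, (1 - Re (z h p))/p`. Indeed
`‖1 + θ‖^2 = 1 + 2 Re θ + ‖θ‖^2`, `Re θ = -A`, and by Cauchy-Schwarz (`‖z - 1‖^2 = 2 (1 - Re z)` for `‖z‖ = 1`)
`‖θ‖^2 ≤ (1/p^2) (∑ ‖z h p - 1‖)^2 ≤ (|S|/p^2) ∑ ‖z h p - 1‖^2 = 2 |S| A / p ≤ A` as `2 |S| ≤ p`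
(`sq_sum_le_card_mul_sum_sq`). So `‖1 + θ‖^2 ≤ 1 - A ≤ exp (-A)`.

`main_termC`: let `a_j = ∏ p ∈ D_j, (1 + thm z S p)`, `b_j = ∑ r ∈ range (R_j + 1), esyC (thm z S) D_j r`,
`D_j = D.filter (be · = j)`, `R_j = R + (J - 1 - j)`. `‖a_j‖ ≤ 1` by `one_add_thm` (`A ≥ 0`),
`‖a_j - b_j‖ ≤ esy (‖thm z S ·‖) D_j (R_j + 1) ≤ 2^(R_j+1) esy (|S|/p) D_j (R_j + 1)` (`truncC`, and
`‖thm z S p‖ ≤ 2 |S|/p`, `esy` is monotone and homogeneous of degree `R_j + 1`). `prod_telescopeC` and `hT` give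
`‖∏ a_j - ∏ b_j‖ ≤ η`, and `∏ j, a_j = ∏ p ∈ D, (1 + thm z S p)` (fibrewise, `Finset.prod_fiberwise_of_maps_to`), of norm
at most `∏ exp (-A_p/2) = exp (-(∑ A_p)/2)`.
-/

open Finset
open Pool.Agent.Lib.P4a7640D

namespace Pool.Agent.Lib.P4a7640C

theorem norm_thm_le (z : ℕ → ℕ → ℂ) (S : Finset ℕ) {p : ℕ} (hz : ∀ h ∈ S, ‖z h p‖ ≤ 1) :
    ‖thm z S p‖ ≤ 2 * S.card / p := by
  unfold thm
  rw [norm_div, Complex.norm_natCast]
  have h1 : ‖∑ h ∈ S, (z h p - 1)‖ ≤ 2 * S.card := by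
    calc ‖∑ h ∈ S, (z h p - 1)‖ ≤ ∑ h ∈ S, ‖z h p - 1‖ := norm_sum_le _ _
      _ ≤ ∑ h ∈ S, (2:ℝ) := by
          apply sum_le_sum
          intro h hh
          calc ‖z h p - 1‖ ≤ ‖z h p‖ + ‖(1:ℂ)‖ := norm_sub_le _ _
            _ ≤ 1 + 1 := by rw [norm_one]; linarith [hz h hh]
            _ = 2 := by norm_num
      _ = 2 * S.card := by rw [sum_const, nsmul_eq_mul]; ring
  gcongr

theorem norm_sub_one_sq {w : ℂ} (hw : ‖w‖ = 1) : ‖w - 1‖ ^ 2 = 2 * (1 - w.re) := by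
  have h1 : ‖w‖ ^ 2 = 1 := by rw [hw]; norm_num
  rw [Complex.sq_norm, Complex.normSq_apply] at h1 ⊢
  simp only [Complex.sub_re, Complex.sub_im, Complex.one_re, Complex.one_im]
  nlinarith [h1]

theorem one_add_thm (z : ℕ → ℕ → ℂ) (S : Finset ℕ) {p : ℕ} (hp : 0 < p) (hS : 2 * S.card ≤ p)
    (hz : ∀ h ∈ S, ‖z h p‖ = 1) :
    ‖1 + thm z S p‖ ≤ Real.exp (-((∑ h ∈ S, (1 - (z h p).re) / p) / 2)) := by
  set A : ℝ := ∑ h ∈ S, (1 - (z h p).re) / p with hA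
  have hpr : (0:ℝ) < p := by exact_mod_cast hp
  have hApos : (∑ h ∈ S, (1 - (z h p).re)) = p * A := by
    rw [hA, ← sum_div]
    field_simp
  have hre : (thm z S p).re = -A := by
    unfold thm
    have h1 : ((∑ h ∈ S, (z h p - 1)) / (p:ℂ)).re = (∑ h ∈ S, (z h p - 1)).re / p := by
      have := Complex.div_natCast_re (∑ h ∈ S, (z h p - 1)) p
      exact this
    rw [h1, Complex.re_sum]
    have h2 : ∑ h ∈ S, (z h p - 1).re = -(p * A) := by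
      rw [← hApos, ← sum_neg_distrib]
      apply sum_congr rfl
      intro h _
      simp
    rw [h2]
    field_simp
  have hsq : ‖∑ h ∈ S, (z h p - 1)‖ ^ 2 ≤ S.card * (2 * (p * A)) := by
    have h1 : ‖∑ h ∈ S, (z h p - 1)‖ ≤ ∑ h ∈ S, ‖z h p - 1‖ := norm_sum_le _ _
    have h2 : ‖∑ h ∈ S, (z h p - 1)‖ ^ 2 ≤ (∑ h ∈ S, ‖z h p - 1‖) ^ 2 := by
      gcongr
    have h3 : (∑ h ∈ S, ‖z h p - 1‖) ^ 2 ≤ S.card * ∑ h ∈ S, ‖z h p - 1‖ ^ 2 :=
      sq_sum_le_card_mul_sum_sq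
    have h4 : ∑ h ∈ S, ‖z h p - 1‖ ^ 2 = 2 * (p * A) := by
      rw [← hApos, mul_sum]
      exact sum_congr rfl (fun h hh => norm_sub_one_sq (hz h hh))
    rw [h4] at h3
    exact h2.trans h3
  have hA0 : 0 ≤ A := by
    rw [hA]
    apply sum_nonneg
    intro h hh
    have h1 : (z h p).re ≤ ‖z h p‖ := Complex.re_le_norm _
    rw [hz h hh] at h1
    apply div_nonneg _ hpr.le
    linarith
  have hth : ‖thm z S p‖ ^ 2 ≤ A := by
    unfold thm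
    rw [norm_div, Complex.norm_natCast, div_pow]
    rw [div_le_iff₀ (by positivity)]
    have hSr : 2 * (S.card : ℝ) ≤ p := by exact_mod_cast hS
    calc ‖∑ h ∈ S, (z h p - 1)‖ ^ 2 ≤ S.card * (2 * (p * A)) := hsq
      _ = (2 * S.card) * (p * A) := by ring
      _ ≤ p * (p * A) := by gcongr
      _ = A * (p:ℝ) ^ 2 := by ring
  have hmain : ‖1 + thm z S p‖ ^ 2 ≤ 1 - A := by
    have h1 : ‖1 + thm z S p‖ ^ 2 = 1 + 2 * (thm z S p).re + ‖thm z S p‖ ^ 2 := by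
      rw [Complex.sq_norm, Complex.sq_norm, Complex.normSq_apply, Complex.normSq_apply]
      simp only [Complex.add_re, Complex.add_im, Complex.one_re, Complex.one_im]
      ring
    rw [h1, hre]
    linarith
  have hexp : 1 - A ≤ Real.exp (-(A / 2)) ^ 2 := by
    rw [← Real.exp_nat_mul]
    have h1 : ((2:ℕ):ℝ) * -(A / 2) = -A := by push_cast; ring
    rw [h1]
    linarith [Real.add_one_le_exp (-A)]
  exact le_of_sq_le_sq (hmain.trans hexp) (Real.exp_pos _).le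

theorem esy_two {w v : ℕ → ℝ} {D : Finset ℕ} (hw : ∀ p ∈ D, 0 ≤ w p)
    (hwv : ∀ p ∈ D, w p ≤ 2 * v p) (r : ℕ) : esy w D r ≤ 2 ^ r * esy v D r := by
  unfold esy
  rw [mul_sum]
  apply sum_le_sum
  intro T hT
  rw [mem_powersetCard] at hT
  calc ∏ p ∈ T, w p ≤ ∏ p ∈ T, (2 * v p) :=
        prod_le_prod (fun p hp => hw p (hT.1 hp)) (fun p hp => hwv p (hT.1 hp))
    _ = 2 ^ r * ∏ p ∈ T, v p := by rw [prod_mul_distrib, prod_const, hT.2]

theorem main_termC (z : ℕ → ℕ → ℂ) (S D : Finset ℕ) (J R : ℕ) (η : ℝ)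
    (hD : ∀ p ∈ D, p.Prime ∧ 2 * S.card ≤ p ∧ be p < J ∧ ∀ h ∈ S, ‖z h p‖ = 1)
    (hT : ∏ j ∈ range J, (1 + 2 ^ (R + (J - 1 - j) + 1) *
      esy (fun p => (S.card : ℝ) / p) (D.filter fun p => be p = j) (R + (J - 1 - j) + 1)) - 1 ≤ η) :
    ‖∏ j ∈ range J, (∑ r ∈ range (R + (J - 1 - j) + 1),
          esyC (thm z S) (D.filter fun p => be p = j) r)‖ ≤
      Real.exp (-((∑ p ∈ D, ∑ h ∈ S, (1 - (z h p).re) / p) / 2)) + η := by
  have hA0 : ∀ p ∈ D, 0 ≤ ∑ h ∈ S, (1 - (z h p).re) / (p:ℝ) := by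
    intro p hp
    apply sum_nonneg
    intro h hh
    have h1 : (z h p).re ≤ ‖z h p‖ := Complex.re_le_norm _
    rw [(hD p hp).2.2.2 h hh] at h1
    apply div_nonneg _ (Nat.cast_nonneg p)
    linarith
  have h1 : ∀ p ∈ D, ‖1 + thm z S p‖ ≤ Real.exp (-((∑ h ∈ S, (1 - (z h p).re) / p) / 2)) :=
    fun p hp => one_add_thm z S (hD p hp).1.pos (hD p hp).2.1 (hD p hp).2.2.2
  have h2 : ∀ p ∈ D, ‖1 + thm z S p‖ ≤ 1 := by
    intro p hp
    refine (h1 p hp).trans ?_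
    rw [Real.exp_le_one_iff]
    linarith [hA0 p hp]
  have htel := prod_telescopeC (range J)
    (fun j => ∏ p ∈ D.filter (fun p => be p = j), (1 + thm z S p))
    (fun j => ∑ r ∈ range (R + (J - 1 - j) + 1),
      esyC (thm z S) (D.filter fun p => be p = j) r)
    (fun j => 2 ^ (R + (J - 1 - j) + 1) *
      esy (fun p => (S.card : ℝ) / p) (D.filter fun p => be p = j) (R + (J - 1 - j) + 1))
    (by
      intro j _
      rw [norm_prod]
      apply prod_le_one (fun p _ => norm_nonneg _)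
      intro p hp
      exact h2 p (mem_filter.1 hp).1)
    (by
      intro j _
      refine (truncC (thm z S) (D.filter fun p => be p = j) (R + (J - 1 - j))
        (fun p hp => h2 p (mem_filter.1 hp).1)).trans ?_
      apply esy_two (fun p _ => norm_nonneg _)
      intro p hp
      have := norm_thm_le z S (p := p)
        (fun h hh => ((hD p (mem_filter.1 hp).1).2.2.2 h hh).le)
      calc ‖thm z S p‖ ≤ 2 * S.card / p := this
        _ = 2 * ((S.card : ℝ) / p) := by ring)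
  have hfib : ∏ j ∈ range J, ∏ p ∈ D.filter (fun p => be p = j), (1 + thm z S p) =
      ∏ p ∈ D, (1 + thm z S p) :=
    prod_fiberwise_of_maps_to (fun p hp => mem_range.2 (hD p hp).2.2.1) _
  rw [hfib] at htel
  have hprod : ‖∏ p ∈ D, (1 + thm z S p)‖ ≤
      Real.exp (-((∑ p ∈ D, ∑ h ∈ S, (1 - (z h p).re) / p) / 2)) := by
    rw [norm_prod]
    calc ∏ p ∈ D, ‖1 + thm z S p‖
        ≤ ∏ p ∈ D, Real.exp (-((∑ h ∈ S, (1 - (z h p).re) / p) / 2)) :=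
          prod_le_prod (fun p _ => norm_nonneg _) h1
      _ = Real.exp (∑ p ∈ D, -((∑ h ∈ S, (1 - (z h p).re) / p) / 2)) := by rw [Real.exp_sum]
      _ = _ := by
          congr 1
          rw [sum_neg_distrib, sum_div]
  have h3 := htel.trans hT
  set a : ℂ := ∏ p ∈ D, (1 + thm z S p) with ha
  set b : ℂ := ∏ j ∈ range J, (∑ r ∈ range (R + (J - 1 - j) + 1),
          esyC (thm z S) (D.filter fun p => be p = j) r) with hb
  calc ‖b‖ = ‖a - (a - b)‖ := by rw [sub_sub_cancel]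
    _ ≤ ‖a‖ + ‖a - b‖ := norm_sub_le _ _
    _ ≤ _ := add_le_add hprod h3

end Pool.Agent.Lib.P4a7640C
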