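import Mathlib
import Pool.Agent.Lib.P4a7640C.Base
import Pool.Agent.Lib.P4a7640T.ApBlocks

/-!
# Mean values of products of the `θ_p` in residue classes

Module P4a7640C.CountC (1 h).

Adapt `gen_countP` of P4a7640E/BlocksP.lean (`base_count`, `crt_two` of P4a7640T/ApBlocks.lean can be cited).
Induction on `T`. For `T = ∅`: `base_count` (cast to `ℂ`: the sum of `if .. then 1 else 0` is the cast of the real
sum, `Complex.norm_real`). For `insert p T`:
`∏ r ∈ insert p T, th z S n r = ∑ h ∈ S, (z h p - 1) * (if p ∣ n + h then 1 else 0) * ∏ r ∈ T, th z S n r`, and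
`(if n ≡ c [MOD q] ..) * (if p ∣ n + h ..) = if n ≡ c' h [MOD q * p] ..` (`crt_two`). The main term is
`∑ h ∈ S, (z h p - 1) * (x/(q p)) * ∏ r ∈ T, thm z S r = x/q * (thm z S p) * ∏ ..`, the error at most
`∑ h ∈ S, ‖z h p - 1‖ * (2 |S|)^|T| ≤ 2 |S| * (2 |S|)^|T|` as `‖z h p - 1‖ ≤ 2`.
-/

open Finset
open Pool.Agent.Lib.P4a7640T

namespace Pool.Agent.Lib.P4a7640C

theorem gen_countC (z : ℕ → ℕ → ℂ) (S : Finset ℕ) (x : ℕ) (T : Finset ℕ) :
    (∀ p ∈ T, p.Prime) → (∀ p ∈ T, ∀ h ∈ S, ‖z h p‖ ≤ 1) → ∀ q c : ℕ, 0 < q →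
    (∀ p ∈ T, Nat.Coprime q p) →
    ‖∑ n ∈ Icc 1 x, (if n ≡ c [MOD q] then (1:ℂ) else 0) * ∏ p ∈ T, th z S n p -
      x / q * ∏ p ∈ T, thm z S p‖ ≤ (2 * (S.card : ℝ)) ^ T.card := by
  classical
  induction T using Finset.induction_on with
  | empty =>
    intro _ _ q c hq _
    have h1 := base_count x q c hq
    have h2 : ∑ n ∈ Icc 1 x, (if n ≡ c [MOD q] then (1:ℂ) else 0) * ∏ p ∈ (∅ : Finset ℕ), th z S n p -
      x / q * ∏ p ∈ (∅ : Finset ℕ), thm z S p =
      ((∑ n ∈ Icc 1 x, (if n ≡ c [MOD q] then (1:ℝ) else 0) - x / q : ℝ) : ℂ) := by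
      simp only [prod_empty, mul_one]
      push_cast
      congr 1
      refine sum_congr rfl fun n _ => ?_
      split_ifs <;> simp
    rw [h2, Complex.norm_real, card_empty, pow_zero]
    exact h1
  | @insert p T hpT ih =>
    intro hT hz q c hq hco
    have hp : p.Prime := hT p (mem_insert_self _ _)
    have hp0 : (p:ℂ) ≠ 0 := by exact_mod_cast hp.ne_zero
    have hq0 : (q:ℂ) ≠ 0 := by exact_mod_cast hq.ne'
    have hcop : Nat.Coprime q p := hco p (mem_insert_self _ _)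
    choose c' hc' using fun h => crt_two hcop hp.pos c h
    have hih : ∀ h ∈ S, ‖∑ n ∈ Icc 1 x, (if n ≡ c' h [MOD q * p] then (1:ℂ) else 0) *
        ∏ p ∈ T, th z S n p - x / ((q * p : ℕ) : ℂ) * ∏ p ∈ T, thm z S p‖ ≤
        (2 * (S.card : ℝ)) ^ T.card := by
      intro h _
      refine ih (fun r hr => hT r (mem_insert_of_mem hr)) (fun r hr => hz r (mem_insert_of_mem hr))
        (q * p) (c' h) (Nat.mul_pos hq hp.pos) ?_
      intro r hr
      refine Nat.Coprime.mul_left (hco r (mem_insert_of_mem hr)) ?_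
      refine (Nat.coprime_primes hp (hT r (mem_insert_of_mem hr))).2 ?_
      rintro rfl
      exact hpT hr
    have hsplit : ∑ n ∈ Icc 1 x, (if n ≡ c [MOD q] then (1:ℂ) else 0) *
        ∏ p ∈ insert p T, th z S n p =
        ∑ h ∈ S, (z h p - 1) * ∑ n ∈ Icc 1 x, (if n ≡ c' h [MOD q * p] then (1:ℂ) else 0) *
          ∏ p ∈ T, th z S n p := by
      simp only [mul_sum]
      rw [sum_comm]
      refine sum_congr rfl fun n _ => ?_
      rw [prod_insert hpT]
      conv_lhs => rw [th]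
      rw [← mul_assoc, mul_sum, sum_mul]
      refine sum_congr rfl fun h _ => ?_
      rw [← mul_assoc]
      congr 1
      have h5 := hc' h n
      by_cases h6 : n ≡ c [MOD q]
      · by_cases h7 : p ∣ n + h
        · rw [if_pos h6, if_pos h7, if_pos (h5.1 ⟨h6, h7⟩), one_mul, mul_one]
        · rw [if_neg h7, if_neg (fun h8 => h7 (h5.2 h8).2), mul_zero, mul_zero]
      · rw [if_neg h6, if_neg (fun h8 => h6 (h5.2 h8).1), zero_mul, mul_zero]
    have hmain : (x:ℂ) / q * ∏ p ∈ insert p T, thm z S p =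
        ∑ h ∈ S, (z h p - 1) * (x / ((q * p : ℕ) : ℂ) * ∏ p ∈ T, thm z S p) := by
      rw [prod_insert hpT, ← sum_mul]
      conv_lhs => rw [thm]
      push_cast
      field_simp
    rw [hsplit, hmain, ← sum_sub_distrib, card_insert_of_notMem hpT, pow_succ']
    have hnorm : ∀ h ∈ S, ‖z h p - 1‖ ≤ 2 := by
      intro h hh
      have h1 := hz p (mem_insert_self _ _) h hh
      calc ‖z h p - 1‖ ≤ ‖z h p‖ + ‖(1:ℂ)‖ := norm_sub_le _ _
        _ ≤ 1 + 1 := by
          rw [norm_one]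
          linarith
        _ = 2 := by norm_num
    calc _ ≤ ∑ h ∈ S, ‖(z h p - 1) * (∑ n ∈ Icc 1 x, (if n ≡ c' h [MOD q * p] then (1:ℂ) else 0) *
          ∏ p ∈ T, th z S n p) - (z h p - 1) * (x / ((q * p : ℕ) : ℂ) * ∏ p ∈ T, thm z S p)‖ :=
          norm_sum_le _ _
      _ ≤ ∑ _h ∈ S, 2 * (2 * (S.card : ℝ)) ^ T.card := by
          refine sum_le_sum fun h hh => ?_
          rw [← mul_sub, norm_mul]
          exact mul_le_mul (hnorm h hh) (hih h hh) (norm_nonneg _) (by norm_num)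
      _ = 2 * (S.card : ℝ) * (2 * (S.card : ℝ)) ^ T.card := by
          rw [sum_const, nsmul_eq_mul]
          ring

end Pool.Agent.Lib.P4a7640C
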