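import Mathlib
import Pool.Agent.Lib.P4a7640C.Base
import Pool.Agent.Lib.P4a7640C.BlkC
import Pool.Agent.Lib.P4a7640C.CountC
import Pool.Agent.Lib.P4a7640D.Level

/-!
# Mean values of block polynomials in the `θ_p`

Module P4a7640C.MeanC (1 h). Imports are black boxes.

Adapt `mean_blocksP` (P4a7640E/BlocksP.lean). `prod_blocksC` with `β = be`, `R j := R + (J - 1 - j)`, for
`w = th z S n` and for `w = thm z S`, writes the difference as
`∑ T ∈ D.powerset.filter (..), (∑ n, (if n ≡ a ..) * ∏ p ∈ T, th z S n p - x/q * ∏ p ∈ T, thm z S p)`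
(`Finset.sum_comm`, `Finset.mul_sum`), `gen_countC` bounds each term by `(2 |S|)^|T| ≤ (2 m)^|T|`, and `level m D J R x`
(P4a7640D/Level.lean; see its use in `mean_blocksP`) ends the proof: its sum runs over the larger set of the `T` with
`(T.filter ..).card ≤ R + (J - 1 - j) + 1`.
-/

open Finset
open Pool.Agent.Lib.P4a7640D

namespace Pool.Agent.Lib.P4a7640C

theorem mean_blocksC (z : ℕ → ℕ → ℂ) (S : Finset ℕ) (m : ℕ) (hm : S.card ≤ m) (D : Finset ℕ)
    (J R x q a : ℕ) (hq : 0 < q)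
    (hD : ∀ p ∈ D, p.Prime ∧ (∀ h ∈ S, ‖z h p‖ ≤ 1) ∧ (2 * m) ^ 2 ≤ p ∧ be p < J)
    (hco : ∀ p ∈ D, Nat.Coprime q p) (hx : 2 ^ (2 ^ (J + 2) * (R + 2)) ≤ x) :
    ‖∑ n ∈ Icc 1 x, (if n ≡ a [MOD q] then (1:ℂ) else 0) *
        ∏ j ∈ range J, (∑ r ∈ range (R + (J - 1 - j) + 1),
          esyC (th z S n) (D.filter fun p => be p = j) r) -
      x / q * ∏ j ∈ range J, (∑ r ∈ range (R + (J - 1 - j) + 1),
          esyC (thm z S) (D.filter fun p => be p = j) r)‖ ≤ (x : ℝ) ^ ((3:ℝ) / 4) := by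
  classical
  set F : Finset (Finset ℕ) := D.powerset.filter
    (fun T => ∀ j < J, (T.filter fun p => be p = j).card ≤ R + (J - 1 - j)) with hF
  have e1 : ∀ w : ℕ → ℂ, ∏ j ∈ range J, (∑ r ∈ range (R + (J - 1 - j) + 1),
      esyC w (D.filter fun p => be p = j) r) = ∑ T ∈ F, ∏ p ∈ T, w p := by
    intro w
    exact prod_blocksC w be D J (fun p hp => (hD p hp).2.2.2) (fun j => R + (J - 1 - j))
  have e3 : ∑ n ∈ Icc 1 x, (if n ≡ a [MOD q] then (1:ℂ) else 0) *
        ∏ j ∈ range J, (∑ r ∈ range (R + (J - 1 - j) + 1),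
          esyC (th z S n) (D.filter fun p => be p = j) r) -
      x / q * ∏ j ∈ range J, (∑ r ∈ range (R + (J - 1 - j) + 1),
          esyC (thm z S) (D.filter fun p => be p = j) r) =
      ∑ T ∈ F, (∑ n ∈ Icc 1 x, (if n ≡ a [MOD q] then (1:ℂ) else 0) *
        ∏ p ∈ T, th z S n p - x / q * ∏ p ∈ T, thm z S p) := by
    rw [e1, sum_congr rfl fun n _ => by rw [e1 (th z S n), mul_sum], sum_comm, mul_sum,
      ← sum_sub_distrib]
  rw [e3]
  have hFD : ∀ T ∈ F, T ⊆ D := fun T hT => mem_powerset.1 (mem_filter.1 hT).1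
  have hb : ∀ T ∈ F, ‖∑ n ∈ Icc 1 x, (if n ≡ a [MOD q] then (1:ℂ) else 0) *
        ∏ p ∈ T, th z S n p - x / q * ∏ p ∈ T, thm z S p‖ ≤ (2 * (m : ℝ)) ^ T.card := by
    intro T hT
    have hTD := hFD T hT
    refine (gen_countC z S x T (fun p hp => (hD p (hTD hp)).1)
      (fun p hp => (hD p (hTD hp)).2.1) q a hq (fun p hp => hco p (hTD hp))).trans ?_
    refine pow_le_pow_left₀ (by positivity) ?_ _
    have : (S.card : ℝ) ≤ m := by exact_mod_cast hm
    linarith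
  refine (norm_sum_le _ _).trans ((sum_le_sum hb).trans ?_)
  have hlev := level m D J R x (fun p hp => (hD p hp).1) (fun p hp => (hD p hp).2.2.1)
    (fun p hp => (hD p hp).2.2.2) hx
  refine le_trans ?_ hlev
  refine sum_le_sum_of_subset_of_nonneg ?_ (fun T _ _ => by positivity)
  intro T hT
  rw [hF, mem_filter] at hT
  rw [mem_filter]
  refine ⟨hT.1, fun j hj => ?_⟩
  have := hT.2 j hj
  omega

end Pool.Agent.Lib.P4a7640C
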