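import Mathlib
import Pool.Agent.Lib.P4a7640C.Base
import Pool.Agent.Lib.P4a7640C.TruncC
import Pool.Agent.Lib.P4a7640C.MeanC
import Pool.Agent.Lib.P4a7640C.MainC
import Pool.Agent.Lib.P4a7640G.MainR
import Pool.Agent.Lib.P4a7640G.SieveR
import Pool.Agent.Lib.P4a7640E.BlocksP

/-!
# The complex sieve

Module P4a7640C.SieveC (1.5 h). Imports are black boxes.

Adapt the proof of `P4a7640G.sieveR` (P4a7640G/SieveR.lean). `m = H.card + 1`. Pointwise (`n ≥ 1`), with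
`D_j = D.filter (be · = j)`, `R_j = R + (J - 1 - j)`: every `p ∈ D` is larger than all `h ∈ H`, so at most one `h ∈ H`
has `p ∣ n + h` and `1 + th z H n p` is `1` or `z h p`, of norm `1`; and
`‖th z H n p‖ ≤ 2 * (if ∃ h ∈ H, p ∣ n + h then 1 else 0)`. So with `a_j = ∏ p ∈ D_j, (1 + th z H n p)`,
`b_j = ∑ r ∈ range (R_j + 1), esyC (th z H n) D_j r`: `‖a_j‖ ≤ 1`,
`‖a_j - b_j‖ ≤ esy (‖th z H n ·‖) D_j (R_j + 1) ≤ er R_j (KP (fun _ => H) D_j n)` (`truncC`, `esy_ind`, see the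
definition of `er`: `2^(R+1) * choose K (R+1)`), `∏ j, a_j = ∏ p ∈ D, (1 + th z H n p)` (fibrewise), so
`prod_telescopeC` gives `‖∏ p ∈ D, (1 + th) - ∏ j, b_j‖ ≤ ∏ j, (1 + er R_j (KP ..)) - 1`.
Sum over `n ≡ a`: the error is handled exactly as in `sieveR` (`hB` there: `mean_blocksP` with `ps`, `base_count`, and the
second conclusion of `main_termR` for `w p = H.card/p`, `≤ η/4`), the main term by `mean_blocksC` and `main_termC`
(with `η/4`). The final numerics are those of `sieveR` (`rpow_small`).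
-/

open Finset

namespace Pool.Agent.Lib.P4a7640C

open Pool.Agent.Lib.P4a7640 Pool.Agent.Lib.P4a7640D Pool.Agent.Lib.P4a7640T
open Pool.Agent.Lib.P4a7640E Pool.Agent.Lib.P4a7640G

namespace SieveCAux

theorem th_bounds (z : ℕ → ℕ → ℂ) (H : Finset ℕ) (n p : ℕ) (hp : H.sup id + 1 ≤ p)
    (hz : ∀ h ∈ H, ‖z h p‖ = 1) :
    ‖1 + th z H n p‖ ≤ 1 ∧ ‖th z H n p‖ ≤ 2 * (if ∃ h ∈ H, p ∣ n + h then (1:ℝ) else 0) := by
  by_cases hP : ∃ h ∈ H, p ∣ n + h
  · obtain ⟨h₀, hh₀, hd₀⟩ := hP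
    have hth : th z H n p = z h₀ p - 1 := by
      unfold th
      rw [Finset.sum_eq_single h₀]
      · rw [if_pos hd₀]
      · intro h hh hne
        rw [if_neg]
        intro hd
        apply hne
        have h1 : h ≤ H.sup id := Finset.le_sup (f := id) hh
        have h2 : h₀ ≤ H.sup id := Finset.le_sup (f := id) hh₀
        rcases le_total h h₀ with h3 | h3
        · have h4 : p ∣ h₀ - h := by
            have h5 := (Nat.dvd_sub hd₀ hd)
            have h6 : n + h₀ - (n + h) = h₀ - h := by omega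
            rwa [h6] at h5
          have h7 := Nat.eq_zero_of_dvd_of_lt h4 (by omega)
          omega
        · have h4 : p ∣ h - h₀ := by
            have h5 := (Nat.dvd_sub hd hd₀)
            have h6 : n + h - (n + h₀) = h - h₀ := by omega
            rwa [h6] at h5
          have h7 := Nat.eq_zero_of_dvd_of_lt h4 (by omega)
          omega
      · intro h
        exact absurd hh₀ h
    rw [hth, if_pos ⟨h₀, hh₀, hd₀⟩]
    constructor
    · have h1 : (1:ℂ) + (z h₀ p - 1) = z h₀ p := by ring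
      rw [h1, hz h₀ hh₀]
    · have h1 := norm_sub_le (z h₀ p) 1
      rw [hz h₀ hh₀, norm_one] at h1
      linarith
  · have hth : th z H n p = 0 := by
      unfold th
      refine Finset.sum_eq_zero fun h hh => ?_
      rw [if_neg]
      intro hd
      exact hP ⟨h, hh, hd⟩
    rw [hth, if_neg hP]
    constructor
    · rw [add_zero, norm_one]
    · rw [norm_zero]; norm_num

theorem esy_le_two (f g : ℕ → ℝ) (D : Finset ℕ) (r : ℕ) (h0 : ∀ p ∈ D, 0 ≤ f p)
    (h : ∀ p ∈ D, f p ≤ 2 * g p) : esy f D r ≤ 2 ^ r * esy g D r := by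
  unfold esy
  rw [Finset.mul_sum]
  refine Finset.sum_le_sum fun T hT => ?_
  rw [Finset.mem_powersetCard] at hT
  have h1 : ∏ p ∈ T, f p ≤ ∏ p ∈ T, (2 * g p) :=
    Finset.prod_le_prod (fun p hp => h0 p (hT.1 hp)) (fun p hp => h p (hT.1 hp))
  rw [Finset.prod_mul_distrib, Finset.prod_const, hT.2] at h1
  exact h1

end SieveCAux

open SieveAux SieveCAux in
theorem sieveC : ∃ C₁ : ℝ, 0 < C₁ ∧ ∀ (H : Finset ℕ) (η : ℝ) (R : ℕ), 0 < η →
    2 * (2 * (H.card + 1 : ℕ) * C₁) ≤ R + 1 →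
    (2 * (H.card + 1 : ℕ) * C₁) ^ (R + 1) / ((R + 1).factorial : ℝ) < Real.log (1 + η / 4) / 4 →
    ∀ (q : ℕ), 0 < q → ∃ x₀ : ℕ, ∀ (z : ℕ → ℕ → ℂ) (D : Finset ℕ) (J x a : ℕ),
      (∀ p ∈ D, p.Prime ∧ H.sup id + 1 + (2 * (H.card + 1)) ^ 2 ≤ p ∧ be p < J ∧
        Nat.Coprime q p ∧ ∀ h ∈ H, ‖z h p‖ = 1) →
      2 ^ (2 ^ (J + 2) * (R + 2)) ≤ x → x₀ ≤ x →
      ‖∑ n ∈ Icc 1 x, (if n ≡ a [MOD q] then (1:ℂ) else 0) * ∏ p ∈ D, (1 + th z H n p)‖ ≤
        x / q * (Real.exp (-((∑ p ∈ D, ∑ h ∈ H, (1 - (z h p).re) / p) / 2)) + η) := by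
  classical
  obtain ⟨C₁, hC₁, hmass⟩ := block_mass
  refine ⟨C₁, hC₁, fun H η R hη hR2 hRa q hq => ?_⟩
  set m := H.card + 1 with hm
  have hm1 : 1 ≤ m := by omega
  have hmR : (1:ℝ) ≤ m := by exact_mod_cast hm1
  refine ⟨⌈(8 / (η / (2 * q))) ^ 4⌉₊, fun z D J x a hD hx hx₀ => ?_⟩
  have hq0 : (0:ℝ) < q := by exact_mod_cast hq
  have hcm : H.card ≤ m := by omega
  have hcmR : (H.card : ℝ) ≤ m := by exact_mod_cast hcm
  have hbe : ∀ p ∈ D, be p < J := fun p hp => (hD p hp).2.2.1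
  have hx4 : (8 / (η / (2 * q))) ^ 4 ≤ (x:ℝ) := by
    refine (Nat.le_ceil _).trans ?_
    exact_mod_cast hx₀
  have hsmall := rpow_small (show 0 < η / (2 * q) by positivity) hx4
  have hDm : ∀ p ∈ D, p.Prime ∧ (∀ h ∈ H, h < p) ∧ H.card ≤ m ∧ (2 * m) ^ 2 ≤ p ∧
      be p < J := by
    intro p hp
    obtain ⟨hp1, hp2, hp3, _, hp5⟩ := hD p hp
    refine ⟨hp1, fun h hh => ?_, hcm, ?_, hp3⟩
    · have h1 : h ≤ H.sup id := Finset.le_sup (f := id) hh
      omega
    · omega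
  have h2c : ∀ p ∈ D, 2 * H.card ≤ p := by
    intro p hp
    obtain ⟨hp1, _, hp2, hp3, _⟩ := hDm p hp
    nlinarith
  have hmain := main_termR (C := 2 * m * C₁) (η := η / 4) (by positivity) (by positivity) hR2 hRa
    (fun p => (H.card : ℝ) / p) D be J (fun p hp => by
      obtain ⟨hp1, _, hp2, hp3, _⟩ := hDm p hp
      refine ⟨by positivity, ?_⟩
      have hp0 : (0:ℝ) < p := by exact_mod_cast hp1.pos
      have h5 : (2:ℝ) * H.card ≤ p := by exact_mod_cast h2c p hp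
      rw [← mul_div_assoc, div_le_one hp0]
      exact h5) hbe (fun j _ => by
      have h1 := hmass j (D.filter fun p => be p = j) (fun p hp => by
        rw [mem_filter] at hp
        exact ⟨(hD p hp.1).1, hp.2⟩)
      have h2 : ∑ p ∈ D.filter (fun p => be p = j), (H.card:ℝ) / p ≤
          m * ∑ p ∈ D.filter (fun p => be p = j), (1:ℝ) / p := by
        rw [mul_sum]
        refine sum_le_sum fun p hp => ?_
        rw [mul_one_div]
        exact div_le_div_of_nonneg_right hcmR (Nat.cast_nonneg _)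
      calc 2 * ∑ p ∈ D.filter (fun p => be p = j), (H.card:ℝ) / p
          ≤ 2 * ((m:ℝ) * ∑ p ∈ D.filter (fun p => be p = j), (1:ℝ) / p) := by linarith
        _ ≤ 2 * (m * C₁) := by gcongr
        _ = 2 * m * C₁ := by ring)
  obtain ⟨-, hm2'⟩ := hmain
  have hm1' := main_termC z H D J R (η / 4) (fun p hp =>
    ⟨(hD p hp).1, h2c p hp, hbe p hp, (hD p hp).2.2.2.2⟩) hm2'
  -- the two applications of `mean_blocks`
  have hA' := mean_blocksC z H m hcm D J R x q a hq (fun p hp =>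
    ⟨(hD p hp).1, fun h hh => ((hD p hp).2.2.2.2 h hh).le, (hDm p hp).2.2.2.1, hbe p hp⟩)
    (fun p hp => (hD p hp).2.2.2.1) hx
  have hB := mean_blocksP (fun _ => H) m D J R x q a hq hDm (fun p hp => (hD p hp).2.2.2.1) hx
    (fun j r => ps (R + (J - 1 - j)) r) (fun j r => abs_ps _ r)
  simp only [sum_ps, Nat.choose_zero_right, Nat.cast_one, esy_zero] at hB
  set K : ℕ → ℕ → ℕ := fun j n => KP (fun _ => H) (D.filter fun p => be p = j) n with hK
  have hB' : |∑ n ∈ Icc 1 x, (if n ≡ a [MOD q] then (1:ℝ) else 0) *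
        ∏ j ∈ range J, (1 + er (R + (J - 1 - j)) (K j n)) -
      x / q * ∏ j ∈ range J, (1 + 2 ^ (R + (J - 1 - j) + 1) *
        esy (fun p => (H.card : ℝ) / p) (D.filter fun p => be p = j) (R + (J - 1 - j) + 1))| ≤
      (x:ℝ) ^ ((3:ℝ) / 4) := hB
  set T1 : ℂ := ∏ j ∈ range J, (∑ r ∈ range (R + (J - 1 - j) + 1),
          esyC (thm z H) (D.filter fun p => be p = j) r) with hT1
  set T2 := ∏ j ∈ range J, (1 + 2 ^ (R + (J - 1 - j) + 1) *
        esy (fun p => (H.card : ℝ) / p) (D.filter fun p => be p = j) (R + (J - 1 - j) + 1)) with hT2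
  set I : ℕ → ℝ := fun n => if n ≡ a [MOD q] then (1:ℝ) else 0 with hI
  set IC : ℕ → ℂ := fun n => if n ≡ a [MOD q] then (1:ℂ) else 0 with hIC
  have hI0 : ∀ n, 0 ≤ I n := fun n => by simp only [hI]; split_ifs <;> norm_num
  have hnI : ∀ n, ‖IC n‖ = I n := fun n => by
    simp only [hI, hIC]
    split_ifs
    · exact norm_one
    · exact norm_zero
  have hcount : (x:ℝ) / q - 1 ≤ ∑ n ∈ Icc 1 x, I n := by
    have h1 := (abs_le.1 (base_count x q a hq)).1
    linarith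
  have hth : ∀ n, ∀ p ∈ D, ‖1 + th z H n p‖ ≤ 1 ∧
      ‖th z H n p‖ ≤ 2 * (if ∃ h ∈ H, p ∣ n + h then (1:ℝ) else 0) := by
    intro n p hp
    exact th_bounds z H n p (by have := (hD p hp).2.1; omega) (hD p hp).2.2.2.2
  have hsplit : ∀ n, ∏ p ∈ D, (1 + th z H n p) =
      ∏ j ∈ range J, ∏ p ∈ D.filter (fun p => be p = j), (1 + th z H n p) := by
    intro n
    exact (Finset.prod_fiberwise_of_maps_to (fun p hp => mem_range.2 (hbe p hp)) _).symm
  have htel : ‖∑ n ∈ Icc 1 x, IC n * ∏ p ∈ D, (1 + th z H n p) -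
      ∑ n ∈ Icc 1 x, IC n * ∏ j ∈ range J, (∑ r ∈ range (R + (J - 1 - j) + 1),
          esyC (th z H n) (D.filter fun p => be p = j) r)‖ ≤
      ∑ n ∈ Icc 1 x, I n * ∏ j ∈ range J, (1 + er (R + (J - 1 - j)) (K j n)) -
        ∑ n ∈ Icc 1 x, I n := by
    rw [← sum_sub_distrib, ← sum_sub_distrib]
    refine (norm_sum_le _ _).trans ?_
    refine sum_le_sum fun n _ => ?_
    rw [← mul_sub, norm_mul, hnI, hsplit]
    have h1 := prod_telescopeC (range J)
      (fun j => ∏ p ∈ D.filter (fun p => be p = j), (1 + th z H n p))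
      (fun j => ∑ r ∈ range (R + (J - 1 - j) + 1),
          esyC (th z H n) (D.filter fun p => be p = j) r)
      (fun j => er (R + (J - 1 - j)) (K j n))
      (fun j _ => by
        rw [norm_prod]
        exact Finset.prod_le_one (fun p _ => norm_nonneg _)
          (fun p hp => (hth n p (mem_filter.1 hp).1).1))
      (fun j _ => by
        refine (truncC (th z H n) (D.filter fun p => be p = j) (R + (J - 1 - j))
          (fun p hp => (hth n p (mem_filter.1 hp).1).1)).trans ?_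
        refine (esy_le_two _ (fun p => if ∃ h ∈ H, p ∣ n + h then (1:ℝ) else 0) _ _
          (fun p _ => norm_nonneg _) (fun p hp => (hth n p (mem_filter.1 hp).1).2)).trans ?_
        rw [esy_ind]
        rfl)
    have h2 := mul_le_mul_of_nonneg_left h1 (hI0 n)
    refine h2.trans (le_of_eq ?_)
    ring
  have hxR : (0:ℝ) ≤ x / q := by positivity
  have hx1 : (1:ℝ) ≤ x := by
    have h1 : 1 ≤ x := le_trans Nat.one_le_two_pow hx
    exact_mod_cast h1
  have hx34 : (1:ℝ) ≤ (x:ℝ) ^ ((3:ℝ) / 4) := Real.one_le_rpow hx1 (by norm_num)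
  set SM : ℂ := ∑ n ∈ Icc 1 x, IC n * ∏ j ∈ range J, (∑ r ∈ range (R + (J - 1 - j) + 1),
          esyC (th z H n) (D.filter fun p => be p = j) r) with hSM
  have hnxq : ‖(x / q : ℂ) * T1‖ = x / q * ‖T1‖ := by
    rw [norm_mul, norm_div, Complex.norm_natCast, Complex.norm_natCast]
  have k1 : ‖SM‖ ≤ x / q * ‖T1‖ + (x:ℝ) ^ ((3:ℝ) / 4) := by
    have h1 : ‖SM‖ ≤ ‖SM - (x / q : ℂ) * T1‖ + ‖(x / q : ℂ) * T1‖ := by
      have := norm_add_le (SM - (x / q : ℂ) * T1) ((x / q : ℂ) * T1)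
      rwa [sub_add_cancel] at this
    rw [hnxq] at h1
    linarith [hA']
  have k2 : ∑ n ∈ Icc 1 x, I n * ∏ j ∈ range J, (1 + er (R + (J - 1 - j)) (K j n)) ≤
      x / q * T2 + (x:ℝ) ^ ((3:ℝ) / 4) := by
    have h1 := (abs_le.1 hB').2
    linarith
  have k3 : x / q * ‖T1‖ ≤ x / q * (Real.exp (-((∑ p ∈ D, ∑ h ∈ H, (1 - (z h p).re) / p) / 2)) +
      η / 4) := mul_le_mul_of_nonneg_left hm1' hxR
  have k4 : x / q * T2 - x / q ≤ x / q * (η / 4) := by
    have h1 : (x:ℝ) / q * T2 - x / q = x / q * (T2 - 1) := by ring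
    rw [h1]
    exact mul_le_mul_of_nonneg_left hm2' hxR
  have k5 : ‖∑ n ∈ Icc 1 x, IC n * ∏ p ∈ D, (1 + th z H n p)‖ ≤
      ‖∑ n ∈ Icc 1 x, IC n * ∏ p ∈ D, (1 + th z H n p) - SM‖ + ‖SM‖ := by
    have := norm_add_le (∑ n ∈ Icc 1 x, IC n * ∏ p ∈ D, (1 + th z H n p) - SM) SM
    rwa [sub_add_cancel] at this
  have k6 : x / q * (Real.exp (-((∑ p ∈ D, ∑ h ∈ H, (1 - (z h p).re) / p) / 2)) + η / 4) +
      x / q * (η / 4) + 2 * (x:ℝ) ^ ((3:ℝ) / 4) + 2 * (x:ℝ) ^ ((3:ℝ) / 4) ≤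
      x / q * (Real.exp (-((∑ p ∈ D, ∑ h ∈ H, (1 - (z h p).re) / p) / 2)) + η) := by
    have h1 : (x:ℝ) * (η / (2 * q) / 4) = x / q * (η / 8) := by
      field_simp
      ring
    rw [h1] at hsmall
    have h2 : 0 ≤ (x:ℝ) / q * η := by positivity
    nlinarith
  linarith

end Pool.Agent.Lib.P4a7640C
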