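import Mathlib
import Pool.Agent.Lib.P4a7640C.Base

/-!
# Splitting into residue classes, complex values

Module P4a7640C.SplitC (0.5 h). Copy `split_classes` (P4a7640G/NatLevel.lean) with norms.
-/

open Finset

namespace Pool.Agent.Lib.P4a7640C

theorem split_classesC {R x : ℕ} (hR : 0 < R) {W F : ℕ → ℂ} (hper : ∀ n, W (n + R) = W n)
    (hW : ∀ n, ‖W n‖ ≤ 1) {β : ℝ}
    (h : ∀ a : ℕ, ‖∑ n ∈ Icc 1 x, (if n ≡ a [MOD R] then (1:ℂ) else 0) * F n‖ ≤ x / R * β) :
    ‖∑ n ∈ Icc 1 x, W n * F n‖ ≤ x * β := by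
  have hR0 : (R : ℝ) ≠ 0 := by exact_mod_cast hR.ne'
  have hmod : ∀ n, W (n % R) = W n := fun n =>
    Function.Periodic.map_mod_nat (f := W) hper n
  have e : ∑ n ∈ Icc 1 x, W n * F n =
      ∑ a ∈ range R, W a * ∑ n ∈ Icc 1 x, (if n ≡ a [MOD R] then (1:ℂ) else 0) * F n := by
    simp only [Finset.mul_sum]
    rw [Finset.sum_comm]
    refine Finset.sum_congr rfl fun n _ => ?_
    rw [Finset.sum_eq_single (n % R)]
    · rw [if_pos (Nat.mod_modEq n R).symm, one_mul, hmod]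
    · intro a ha hne
      rw [if_neg, zero_mul, mul_zero]
      intro h1
      apply hne
      have h2 : n % R = a % R := h1
      rw [h2, Nat.mod_eq_of_lt (Finset.mem_range.1 ha)]
    · intro h1
      exact absurd (Finset.mem_range.2 (Nat.mod_lt n hR)) h1
  rw [e]
  calc ‖∑ a ∈ range R, W a * ∑ n ∈ Icc 1 x, (if n ≡ a [MOD R] then (1:ℂ) else 0) * F n‖
      ≤ ∑ a ∈ range R, ‖W a * ∑ n ∈ Icc 1 x, (if n ≡ a [MOD R] then (1:ℂ) else 0) * F n‖ :=
        norm_sum_le _ _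
    _ ≤ ∑ a ∈ range R, (x / R * β) := by
        refine Finset.sum_le_sum fun a _ => ?_
        rw [norm_mul]
        calc ‖W a‖ * ‖∑ n ∈ Icc 1 x, (if n ≡ a [MOD R] then (1:ℂ) else 0) * F n‖
            ≤ 1 * ‖∑ n ∈ Icc 1 x, (if n ≡ a [MOD R] then (1:ℂ) else 0) * F n‖ :=
              mul_le_mul_of_nonneg_right (hW a) (norm_nonneg _)
          _ ≤ x / R * β := by rw [one_mul]; exact h a
    _ = x * β := by
        rw [Finset.sum_const, Finset.card_range, nsmul_eq_mul]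
        field_simp

end Pool.Agent.Lib.P4a7640C
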