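import Mathlib
import Pool.Agent.Lib.P4a7640C.Base

/-!
# Basic properties of `vc`, `wc`, `gc`
-/

open Finset
open Pool.Agent.Lib.P4a7640

namespace Pool.Agent.Lib.P4a7640C

namespace VcBAux

lemma norm_sgC (v : ℤˣ) : ‖sgC v‖ = 1 := by
  rcases Int.units_eq_one_or v with h | h <;> simp [sgC, h]

lemma sgC_sq (v : ℤˣ) : sgC v * sgC v = 1 := by
  rcases Int.units_eq_one_or v with h | h <;> simp [sgC, h]

lemma conj_sgC (v : ℤˣ) : (starRingEnd ℂ) (sgC v) = sgC v := by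
  rcases Int.units_eq_one_or v with h | h <;> simp [sgC, h]

lemma sgC_one : sgC 1 = 1 := by simp [sgC]

lemma norm_prod_le {ι : Type*} (s : Finset ι) (f : ι → ℂ) (h : ∀ i ∈ s, ‖f i‖ ≤ 1) :
    ‖∏ i ∈ s, f i‖ ≤ 1 := by
  rw [norm_prod]
  exact Finset.prod_le_one (fun i _ => norm_nonneg _) h

lemma norm_prod_eq {ι : Type*} (s : Finset ι) (f : ι → ℂ) (h : ∀ i ∈ s, ‖f i‖ = 1) :
    ‖∏ i ∈ s, f i‖ = 1 := by
  rw [norm_prod]
  exact Finset.prod_eq_one h

end VcBAux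

open VcBAux

theorem norm_vc_le (c : ℕ) (u : ℕ → ℤˣ) {q : ℕ} (ψ : DirichletCharacter ℂ q) (N n : ℕ) :
    ‖vc c u ψ N n‖ ≤ 1 := by
  unfold vc
  rw [norm_mul, norm_sgC, one_mul]
  refine norm_prod_le _ _ fun p _ => ?_
  rw [norm_mul, norm_sgC, one_mul]
  exact DirichletCharacter.norm_le_one ψ _

theorem vc_mulC (c : ℕ) {u : ℕ → ℤˣ} (hu : MultS u) {q : ℕ} (ψ : DirichletCharacter ℂ q) (N : ℕ) :
    MulC (vc c u ψ N) := by
  refine ⟨?_, ?_, fun n => norm_vc_le c u ψ N n⟩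
  · unfold vc
    rw [hu.map_one]
    simp [sgC]
  · intro m n hm hn hco
    unfold vc
    rw [hu m n hm hn hco, sgC_mul, hco.primeFactors_mul, Finset.filter_union, Finset.prod_union]
    · ring
    · exact Finset.disjoint_filter_filter hco.disjoint_primeFactors

theorem vc_low {c : ℕ} {u : ℕ → ℤˣ} {q : ℕ} (ψ : DirichletCharacter ℂ q) {N p : ℕ} (hp : p.Prime)
    (h : p ^ c ≤ N) : vc c u ψ N p = sgC (u p) := by
  unfold vc
  rw [hp.primeFactors, Finset.filter_singleton, if_neg (not_lt.2 h)]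
  simp

theorem vc_top {c : ℕ} {u : ℕ → ℤˣ} {q : ℕ} (ψ : DirichletCharacter ℂ q) {N p : ℕ} (hp : p.Prime)
    (h : N < p ^ c) : vc c u ψ N p = ψ (p : ZMod q) := by
  unfold vc
  rw [hp.primeFactors, Finset.filter_singleton, if_pos h, Finset.prod_singleton, ← mul_assoc,
    sgC_sq, one_mul]

theorem norm_vc {c : ℕ} (u : ℕ → ℤˣ) {q : ℕ} (hq : 0 < q) (ψ : DirichletCharacter ℂ q) {N : ℕ}
    (hN : q ^ c ≤ N) (n : ℕ) : ‖vc c u ψ N n‖ = 1 := by
  unfold vc
  rw [norm_mul, norm_sgC, one_mul]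
  refine norm_prod_eq _ _ fun p hp => ?_
  rw [Finset.mem_filter] at hp
  have hpp : p.Prime := Nat.prime_of_mem_primeFactors hp.1
  have hpq : ¬ p ∣ q := by
    intro h
    have h1 : p ≤ q := Nat.le_of_dvd hq h
    have h2 : p ^ c ≤ q ^ c := Nat.pow_le_pow_left h1 c
    omega
  rw [norm_mul, norm_sgC, one_mul]
  have hu : IsUnit (p : ZMod q) := (ZMod.isUnit_prime_iff_not_dvd hpp).2 hpq
  obtain ⟨a, ha⟩ := hu
  haveI : NeZero q := ⟨hq.ne'⟩
  rw [← ha]
  exact DirichletCharacter.unit_norm_eq_one ψ a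

theorem norm_wc_le (c : ℕ) (u : ℕ → ℤˣ) {q : ℕ} (χ : DirichletCharacter ℂ q) (N n : ℕ) :
    ‖wc c u χ N n‖ ≤ 1 := by
  unfold wc
  refine norm_prod_le _ _ fun p _ => ?_
  rw [norm_mul, norm_sgC, one_mul, RCLike.norm_conj]
  exact DirichletCharacter.norm_le_one χ _

theorem sgC_conj_vc (c : ℕ) (u : ℕ → ℤˣ) {q : ℕ} (χ : DirichletCharacter ℂ q) (N n : ℕ) :
    sgC (u n) * (starRingEnd ℂ) (vc c u χ N n) = wc c u χ N n := by
  unfold vc wc
  rw [map_mul, conj_sgC, ← mul_assoc, sgC_sq, one_mul, map_prod]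
  refine Finset.prod_congr rfl fun p _ => ?_
  rw [map_mul, conj_sgC]

theorem gc_mulC {z : ℕ → ℂ} {D : Finset ℕ} (hD : ∀ p ∈ D, p.Prime) (hz : ∀ p ∈ D, ‖z p‖ ≤ 1) :
    MulC (gc z D) := by
  refine ⟨?_, ?_, ?_⟩
  · unfold gc
    rw [Finset.filter_false_of_mem, Finset.prod_empty]
    intro p hp h
    exact (hD p hp).one_lt.ne' (Nat.dvd_one.1 h)
  · intro m n hm hn hco
    unfold gc
    have h1 : D.filter (fun p => p ∣ m * n) = D.filter (fun p => p ∣ m) ∪ D.filter (fun p => p ∣ n) := by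
      ext p
      simp only [Finset.mem_filter, Finset.mem_union]
      constructor
      · rintro ⟨h1, h2⟩
        rcases (Nat.Prime.dvd_mul (hD p h1)).1 h2 with h3 | h3
        · exact Or.inl ⟨h1, h3⟩
        · exact Or.inr ⟨h1, h3⟩
      · rintro (⟨h1, h2⟩ | ⟨h1, h2⟩)
        · exact ⟨h1, h2.mul_right n⟩
        · exact ⟨h1, h2.mul_left m⟩
    rw [h1, Finset.prod_union]
    rw [Finset.disjoint_left]
    intro p hp1 hp2
    rw [Finset.mem_filter] at hp1 hp2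
    have h2 : p ∣ Nat.gcd m n := Nat.dvd_gcd hp1.2 hp2.2
    rw [hco.gcd_eq_one] at h2
    exact (hD p hp1.1).one_lt.ne' (Nat.dvd_one.1 h2)
  · intro n
    unfold gc
    exact norm_prod_le _ _ fun p hp => hz p (Finset.mem_filter.1 hp).1

theorem norm_gc {z : ℕ → ℂ} {D : Finset ℕ} (hz : ∀ p ∈ D, ‖z p‖ = 1) (n : ℕ) :
    ‖gc z D n‖ = 1 := by
  unfold gc
  exact norm_prod_eq _ _ fun p hp => hz p (Finset.mem_filter.1 hp).1

theorem gc_prime {z : ℕ → ℂ} {D : Finset ℕ} (hD : ∀ p ∈ D, p.Prime) {p : ℕ} (hp : p.Prime) :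
    gc z D p = if p ∈ D then z p else 1 := by
  unfold gc
  have h1 : D.filter (fun r => r ∣ p) = if p ∈ D then {p} else ∅ := by
    ext r
    rw [Finset.mem_filter]
    constructor
    · rintro ⟨h1, h2⟩
      have h3 : r = p := (Nat.prime_dvd_prime_iff_eq (hD r h1) hp).1 h2
      subst h3
      rw [if_pos h1]
      exact Finset.mem_singleton_self _
    · intro h
      split_ifs at h with h1
      · rw [Finset.mem_singleton] at h
        subst h
        exact ⟨h1, dvd_refl _⟩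
      · exact absurd h (Finset.notMem_empty _)
  rw [h1]
  split_ifs
  · exact Finset.prod_singleton _ _
  · exact Finset.prod_empty

theorem gc_th {z : ℕ → ℕ → ℂ} {S D : Finset ℕ} (hD : ∀ p ∈ D, ∀ h ∈ S, h < p) (n : ℕ) :
    ∏ h ∈ S, gc (z h) D (n + h) = ∏ p ∈ D, (1 + th z S n p) := by
  unfold gc
  simp only [Finset.prod_filter]
  rw [Finset.prod_comm]
  refine Finset.prod_congr rfl fun p hp => ?_
  unfold th
  by_cases h1 : ∃ h ∈ S, p ∣ n + h
  · obtain ⟨h0, hh0, hd⟩ := h1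
    have huniq : ∀ b ∈ S, b ≠ h0 → ¬ p ∣ n + b := by
      intro b hb hne hd'
      apply hne
      have e1 : n + b ≡ n + h0 [MOD p] :=
        ((Nat.modEq_zero_iff_dvd).2 hd').trans ((Nat.modEq_zero_iff_dvd).2 hd).symm
      have e2 : b ≡ h0 [MOD p] := Nat.ModEq.add_left_cancel' n e1
      exact Nat.ModEq.eq_of_lt_of_lt e2 (hD p hp b hb) (hD p hp h0 hh0)
    rw [Finset.prod_eq_single h0, Finset.sum_eq_single h0, if_pos hd, if_pos hd]
    · ring
    · intro b hb hne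
      rw [if_neg (huniq b hb hne)]
    · intro hn
      exact absurd hh0 hn
    · intro b hb hne
      rw [if_neg (huniq b hb hne)]
    · intro hn
      exact absurd hh0 hn
  · push Not at h1
    rw [Finset.prod_eq_one, Finset.sum_eq_zero, add_zero]
    · intro h hh
      rw [if_neg (h1 h hh)]
    · intro h hh
      rw [if_neg (h1 h hh)]

end Pool.Agent.Lib.P4a7640C
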