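import Mathlib
import Pool.Agent.Lib.P4a7640C.Base

/-!
# Powers of `vc`

Module P4a7640C.PowV (1 h).

`vc_pow`: no prime `p` with `N < p^c` divides `q` (else `p^c ≤ q^c ≤ N`), so for the `p` in the product `(p : ZMod q)` is a
unit and `(χ^a * χ⁻¹^b) p = χ p ^ a * conj (χ p) ^ b` (`MulChar.mul_apply`, `MulChar.pow_apply_coe` for units or
`MulChar.pow_apply'`, `MulChar.inv_apply_eq_inv'`, and `(χ p)⁻¹ = conj (χ p)` as `‖χ p‖ = 1`: `Complex.inv_def`, or
`MulChar.star_apply'`); also for `a = 0` or `b = 0` (`χ^0 = 1`, `1 p = 1` for a unit `p`). `sgC` of a power is the power, real,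
`(u p)^(a+b) * (u p)^(a+b)` is not needed: both sides are `sgC (u n)^(a+b) * ∏ p, sgC (u p)^(a+b) * χ p^a * conj (χ p)^b`.
-/

open Finset
open Pool.Agent.Lib.P4a7640

namespace Pool.Agent.Lib.P4a7640C

namespace PowVAux

theorem sgC_pow (x : ℤˣ) (k : ℕ) : sgC (x ^ k) = sgC x ^ k := by
  unfold sgC
  push_cast
  rfl

theorem conj_sgC (x : ℤˣ) : (starRingEnd ℂ) (sgC x) = sgC x := by
  unfold sgC
  exact map_intCast _ _

theorem conj_sgC_pow (x : ℤˣ) (a b : ℕ) : sgC x ^ a * (starRingEnd ℂ) (sgC x) ^ b =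
    sgC (x ^ (a + b)) := by
  rw [conj_sgC, sgC_pow, pow_add]

end PowVAux

open PowVAux

theorem multS_pow {u : ℕ → ℤˣ} (hu : MultS u) (k : ℕ) : MultS fun n => u n ^ k := by
  intro m n hm hn h
  show u (m * n) ^ k = u m ^ k * u n ^ k
  rw [hu m n hm hn h, mul_pow]

theorem pow_odd (u : ℕ → ℤˣ) {k : ℕ} (hk : Odd k) : (fun n => u n ^ k) = u := by
  funext n
  rcases Int.units_eq_one_or (u n) with h | h
  · rw [h, one_pow]
  · rw [h, hk.neg_one_pow]

theorem vc_pow {c : ℕ} (u : ℕ → ℤˣ) {q : ℕ} (hq : 0 < q) (χ : DirichletCharacter ℂ q) {N : ℕ}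
    (hN : q ^ c ≤ N) (a b n : ℕ) :
    vc c u χ N n ^ a * (starRingEnd ℂ) (vc c u χ N n) ^ b =
      vc c (fun n => u n ^ (a + b)) (χ ^ a * χ⁻¹ ^ b) N n := by
  unfold vc
  rw [map_mul, map_prod, mul_pow, mul_pow, ← Finset.prod_pow, ← Finset.prod_pow]
  have e : sgC (u n) ^ a * (∏ p ∈ n.primeFactors.filter (fun p => N < p ^ c),
        (sgC (u p) * χ (p : ZMod q)) ^ a) *
      ((starRingEnd ℂ) (sgC (u n)) ^ b * ∏ p ∈ n.primeFactors.filter (fun p => N < p ^ c),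
        (starRingEnd ℂ) (sgC (u p) * χ (p : ZMod q)) ^ b) =
      (sgC (u n) ^ a * (starRingEnd ℂ) (sgC (u n)) ^ b) *
      ∏ p ∈ n.primeFactors.filter (fun p => N < p ^ c),
        ((sgC (u p) * χ (p : ZMod q)) ^ a * (starRingEnd ℂ) (sgC (u p) * χ (p : ZMod q)) ^ b) := by
    rw [Finset.prod_mul_distrib]
    ring
  rw [e, conj_sgC_pow]
  congr 1
  refine Finset.prod_congr rfl fun p hp => ?_
  obtain ⟨hp1, hp2⟩ := Finset.mem_filter.1 hp
  have hpp : p.Prime := Nat.prime_of_mem_primeFactors hp1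
  have hcop : p.Coprime q := by
    rw [Nat.Prime.coprime_iff_not_dvd hpp]
    intro hd
    have h1 : p ≤ q := Nat.le_of_dvd hq hd
    have h2 : p ^ c ≤ q ^ c := Nat.pow_le_pow_left h1 c
    omega
  have hun : ((ZMod.unitOfCoprime p hcop : (ZMod q)ˣ) : ZMod q) = (p : ZMod q) :=
    ZMod.coe_unitOfCoprime p hcop
  set U : (ZMod q)ˣ := ZMod.unitOfCoprime p hcop with hU
  rw [← hun, map_mul, mul_pow, mul_pow]
  have h3 : (χ ^ a * χ⁻¹ ^ b) (U : ZMod q) = χ U ^ a * (starRingEnd ℂ) (χ U) ^ b := by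
    rw [MulChar.mul_apply, MulChar.pow_apply_coe, MulChar.pow_apply_coe,
      MulChar.inv_apply_eq_inv', Complex.inv_eq_conj (χ.unit_norm_eq_one U)]
  rw [h3, ← conj_sgC_pow]
  ring

end Pool.Agent.Lib.P4a7640C
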