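import Mathlib
import Pool.Agent.Lib.P4a7640C.Base
import Pool.Agent.Lib.P4a7640C.PowV
import Pool.Agent.Lib.P4a7640C.CorrC

/-!
# Correlation of a monomial

Module P4a7640C.MonoS (1 h). Imports are black boxes.

`mono_eq`: `∏ i, vc (n + t i) = ∏ h ∈ S, vc (n + h) ^ mu t h`, `S = image t ∪ image t'` (`Finset.prod_comp` or
`Finset.prod_fiberwise_of_maps_to`), the same for `t'`, and `vc_pow`.

`mono_small`: `corrC` with `S` as above (`S.card ≤ a + b ≤ K`), `u h = fun n => u n ^ (mu t h + mu t' h)` (`multS_pow`),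
`ψ h = χ ^ mu t h * χ⁻¹ ^ mu t' h`; for the `h` with odd exponent `u h = u` (`pow_odd`; `h ∈ S` as the exponent is not `0`) and
`Aperiodic u` gives the divergence. The eventual inequality `q^(2^c) ≤ N` for `mono_eq`.
-/

open Finset Filter Topology
open Pool.Agent.Lib.P4a7640

namespace Pool.Agent.Lib.P4a7640C

namespace MonoSAux

theorem prod_mu {a : ℕ} (t : Fin a → ℕ) (S : Finset ℕ) (hS : ∀ i, t i ∈ S) (f : ℕ → ℂ) :
    ∏ i, f (t i) = ∏ h ∈ S, f h ^ mu t h := by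
  rw [← Finset.prod_fiberwise_of_maps_to (s := univ) (t := S) (g := t) (fun i _ => hS i)]
  refine Finset.prod_congr rfl fun h _ => ?_
  rw [mu, ← Finset.prod_const]
  refine Finset.prod_congr rfl fun i hi => ?_
  rw [(Finset.mem_filter.1 hi).2]

theorem mem_of_mu {a : ℕ} {t : Fin a → ℕ} {h : ℕ} (hm : mu t h ≠ 0) : h ∈ univ.image t := by
  rw [mu, Ne, Finset.card_eq_zero, ← Ne, ← Finset.nonempty_iff_ne_empty] at hm
  obtain ⟨i, hi⟩ := hm
  exact Finset.mem_image.2 ⟨i, Finset.mem_univ i, (Finset.mem_filter.1 hi).2⟩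

end MonoSAux

open MonoSAux

theorem mono_eq {c : ℕ} (u : ℕ → ℤˣ) {q : ℕ} (hq : 0 < q) (χ : DirichletCharacter ℂ q) {N : ℕ}
    (hN : q ^ c ≤ N) {a b : ℕ} (t : Fin a → ℕ) (t' : Fin b → ℕ) (n : ℕ) :
    mono c u χ N t t' n = ∏ h ∈ univ.image t ∪ univ.image t',
      vc c (fun n => u n ^ (mu t h + mu t' h)) (χ ^ mu t h * χ⁻¹ ^ mu t' h) N (n + h) := by
  unfold mono
  have h1 := prod_mu t (univ.image t ∪ univ.image t')
    (fun i => Finset.mem_union_left _ (Finset.mem_image_of_mem t (Finset.mem_univ i)))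
    (fun h => vc c u χ N (n + h))
  have h2 := prod_mu t' (univ.image t ∪ univ.image t')
    (fun i => Finset.mem_union_right _ (Finset.mem_image_of_mem t' (Finset.mem_univ i)))
    (fun h => (starRingEnd ℂ) (vc c u χ N (n + h)))
  rw [h1, h2, ← Finset.prod_mul_distrib]
  exact Finset.prod_congr rfl fun h _ => vc_pow u hq χ hN (mu t h) (mu t' h) (n + h)

theorem mono_small : ∃ A : ℕ, 0 < A ∧ ∀ u : ℕ → ℤˣ, MultS u → Aperiodic u → ∀ q : ℕ, 0 < q →
    ∀ (χ : DirichletCharacter ℂ q) (a b : ℕ) (t : Fin a → ℕ) (t' : Fin b → ℕ),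
    (∃ h, Odd (mu t h + mu t' h)) → ∀ K b' c' : ℕ, 1 ≤ K → a + b ≤ K → A * K * 2 ^ b' ≤ 2 ^ c' →
      ∀ᶠ N : ℕ in atTop, ∀ x ≤ N, N ≤ x ^ (2 ^ b') →
        ‖∑ n ∈ Icc 1 x, mono (2 ^ c') u χ N t t' n‖ ≤ x * (1 / 4) ^ K := by
  obtain ⟨A, hA, hcorr⟩ := corrC
  refine ⟨A, hA, ?_⟩
  intro u hu hap q hq χ a b t t' hodd K b' c' hK habK hAK
  have hcard : (univ.image t ∪ univ.image t').card ≤ K := by
    refine (Finset.card_union_le _ _).trans (le_trans (add_le_add Finset.card_image_le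
      Finset.card_image_le) ?_)
    simpa using habK
  have hfar : ∃ h ∈ univ.image t ∪ univ.image t', Tendsto (fun N =>
      DD (fun n => u n ^ (mu t h + mu t' h)) (χ ^ mu t h * χ⁻¹ ^ mu t' h) 0 N) atTop atTop := by
    obtain ⟨h, hh⟩ := hodd
    refine ⟨h, ?_, ?_⟩
    · by_cases h0 : mu t h = 0
      · have h1 : mu t' h ≠ 0 := by
          intro h2
          rw [h0, h2] at hh
          exact absurd hh (by decide)
        exact Finset.mem_union_right _ (mem_of_mu h1)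
      · exact Finset.mem_union_left _ (mem_of_mu h0)
    · rw [pow_odd u hh]
      exact hap q hq _
  have hev := hcorr q hq (univ.image t ∪ univ.image t')
    (fun h n => u n ^ (mu t h + mu t' h)) (fun h => χ ^ mu t h * χ⁻¹ ^ mu t' h)
    (fun h _ => multS_pow hu _) hfar K b' c' hK hcard hAK
  filter_upwards [hev, eventually_ge_atTop (q ^ 2 ^ c')] with N h hN x hx hNx
  have h1 := h x hx hNx
  have h2 : ∑ n ∈ Icc 1 x, mono (2 ^ c') u χ N t t' n =
      ∑ n ∈ Icc 1 x, ∏ h ∈ univ.image t ∪ univ.image t',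
        vc (2 ^ c') (fun n => u n ^ (mu t h + mu t' h)) (χ ^ mu t h * χ⁻¹ ^ mu t' h) N (n + h) :=
    Finset.sum_congr rfl fun n _ => mono_eq u hq χ hN t t' n
  rw [h2]
  exact h1

end Pool.Agent.Lib.P4a7640C
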