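import Mathlib
import Pool.Agent.Lib.P4a7640C.Base
import Pool.Agent.Lib.P4a7640C.MonoS
import Pool.Agent.Lib.P4a7640C.AbelN
import Pool.Agent.Lib.P4a7640C.VcB

/-!
# Moments of the linear forms

Module P4a7640C.MomZ (1.5 h). Imports are black boxes.

`Z^s conj(Z)^t = ∑ τ ∈ piFinset (Fin s → J), ∑ τ' ∈ piFinset (Fin t → J), (∏ i, x (τ i)) (∏ i, x (τ' i)) mono (2^c) u χ N τ τ' n`
(`Finset.prod_univ_sum`; `conj` of the real `x j` is `x j`). Exchange with the sum over `n`; the coefficients have absolute value `≤ 1`.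
Pairs `(τ, τ')` with `mu τ h + mu τ' h` even for all `h ∈ J`: their number is `Tev J (s+t)` (bijection with `Fin (s+t) → J`,
`Fin.append τ τ'`, `mu (Fin.append τ τ') h = mu τ h + mu τ' h`; `Fin.addCases`, `Fin.appendEquiv`/`Fin.sumEquiv`), and
`‖mono‖ ≤ 1` (`norm_vc_le`) gives at most `∑ n, io * a / n ≤ HH N` each. The other pairs: `mono_small` (finitely many pairs:
`eventually_all_finset`; use the constant `A` of `mono_small`) and `abelN` with `ε = (1/4)^K`, `B = 2^b`: at most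
`2 (1/4)^K (HH N + 1) + 1 ≤ 4 (1/4)^K HH N` for `N` large (`HH N → ∞`: `HH N ≥ Real.log N`, `log_add_one_le_harmonic`), at most
`J.card^(s+t)` pairs. Uniform in `x` and `a`.
-/

open Finset Filter Topology
open Pool.Agent.Lib.P4a7640

namespace Pool.Agent.Lib.P4a7640C

namespace MomZAux

theorem log_le_HH (N : ℕ) : Real.log (N + 1) ≤ HH N := by
  have h1 := log_add_one_le_harmonic N
  have h2 : ((harmonic N : ℚ) : ℝ) = HH N := by
    rw [harmonic_eq_sum_Icc]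
    unfold HH
    push_cast
    refine Finset.sum_congr rfl fun i _ => ?_
    rw [one_div]
  rw [← h2]
  exact_mod_cast h1

theorem eventually_HH (C : ℝ) : ∀ᶠ N : ℕ in atTop, C ≤ HH N := by
  have h1 : Tendsto (fun N : ℕ => Real.log ((N : ℝ) + 1)) atTop atTop :=
    Real.tendsto_log_atTop.comp (tendsto_atTop_add_const_right _ _ tendsto_natCast_atTop_atTop)
  filter_upwards [h1.eventually_ge_atTop C] with N hN
  exact hN.trans (log_le_HH N)

theorem mu_append {s t : ℕ} (τ : Fin s → ℕ) (τ' : Fin t → ℕ) (h : ℕ) :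
    mu (Fin.append τ τ') h = mu τ h + mu τ' h := by
  unfold mu
  rw [Finset.card_filter, Finset.card_filter, Finset.card_filter, Fin.sum_univ_add]
  congr 1
  · refine Finset.sum_congr rfl fun i _ => ?_
    rw [Fin.append_left]
  · refine Finset.sum_congr rfl fun i _ => ?_
    rw [Fin.append_right]

/-- the pairs of tuples -/
def PP2 (J : Finset ℕ) (s t : ℕ) : Finset ((Fin s → ℕ) × (Fin t → ℕ)) :=
  (Fintype.piFinset fun _ : Fin s => J) ×ˢ (Fintype.piFinset fun _ : Fin t => J)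

theorem card_PP2 (J : Finset ℕ) (s t : ℕ) : (PP2 J s t).card = J.card ^ (s + t) := by
  unfold PP2
  rw [Finset.card_product, Fintype.card_piFinset, Fintype.card_piFinset, pow_add]
  simp

theorem card_even (J : Finset ℕ) (s t : ℕ) :
    ((PP2 J s t).filter fun p => ∀ h ∈ J, Even (mu p.1 h + mu p.2 h)).card ≤ Tev J (s + t) := by
  unfold Tev
  refine Finset.card_le_card_of_injOn (fun p => Fin.append p.1 p.2) ?_ ?_
  · intro p hp
    have hp' := Finset.mem_filter.1 (Finset.mem_coe.1 hp)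
    have hp1 := Finset.mem_product.1 hp'.1
    refine Finset.mem_coe.2 (Finset.mem_filter.2 ⟨?_, ?_⟩)
    · rw [Fintype.mem_piFinset]
      intro i
      refine Fin.addCases (fun j => ?_) (fun j => ?_) i
      · show Fin.append p.1 p.2 (Fin.castAdd t j) ∈ J
        rw [Fin.append_left]
        exact Fintype.mem_piFinset.1 hp1.1 j
      · show Fin.append p.1 p.2 (Fin.natAdd s j) ∈ J
        rw [Fin.append_right]
        exact Fintype.mem_piFinset.1 hp1.2 j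
    · intro h hh
      show Even (mu (Fin.append p.1 p.2) h)
      rw [mu_append]
      exact hp'.2 h hh
  · rintro ⟨a, b⟩ _ ⟨a', b'⟩ _ he
    have he' : Fin.append a b = Fin.append a' b' := he
    have h1 : a = a' := by
      funext j
      have := congrFun he' (Fin.castAdd t j)
      rwa [Fin.append_left, Fin.append_left] at this
    have h2 : b = b' := by
      funext j
      have := congrFun he' (Fin.natAdd s j)
      rwa [Fin.append_right, Fin.append_right] at this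
    rw [h1, h2]

theorem norm_mono_le (c : ℕ) (u : ℕ → ℤˣ) {q : ℕ} (χ : DirichletCharacter ℂ q) (N : ℕ) {a b : ℕ}
    (t : Fin a → ℕ) (t' : Fin b → ℕ) (n : ℕ) : ‖mono c u χ N t t' n‖ ≤ 1 := by
  unfold mono
  rw [norm_mul, norm_prod, norm_prod]
  have h1 : ∏ i, ‖vc c u χ N (n + t i)‖ ≤ 1 :=
    Finset.prod_le_one (fun _ _ => norm_nonneg _) (fun _ _ => norm_vc_le _ _ _ _ _)
  have h2 : ∏ i, ‖(starRingEnd ℂ) (vc c u χ N (n + t' i))‖ ≤ 1 :=
    Finset.prod_le_one (fun _ _ => norm_nonneg _)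
      (fun _ _ => by rw [Complex.norm_conj]; exact norm_vc_le _ _ _ _ _)
  have h3 : 0 ≤ ∏ i, ‖(starRingEnd ℂ) (vc c u χ N (n + t' i))‖ :=
    Finset.prod_nonneg fun _ _ => norm_nonneg _
  calc _ ≤ 1 * 1 := mul_le_mul h1 h2 h3 zero_le_one
    _ = 1 := one_mul 1

/-- the coefficient of a pair of tuples -/
def cf (x : ℕ → ℝ) {s t : ℕ} (p : (Fin s → ℕ) × (Fin t → ℕ)) : ℝ :=
  (∏ i, x (p.1 i)) * ∏ i, x (p.2 i)

theorem cf_le (x : ℕ → ℝ) (hx : ∀ j, |x j| ≤ 1) {s t : ℕ} (p : (Fin s → ℕ) × (Fin t → ℕ)) :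
    |cf x p| ≤ 1 := by
  unfold cf
  rw [abs_mul, Finset.abs_prod, Finset.abs_prod]
  have h1 : ∏ i, |x (p.1 i)| ≤ 1 :=
    Finset.prod_le_one (fun _ _ => abs_nonneg _) (fun _ _ => hx _)
  have h2 : ∏ i, |x (p.2 i)| ≤ 1 :=
    Finset.prod_le_one (fun _ _ => abs_nonneg _) (fun _ _ => hx _)
  have h3 : 0 ≤ ∏ i, |x (p.2 i)| := Finset.prod_nonneg fun _ _ => abs_nonneg _
  calc _ ≤ 1 * 1 := mul_le_mul h1 h2 h3 zero_le_one
    _ = 1 := one_mul 1

theorem expand (c : ℕ) (u : ℕ → ℤˣ) {q : ℕ} (χ : DirichletCharacter ℂ q) (N : ℕ)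
    (J : Finset ℕ) (x : ℕ → ℝ) (s t n : ℕ) :
    ZZ c u χ N J x n ^ s * (starRingEnd ℂ) (ZZ c u χ N J x n) ^ t =
      ∑ p ∈ PP2 J s t, (cf x p : ℂ) * mono c u χ N p.1 p.2 n := by
  have h1 : ZZ c u χ N J x n ^ s = ∑ τ ∈ Fintype.piFinset (fun _ : Fin s => J),
      ∏ i, ((x (τ i) : ℂ) * vc c u χ N (n + τ i)) := by
    unfold ZZ
    rw [Finset.sum_pow']
  have h2 : (starRingEnd ℂ) (ZZ c u χ N J x n) ^ t =
      ∑ τ ∈ Fintype.piFinset (fun _ : Fin t => J),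
      ∏ i, ((x (τ i) : ℂ) * (starRingEnd ℂ) (vc c u χ N (n + τ i))) := by
    unfold ZZ
    rw [map_sum]
    have h3 : ∀ j ∈ J, (starRingEnd ℂ) ((x j : ℂ) * vc c u χ N (n + j)) =
        (x j : ℂ) * (starRingEnd ℂ) (vc c u χ N (n + j)) := by
      intro j _
      rw [map_mul, Complex.conj_ofReal]
    rw [Finset.sum_congr rfl h3, Finset.sum_pow']
  rw [h1, h2, Finset.sum_mul_sum]
  unfold PP2
  rw [Finset.sum_product]
  refine Finset.sum_congr rfl fun τ _ => Finset.sum_congr rfl fun τ' _ => ?_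
  rw [Finset.prod_mul_distrib, Finset.prod_mul_distrib]
  unfold cf mono
  push_cast
  ring

end MomZAux

open MomZAux in
theorem mom : ∃ A : ℕ, 0 < A ∧ ∀ u : ℕ → ℤˣ, MultS u → Aperiodic u → ∀ q : ℕ, 0 < q →
    ∀ (χ : DirichletCharacter ℂ q) (J : Finset ℕ) (s t K b c : ℕ), 1 ≤ K → s + t ≤ K →
    A * K * 2 ^ b ≤ 2 ^ c → ∀ᶠ N : ℕ in atTop, ∀ x : ℕ → ℝ, (∀ j, |x j| ≤ 1) →
      ∀ a : ℕ → ℝ, (∀ n, 0 ≤ a n ∧ a n ≤ 1) → (∀ n, a (n + 1) ≤ a n) →
      ‖∑ n ∈ Icc 1 N, ((io (2 ^ b) N n * a n : ℝ) : ℂ) *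
        (ZZ (2 ^ c) u χ N J x n ^ s * (starRingEnd ℂ) (ZZ (2 ^ c) u χ N J x n) ^ t) / n‖ ≤
      ((Tev J (s + t) : ℝ) + 4 * (J.card : ℝ) ^ (s + t) * (1 / 4) ^ K) * HH N := by
  classical
  obtain ⟨A, hA, hms⟩ := mono_small
  refine ⟨A, hA, ?_⟩
  intro u hu hap q hq χ J s t K b c hK hst hAK
  have hall : ∀ᶠ N : ℕ in atTop, ∀ p ∈ PP2 J s t, (¬ ∀ h ∈ J, Even (mu p.1 h + mu p.2 h)) →
      ∀ x ≤ N, N ≤ x ^ (2 ^ b) →
        ‖∑ n ∈ Icc 1 x, mono (2 ^ c) u χ N p.1 p.2 n‖ ≤ x * (1 / 4) ^ K := by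
    rw [eventually_all_finset]
    intro p _
    by_cases hp : ∀ h ∈ J, Even (mu p.1 h + mu p.2 h)
    · exact Eventually.of_forall fun N h => absurd hp h
    · have hodd : ∃ h, Odd (mu p.1 h + mu p.2 h) := by
        push Not at hp
        obtain ⟨h, _, hh⟩ := hp
        exact ⟨h, Nat.not_even_iff_odd.1 hh⟩
      filter_upwards [hms u hu hap q hq χ s t p.1 p.2 hodd K b c hK hst hAK] with N hN _
      exact hN
  have hε : (0:ℝ) < (1 / 4) ^ K := by positivity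
  filter_upwards [hall, eventually_HH (1 + 1 / (2 * (1 / 4) ^ K)), eventually_ge_atTop 1] with
    N hN hH hN1 x hx a ha hanti
  set W : ℕ → ℂ := fun n => ((io (2 ^ b) N n * a n : ℝ) : ℂ) with hW
  have hWn : ∀ n, ‖W n‖ ≤ 1 := by
    intro n
    show ‖((io (2 ^ b) N n * a n : ℝ) : ℂ)‖ ≤ 1
    rw [Complex.norm_real, Real.norm_eq_abs]
    unfold io
    split_ifs
    · rw [one_mul, abs_of_nonneg (ha n).1]
      exact (ha n).2
    · rw [zero_mul, abs_zero]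
      exact zero_le_one
  have e1 : ∑ n ∈ Icc 1 N, W n *
        (ZZ (2 ^ c) u χ N J x n ^ s * (starRingEnd ℂ) (ZZ (2 ^ c) u χ N J x n) ^ t) / n =
      ∑ p ∈ PP2 J s t, (cf x p : ℂ) * ∑ n ∈ Icc 1 N, W n * mono (2 ^ c) u χ N p.1 p.2 n / n := by
    have e2 : ∀ n ∈ Icc 1 N, W n *
        (ZZ (2 ^ c) u χ N J x n ^ s * (starRingEnd ℂ) (ZZ (2 ^ c) u χ N J x n) ^ t) / n =
        ∑ p ∈ PP2 J s t, (cf x p : ℂ) * (W n * mono (2 ^ c) u χ N p.1 p.2 n / n) := by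
      intro n _
      rw [expand, Finset.mul_sum, Finset.sum_div]
      refine Finset.sum_congr rfl fun p _ => ?_
      ring
    rw [Finset.sum_congr rfl e2, Finset.sum_comm]
    refine Finset.sum_congr rfl fun p _ => ?_
    rw [Finset.mul_sum]
  have hHH0 : 0 ≤ HH N := by
    unfold HH
    exact Finset.sum_nonneg fun n _ => by positivity
  have b1 : ∀ p : (Fin s → ℕ) × (Fin t → ℕ),
      ‖∑ n ∈ Icc 1 N, W n * mono (2 ^ c) u χ N p.1 p.2 n / n‖ ≤ HH N := by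
    intro p
    refine (norm_sum_le _ _).trans ?_
    unfold HH
    refine Finset.sum_le_sum fun n hn => ?_
    rw [norm_div, norm_mul, Complex.norm_natCast]
    refine div_le_div_of_nonneg_right ?_ (Nat.cast_nonneg n)
    calc ‖W n‖ * ‖mono (2 ^ c) u χ N p.1 p.2 n‖ ≤ 1 * 1 :=
          mul_le_mul (hWn n) (norm_mono_le _ _ _ _ _ _ _) (norm_nonneg _) zero_le_one
      _ = 1 := one_mul 1
  have b2 : ∀ p ∈ PP2 J s t, (¬ ∀ h ∈ J, Even (mu p.1 h + mu p.2 h)) →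
      ‖∑ n ∈ Icc 1 N, W n * mono (2 ^ c) u χ N p.1 p.2 n / n‖ ≤ 4 * (1 / 4) ^ K * HH N := by
    intro p hp hp2
    have h1 := abelN (B := 2 ^ b) hN1 Nat.one_le_two_pow
      (fun n => norm_mono_le (2 ^ c) u χ N p.1 p.2 n) hε.le
      (fun x hx1 hx2 => hN p hp hp2 x hx1 hx2) ha hanti
    refine h1.trans ?_
    have h2 : (1 + 1 / (2 * (1 / 4) ^ K)) * (2 * (1 / 4 : ℝ) ^ K) ≤
        HH N * (2 * (1 / 4 : ℝ) ^ K) := mul_le_mul_of_nonneg_right hH (by positivity)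
    have h3 : (1 + 1 / (2 * (1 / 4) ^ K)) * (2 * (1 / 4 : ℝ) ^ K) = 2 * (1 / 4 : ℝ) ^ K + 1 := by
      field_simp
    rw [h3] at h2
    linarith
  show ‖∑ n ∈ Icc 1 N, W n *
        (ZZ (2 ^ c) u χ N J x n ^ s * (starRingEnd ℂ) (ZZ (2 ^ c) u χ N J x n) ^ t) / n‖ ≤ _
  rw [e1]
  have b3 : ∀ p ∈ PP2 J s t,
      ‖(cf x p : ℂ) * ∑ n ∈ Icc 1 N, W n * mono (2 ^ c) u χ N p.1 p.2 n / n‖ ≤
      (if ∀ h ∈ J, Even (mu p.1 h + mu p.2 h) then HH N else 0) + 4 * (1 / 4) ^ K * HH N := by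
    intro p hp
    rw [norm_mul, Complex.norm_real, Real.norm_eq_abs]
    have h1 := cf_le x hx p
    have h2 : |cf x p| * ‖∑ n ∈ Icc 1 N, W n * mono (2 ^ c) u χ N p.1 p.2 n / n‖ ≤
        1 * ‖∑ n ∈ Icc 1 N, W n * mono (2 ^ c) u χ N p.1 p.2 n / n‖ :=
      mul_le_mul_of_nonneg_right h1 (norm_nonneg _)
    rw [one_mul] at h2
    refine h2.trans ?_
    have h3 : 0 ≤ 4 * (1 / 4 : ℝ) ^ K * HH N := by positivity
    split_ifs with he
    · have := b1 p
      linarith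
    · have := b2 p hp he
      linarith
  refine (norm_sum_le _ _).trans ((Finset.sum_le_sum b3).trans ?_)
  rw [Finset.sum_add_distrib, ← Finset.sum_filter, Finset.sum_const, Finset.sum_const, card_PP2,
    nsmul_eq_mul, nsmul_eq_mul]
  have h4 : ((((PP2 J s t).filter fun p => ∀ h ∈ J, Even (mu p.1 h + mu p.2 h)).card : ℕ) : ℝ) ≤
      (Tev J (s + t) : ℝ) := by exact_mod_cast card_even J s t
  have h5 := mul_le_mul_of_nonneg_right h4 hHH0
  push_cast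
  nlinarith

end Pool.Agent.Lib.P4a7640C
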