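import Mathlib
import Pool.Agent.Lib.P4a7640C.Base
import Pool.Agent.Lib.P4a7640C.VcB
import Pool.Agent.Lib.P4a7640E.EntA

/-!
# Decomposition according to the patterns

Module P4a7640C.PatD (1 h). Imports are black boxes.

`bad_tendsto`: `BadP f l J n` holds iff the pattern `fun j : J => f (n + j)` is one of the finitely many patterns not in `patJ`; so
`pr N (BadP ..) = ∑ x ∉ patJ, pr N (pattern = x)` (`Finset.sum_fiberwise`; or `≤`), each term tends to `0` along `l` by the definition
of `patJ`. (`pr N P = (∑ of 1/n over the n ≤ N with P n) / ∑ 1/n`.)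

`pt_bound`: if `n` is not bad for `f` nor `g`, let `x`, `y` be the patterns of `f`, `g` at `n`: the left side is
`‖∑ j ∈ J, ε_j conj (v (n+j))‖ = ‖ZZ .. (xt x y) n‖` (`ε_j` real: conjugate), one of the terms of the (nonnegative) double sum.
Otherwise the left side is at most `J.card` (`norm_vc_le`), and the sums are `≥ 0`.
-/

open Finset Filter Topology
open Pool.Agent.Lib.P4a7640 Pool.Agent.Lib.P4a7640E

namespace Pool.Agent.Lib.P4a7640C

/-- the pattern of `f` at `n` is not in `patJ f l J` -/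
def BadP (f : ℕ → ℤˣ) (l : Filter ℕ) (J : Finset ℕ) (n : ℕ) : Prop :=
  (fun j : J => f (n + j)) ∉ patJ f l J

/-- the product of two patterns, extended by `0` -/
def xt {J : Finset ℕ} (x y : J → ℤˣ) (j : ℕ) : ℝ :=
  if h : j ∈ J then sg (x ⟨j, h⟩) * sg (y ⟨j, h⟩) else 0

namespace PatDAux

theorem abs_sg' (u : ℤˣ) : |sg u| = 1 := by
  rcases Int.units_eq_one_or u with h | h
  · rw [h]; simp [sg]
  · rw [h]; simp [sg]

theorem norm_sgC (u : ℤˣ) : ‖sgC u‖ = 1 := by
  rcases Int.units_eq_one_or u with h | h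
  · rw [h]; simp [sgC]
  · rw [h]; simp [sgC]

theorem conj_sgC (u : ℤˣ) : (starRingEnd ℂ) (sgC u) = sgC u := by
  unfold sgC
  exact map_intCast (starRingEnd ℂ) _

theorem sg_sgC (u : ℤˣ) : ((sg u : ℝ) : ℂ) = sgC u := by
  unfold sg sgC
  push_cast
  rfl

/-- the pattern of `f` at `n` -/
def pat (f : ℕ → ℤˣ) (J : Finset ℕ) (n : ℕ) : J → ℤˣ := fun j => f (n + j)

end PatDAux

open PatDAux

theorem abs_xt_le {J : Finset ℕ} (x y : J → ℤˣ) (j : ℕ) : |xt x y j| ≤ 1 := by
  unfold xt
  by_cases h : j ∈ J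
  · rw [dif_pos h, abs_mul, abs_sg', abs_sg', one_mul]
  · rw [dif_neg h, abs_zero]
    exact zero_le_one

theorem bad_tendsto (f : ℕ → ℤˣ) (l : Filter ℕ) (J : Finset ℕ) :
    Tendsto (fun N => pr N fun n => BadP f l J n) l (𝓝 0) := by
  have h1 : ∀ N, pr N (fun n => BadP f l J n) =
      ∑ x : J → ℤˣ, pr N (fun n => BadP f l J n ∧ pat f J n = x) := fun N =>
    pr_fiber N (fun n => BadP f l J n) (pat f J)
  simp only [h1]
  rw [show (0 : ℝ) = ∑ _x : J → ℤˣ, (0 : ℝ) by simp]
  refine tendsto_finsetSum _ fun x _ => ?_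
  by_cases hx : x ∈ patJ f l J
  · have h2 : ∀ N, pr N (fun n => BadP f l J n ∧ pat f J n = x) = 0 := by
      intro N
      have h3 : pr N (fun n => BadP f l J n ∧ pat f J n = x) = pr N (fun _ => False) := by
        refine pr_congr fun n _ _ => ⟨fun h => ?_, fun h => h.elim⟩
        apply h.1
        have h4 : (fun j : J => f (n + j)) = x := h.2
        rw [h4]
        exact hx
      rw [h3]
      unfold pr
      simp
    simp only [h2]
    exact tendsto_const_nhds
  · have h2 : Tendsto (fun N => pr N fun n => ∀ j : J, f (n + j) = x j) l (𝓝 0) := by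
      by_contra hno
      apply hx
      simp only [patJ, Finset.mem_filter, Finset.mem_univ, true_and]
      exact hno
    refine squeeze_zero (fun N => pr_nonneg N _) (fun N => pr_mono fun n h => ?_) h2
    intro j
    exact congrFun h.2 j

open Classical in
theorem pt_bound (f g : ℕ → ℤˣ) (l : Filter ℕ) (J : Finset ℕ) (c : ℕ) (u : ℕ → ℤˣ) {q : ℕ}
    (χ : DirichletCharacter ℂ q) (N r n : ℕ) :
    ‖∑ j ∈ J, sgC (f (n + j)) * sgC (g (n + j)) * (starRingEnd ℂ) (vc c u χ N (n + j))‖ ^ r ≤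
      ∑ x ∈ patJ f l J, ∑ y ∈ patJ g l J, ‖ZZ c u χ N J (xt x y) n‖ ^ r +
      ((if BadP f l J n then 1 else 0) + (if BadP g l J n then 1 else 0)) * (J.card : ℝ) ^ r := by
  have hsum : 0 ≤ ∑ x ∈ patJ f l J, ∑ y ∈ patJ g l J, ‖ZZ c u χ N J (xt x y) n‖ ^ r :=
    Finset.sum_nonneg fun x _ => Finset.sum_nonneg fun y _ => by positivity
  have hJ : (0 : ℝ) ≤ (J.card : ℝ) ^ r := by positivity
  by_cases hf : BadP f l J n ∨ BadP g l J n
  · have h1 : ‖∑ j ∈ J, sgC (f (n + j)) * sgC (g (n + j)) *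
        (starRingEnd ℂ) (vc c u χ N (n + j))‖ ≤ J.card := by
      refine (norm_sum_le _ _).trans ?_
      have h2 : ∀ j ∈ J, ‖sgC (f (n + j)) * sgC (g (n + j)) *
          (starRingEnd ℂ) (vc c u χ N (n + j))‖ ≤ 1 := by
        intro j _
        rw [norm_mul, norm_mul, norm_sgC, norm_sgC, one_mul, one_mul, RCLike.norm_conj]
        exact norm_vc_le c u χ N (n + j)
      refine (Finset.sum_le_sum h2).trans ?_
      rw [Finset.sum_const, nsmul_eq_mul, mul_one]
    have h3 : ‖∑ j ∈ J, sgC (f (n + j)) * sgC (g (n + j)) *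
        (starRingEnd ℂ) (vc c u χ N (n + j))‖ ^ r ≤ (J.card : ℝ) ^ r :=
      pow_le_pow_left₀ (norm_nonneg _) h1 r
    have h4 : (1 : ℝ) ≤ (if BadP f l J n then 1 else 0) + (if BadP g l J n then 1 else 0) := by
      rcases hf with hf | hf
      · rw [if_pos hf]
        split_ifs <;> norm_num
      · rw [if_pos hf]
        split_ifs <;> norm_num
    calc ‖∑ j ∈ J, sgC (f (n + j)) * sgC (g (n + j)) *
        (starRingEnd ℂ) (vc c u χ N (n + j))‖ ^ r ≤ 1 * (J.card : ℝ) ^ r := by
          rw [one_mul]; exact h3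
      _ ≤ ((if BadP f l J n then 1 else 0) + (if BadP g l J n then 1 else 0)) *
          (J.card : ℝ) ^ r := mul_le_mul_of_nonneg_right h4 hJ
      _ ≤ _ := le_add_of_nonneg_left hsum
  · push Not at hf
    obtain ⟨hf, hg⟩ := hf
    have hf' : pat f J n ∈ patJ f l J := by
      by_contra h
      exact hf h
    have hg' : pat g J n ∈ patJ g l J := by
      by_contra h
      exact hg h
    have h1 : ‖∑ j ∈ J, sgC (f (n + j)) * sgC (g (n + j)) *
        (starRingEnd ℂ) (vc c u χ N (n + j))‖ = ‖ZZ c u χ N J (xt (pat f J n) (pat g J n)) n‖ := by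
      rw [← RCLike.norm_conj]
      congr 1
      rw [map_sum]
      unfold ZZ
      refine Finset.sum_congr rfl fun j hj => ?_
      rw [map_mul, map_mul, conj_sgC, conj_sgC, Complex.conj_conj]
      congr 1
      unfold xt
      rw [dif_pos hj]
      push_cast
      rw [sg_sgC, sg_sgC]
      rfl
    rw [h1]
    refine le_trans ?_ (le_add_of_nonneg_right ?_)
    · refine le_trans ?_ (Finset.single_le_sum (f := fun x => ∑ y ∈ patJ g l J,
        ‖ZZ c u χ N J (xt x y) n‖ ^ r) (fun x _ => Finset.sum_nonneg fun y _ => by positivity) hf')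
      exact Finset.single_le_sum (f := fun y => ‖ZZ c u χ N J (xt (pat f J n) y) n‖ ^ r)
        (fun y _ => by positivity) hg'
    · refine mul_nonneg ?_ hJ
      split_ifs <;> norm_num

end Pool.Agent.Lib.P4a7640C
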