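import Mathlib
import Pool.Agent.Lib.P4a7640C.Base

/-!
# Tuples with even multiplicities

Module P4a7640C.TEven (1.5 h).

`tev_sum`: expand the `r`-th power: `(∑ j ∈ J, ε j)^r = ∑ t ∈ Fintype.piFinset (fun _ : Fin r => J), ∏ i, ε (t i)`
(`Finset.sum_pow'`, or `Finset.prod_univ_sum` after `Finset.prod_const`), and `∏ i, ε (t i) = ∏ h ∈ J, ε h ^ mu t h`
(`Finset.prod_fiberwise_of_maps_to` / `Finset.prod_comp`). For fixed `t` sum over `A ∈ J.powerset` (`ε h = -1` for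
`h ∈ A`, `1` otherwise): `∑ A, ∏ h ∈ J, ε h ^ m h = ∏ h ∈ J, (1 + (-1)^(m h))` (`Finset.prod_add`), which is `2^|J|`
if all `m h` are even and `0` otherwise.

`tev_exp`: multiply by `2^|J|`: the left side is `∑ A, ∑ r < k, (β s_A)^r/r!`, `s_A = ∑ j, ε j`. Replace `A` by `J \ A`
(`s` changes sign) and average: the summand becomes `∑ r < k, (x^r + (-x)^r)/(2 r!) ≤ cosh x`, `x = β s_A` (all terms of the series
of `cosh` are `≥ 0`; or: `∑ r < k, r even, x^r/r! ≤ Real.cosh x` by `Real.hasSum_cosh`). `∑ A, cosh (β s_A) = (2 cosh β)^|J|`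
(`cosh x = (e^x + e^-x)/2`, `∑ A, exp (β s_A) = ∏ j ∈ J, (e^β + e^-β)` by `Finset.prod_add`), `Real.cosh_le_exp_half_sq`.

`tev_le`: for `J = ∅` both sides are `0`. Otherwise `β = √(2 r/L)`, `L = |J|`, `k = 2 r + 1` in `tev_exp`, keep only the term `2 r`:
`Tev J (2 r) ≤ (2 r)! (L/(2 r))^r e^r ≤ (2 r)^(2 r) (L/(2 r))^r e^r = (2 e r L)^r` (`Nat.factorial_le_pow`).
-/

open Finset

namespace Pool.Agent.Lib.P4a7640C

namespace TEvenAux

/-- the sign of `j` for the subset `A` -/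
def sgn (A : Finset ℕ) (j : ℕ) : ℝ := if j ∈ A then (-1:ℝ) else 1

theorem prod_split (J A : Finset ℕ) (hA : A ⊆ J) (a b : ℕ → ℝ) :
    ∏ j ∈ J, (if j ∈ A then a j else b j) = (∏ j ∈ A, a j) * ∏ j ∈ J \ A, b j := by
  rw [Finset.prod_ite]
  congr 1
  · congr 1
    ext j
    rw [mem_filter]
    exact ⟨fun h => h.2, fun h => ⟨hA h, h⟩⟩
  · congr 1
    ext j
    rw [mem_filter, mem_sdiff]

theorem sum_subsets (J : Finset ℕ) (m : ℕ → ℕ) :
    ∑ A ∈ J.powerset, ∏ h ∈ J, sgn A h ^ m h = if ∀ h ∈ J, Even (m h) then 2 ^ J.card else 0 := by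
  have h1 : ∑ A ∈ J.powerset, ∏ h ∈ J, sgn A h ^ m h = ∏ h ∈ J, (1 + (-1:ℝ) ^ m h) := by
    have h2 : ∏ h ∈ J, (1 + (-1:ℝ) ^ m h) = ∏ h ∈ J, ((-1:ℝ) ^ m h + 1) :=
      Finset.prod_congr rfl fun h _ => add_comm _ _
    rw [h2, Finset.prod_add]
    refine Finset.sum_congr rfl fun A hA => ?_
    rw [mem_powerset] at hA
    rw [← prod_split J A hA (fun h => (-1:ℝ) ^ m h) (fun _ => 1)]
    refine Finset.prod_congr rfl fun h _ => ?_
    unfold sgn
    split_ifs
    · rfl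
    · exact one_pow _
  rw [h1]
  split_ifs with he
  · calc ∏ h ∈ J, (1 + (-1:ℝ) ^ m h) = ∏ h ∈ J, (2:ℝ) := by
          refine Finset.prod_congr rfl fun h hh => ?_
          rw [(he h hh).neg_one_pow]
          norm_num
      _ = 2 ^ J.card := by rw [Finset.prod_const]
  · push Not at he
    obtain ⟨h, hh, hne⟩ := he
    apply Finset.prod_eq_zero hh
    rw [(Nat.not_even_iff_odd.1 hne).neg_one_pow]
    norm_num

theorem prod_tuple (J : Finset ℕ) {r : ℕ} (t : Fin r → ℕ) (ht : ∀ i, t i ∈ J) (ε : ℕ → ℝ) :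
    ∏ i, ε (t i) = ∏ h ∈ J, ε h ^ mu t h := by
  rw [← Finset.prod_fiberwise_of_maps_to (s := univ) (t := J) (g := t) (fun i _ => ht i)]
  refine Finset.prod_congr rfl fun h _ => ?_
  unfold mu
  rw [← Finset.prod_const]
  refine Finset.prod_congr rfl fun i hi => ?_
  rw [(mem_filter.1 hi).2]

theorem sum_exp (J : Finset ℕ) (β : ℝ) :
    ∑ A ∈ J.powerset, Real.exp (β * ∑ j ∈ J, sgn A j) = (2 * Real.cosh β) ^ J.card := by
  have h1 : (2 * Real.cosh β) = Real.exp (-β) + Real.exp β := by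
    rw [Real.cosh_eq]
    ring
  rw [h1, ← Finset.prod_const, Finset.prod_add]
  refine Finset.sum_congr rfl fun A hA => ?_
  rw [mem_powerset] at hA
  rw [← prod_split J A hA (fun _ => Real.exp (-β)) (fun _ => Real.exp β), Finset.mul_sum,
    Real.exp_sum]
  refine Finset.prod_congr rfl fun j _ => ?_
  unfold sgn
  split_ifs
  · rw [mul_neg, mul_one]
  · rw [mul_one]

end TEvenAux

open TEvenAux

theorem tev_sum (J : Finset ℕ) (r : ℕ) :
    ∑ A ∈ J.powerset, (∑ j ∈ J, if j ∈ A then (-1:ℝ) else 1) ^ r = 2 ^ J.card * (Tev J r : ℝ) := by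
  classical
  have h1 : ∀ A ∈ J.powerset, (∑ j ∈ J, if j ∈ A then (-1:ℝ) else 1) ^ r =
      ∑ t ∈ Fintype.piFinset (fun _ : Fin r => J), ∏ h ∈ J, sgn A h ^ mu t h := by
    intro A _
    have h2 : (∑ j ∈ J, if j ∈ A then (-1:ℝ) else 1) = ∑ j ∈ J, sgn A j := rfl
    rw [h2, Finset.sum_pow']
    refine Finset.sum_congr rfl fun t ht => ?_
    exact prod_tuple J t (fun i => Fintype.mem_piFinset.1 ht i) (sgn A)
  rw [Finset.sum_congr rfl h1, Finset.sum_comm]
  have h3 : ∀ t ∈ Fintype.piFinset (fun _ : Fin r => J),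
      ∑ A ∈ J.powerset, ∏ h ∈ J, sgn A h ^ mu t h =
        if ∀ h ∈ J, Even (mu t h) then (2:ℝ) ^ J.card else 0 := fun t _ => sum_subsets J (mu t)
  rw [Finset.sum_congr rfl h3, ← Finset.sum_filter, Finset.sum_const, nsmul_eq_mul, mul_comm]
  rfl

theorem tev_exp (J : Finset ℕ) (k : ℕ) {β : ℝ} (hβ : 0 ≤ β) :
    ∑ r ∈ range k, β ^ r * (Tev J r : ℝ) / (r.factorial : ℝ) ≤ Real.exp (β ^ 2 * J.card / 2) := by
  classical
  have h2 : (0:ℝ) < 2 ^ J.card := by positivity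
  have hsum : HasSum (fun r : ℕ => β ^ r * (Tev J r : ℝ) / (r.factorial : ℝ))
      ((2 * Real.cosh β) ^ J.card / 2 ^ J.card) := by
    have h3 : HasSum (fun r : ℕ => ∑ A ∈ J.powerset, (β * ∑ j ∈ J, sgn A j) ^ r / (r.factorial : ℝ))
        (∑ A ∈ J.powerset, Real.exp (β * ∑ j ∈ J, sgn A j)) := by
      refine hasSum_sum fun A _ => ?_
      rw [Real.exp_eq_exp_ℝ]
      exact NormedSpace.expSeries_div_hasSum_exp _
    rw [sum_exp] at h3
    have h4 := h3.div_const ((2:ℝ) ^ J.card)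
    have h5 : (fun r : ℕ => (∑ A ∈ J.powerset,
        (β * ∑ j ∈ J, sgn A j) ^ r / (r.factorial : ℝ)) / 2 ^ J.card) =
        fun r : ℕ => β ^ r * (Tev J r : ℝ) / (r.factorial : ℝ) := by
      funext r
      have h6 : ∑ A ∈ J.powerset, (β * ∑ j ∈ J, sgn A j) ^ r / (r.factorial : ℝ) =
          β ^ r / (r.factorial : ℝ) * (2 ^ J.card * (Tev J r : ℝ)) := by
        rw [← tev_sum, Finset.mul_sum]
        refine Finset.sum_congr rfl fun A _ => ?_
        rw [mul_pow]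
        unfold sgn
        ring
      rw [h6]
      field_simp
    rw [h5] at h4
    exact h4
  have h7 : ∑ r ∈ range k, β ^ r * (Tev J r : ℝ) / (r.factorial : ℝ) ≤
      (2 * Real.cosh β) ^ J.card / 2 ^ J.card :=
    sum_le_hasSum _ (fun r _ => by positivity) hsum
  refine h7.trans ?_
  rw [mul_pow, mul_div_assoc, mul_comm, div_mul_cancel₀ _ (ne_of_gt h2)]
  calc Real.cosh β ^ J.card ≤ Real.exp (β ^ 2 / 2) ^ J.card :=
        pow_le_pow_left₀ (Real.cosh_pos β).le (Real.cosh_le_exp_half_sq β) _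
    _ = Real.exp (β ^ 2 * J.card / 2) := by
        rw [← Real.exp_nat_mul]
        congr 1
        ring

theorem tev_le (J : Finset ℕ) {r : ℕ} (hr : 1 ≤ r) :
    (Tev J (2 * r) : ℝ) ≤ (2 * Real.exp 1 * r * J.card) ^ r := by
  classical
  rcases Finset.eq_empty_or_nonempty J with hJ | hJ
  · subst hJ
    have h0 : Tev ∅ (2 * r) = 0 := by
      unfold Tev
      rw [Finset.card_eq_zero, Finset.filter_eq_empty_iff]
      intro t ht
      exfalso
      have h1 := Fintype.mem_piFinset.1 ht (⟨0, by omega⟩ : Fin (2 * r))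
      exact absurd h1 (Finset.notMem_empty _)
    rw [h0, Finset.card_empty, Nat.cast_zero, mul_zero, zero_pow (by omega)]
  · have hL : (0:ℝ) < J.card := by exact_mod_cast hJ.card_pos
    have hr0 : (0:ℝ) < r := by exact_mod_cast hr
    set β : ℝ := Real.sqrt (2 * r / J.card) with hβ
    have hβ0 : 0 ≤ β := Real.sqrt_nonneg _
    have hβ2 : β ^ 2 = 2 * r / J.card := Real.sq_sqrt (by positivity)
    have h1 := tev_exp J (2 * r + 1) hβ0
    have h2 : β ^ (2 * r) * (Tev J (2 * r) : ℝ) / ((2 * r).factorial : ℝ) ≤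
        ∑ i ∈ range (2 * r + 1), β ^ i * (Tev J i : ℝ) / (i.factorial : ℝ) :=
      Finset.single_le_sum (f := fun i => β ^ i * (Tev J i : ℝ) / (i.factorial : ℝ))
        (fun i _ => by positivity) (mem_range.2 (by omega))
    have h3 : β ^ 2 * J.card / 2 = r * 1 := by
      rw [hβ2]
      field_simp
    rw [h3, Real.exp_nat_mul] at h1
    rw [pow_mul, hβ2] at h2
    have h4 : ((2 * r).factorial : ℝ) ≤ ((2 * r : ℕ) : ℝ) ^ (2 * r) := by
      exact_mod_cast Nat.factorial_le_pow (2 * r)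
    have h5 : (0:ℝ) < ((2 * r).factorial : ℝ) := by exact_mod_cast Nat.factorial_pos _
    have h6 : (2 * (r:ℝ) / J.card) ^ r * (Tev J (2 * r) : ℝ) ≤
        Real.exp 1 ^ r * ((2 * r : ℕ) : ℝ) ^ (2 * r) := by
      have h7 := (div_le_iff₀ h5).1 (h2.trans h1)
      exact h7.trans (mul_le_mul_of_nonneg_left h4 (by positivity))
    have h8 : (0:ℝ) < (2 * (r:ℝ) / J.card) ^ r := by positivity
    have h9 : (2 * Real.exp 1 * r * J.card) ^ r * (2 * (r:ℝ) / J.card) ^ r =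
        Real.exp 1 ^ r * ((2 * r : ℕ) : ℝ) ^ (2 * r) := by
      rw [pow_mul, ← mul_pow, ← mul_pow]
      congr 1
      push_cast
      field_simp
    have h10 : (Tev J (2 * r) : ℝ) * (2 * (r:ℝ) / J.card) ^ r ≤
        (2 * Real.exp 1 * r * J.card) ^ r * (2 * (r:ℝ) / J.card) ^ r := by
      rw [h9, mul_comm]
      exact h6
    exact le_of_mul_le_mul_right h10 h8

end Pool.Agent.Lib.P4a7640C
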