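import Mathlib
import Pool.Agent.Lib.P4a7640C.Base
import Pool.Agent.Lib.P4a7640C.MomZ
import Pool.Agent.Lib.P4a7640C.PatD
import Pool.Agent.Lib.P4a7640C.TEven
import Pool.Agent.Lib.P4a7640C.AbelN
import Pool.Agent.Lib.P4a7640C.VcB

/-!
# The core inequality
-/

open Finset Filter Topology
open Pool.Agent.Lib.P4a7640 Pool.Agent.Lib.P4a7640E

namespace Pool.Agent.Lib.P4a7640C

namespace CoreAux

lemma HH_pos {N : ℕ} (hN : 1 ≤ N) : 0 < HH N := by
  unfold HH
  refine Finset.sum_pos (fun n hn => ?_) ⟨1, by rw [mem_Icc]; omega⟩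
  rw [mem_Icc] at hn
  have : (0:ℝ) < n := by exact_mod_cast hn.1
  positivity

lemma HH_le {N : ℕ} (_hN : 1 ≤ N) : HH N ≤ 1 + Real.log N := by
  have h1 := harmonic_le_one_add_log N
  have h2 : ((harmonic N : ℚ) : ℝ) = HH N := by
    unfold HH
    rw [harmonic_eq_sum_Icc]
    push_cast
    refine Finset.sum_congr rfl fun n _ => ?_
    rw [one_div]
  rw [h2] at h1
  exact h1

lemma io_cases (B N n : ℕ) : io B N n = 0 ∨ io B N n = 1 := by
  unfold io
  split_ifs
  · exact Or.inr rfl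
  · exact Or.inl rfl

lemma io_nonneg (B N n : ℕ) : 0 ≤ io B N n := by
  rcases io_cases B N n with h | h <;> rw [h] <;> norm_num

lemma jensen {N B : ℕ} (hN : 1 ≤ N) (β : ℕ → ℝ) (hβ : ∀ n, 0 ≤ β n) {k : ℕ} (hk : 1 ≤ k) :
    ((∑ n ∈ Icc 1 N, io B N n * β n / n) / HH N) ^ k ≤
      (∑ n ∈ Icc 1 N, io B N n * β n ^ k / n) / HH N := by
  have hH := HH_pos hN
  have h1 := Real.pow_arith_mean_le_arith_mean_pow (Icc 1 N) (fun n => (1 / (n:ℝ)) / HH N)
    (fun n => io B N n * β n) (fun n _ => by positivity) (by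
      rw [← Finset.sum_div]
      exact div_self hH.ne') (fun n _ => mul_nonneg (io_nonneg _ _ _) (hβ n)) k
  rw [Finset.sum_div, Finset.sum_div]
  have e1 : ∑ n ∈ Icc 1 N, io B N n * β n / n / HH N =
      ∑ n ∈ Icc 1 N, (1 / (n:ℝ)) / HH N * (io B N n * β n) :=
    Finset.sum_congr rfl fun n _ => by ring
  have e2 : ∑ n ∈ Icc 1 N, io B N n * β n ^ k / n / HH N =
      ∑ n ∈ Icc 1 N, (1 / (n:ℝ)) / HH N * (io B N n * β n) ^ k := by
    refine Finset.sum_congr rfl fun n _ => ?_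
    rw [mul_pow]
    have h3 : io B N n ^ k = io B N n := by
      rcases io_cases B N n with h | h
      · rw [h, zero_pow (by omega)]
      · rw [h, one_pow]
    rw [h3]
    ring
  rw [e1, e2]
  exact h1

open Classical in
lemma sum_bad {N : ℕ} (hN : 1 ≤ N) (P : ℕ → Prop) :
    ∑ n ∈ Icc 1 N, (if P n then (1:ℝ) else 0) / n = pr N P * HH N := by
  have hH := HH_pos hN
  unfold pr
  unfold HH at hH ⊢
  rw [div_mul_cancel₀ _ hH.ne', Finset.sum_filter]
  refine Finset.sum_congr rfl fun n _ => ?_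
  split_ifs <;> simp

lemma two_exp_le {r : ℕ} (hr : 1 ≤ r) : 2 * Real.exp (2 * r) ≤ 16 ^ r := by
  have h1 : Real.exp (2 * r) = (Real.exp 2) ^ r := by
    rw [← Real.exp_nat_mul]
    congr 1
    ring
  have h2 : Real.exp 2 ≤ 8 := by
    have h3 : Real.exp 2 = Real.exp 1 * Real.exp 1 := by
      rw [← Real.exp_add]; norm_num
    have h4 := Real.exp_one_lt_d9
    have h5 := Real.exp_pos 1
    rw [h3]
    nlinarith
  have h3 : (2:ℝ) ≤ 2 ^ r := by
    calc (2:ℝ) = 2 ^ 1 := by norm_num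
      _ ≤ 2 ^ r := pow_le_pow_right₀ (by norm_num) hr
  rw [h1]
  calc 2 * (Real.exp 2) ^ r ≤ 2 ^ r * 8 ^ r := by
        have h4 : (Real.exp 2) ^ r ≤ 8 ^ r := pow_le_pow_left₀ (Real.exp_pos _).le h2 r
        exact mul_le_mul h3 h4 (by positivity) (by positivity)
    _ = 16 ^ r := by rw [← mul_pow]; norm_num

end CoreAux

open CoreAux in
theorem core : ∃ A : ℕ, 0 < A ∧ ∀ f g : ℕ → ℤˣ, (MultS fun n => f n * g n) →
    (Aperiodic fun n => f n * g n) → ∀ q : ℕ, 0 < q → ∀ (χ : DirichletCharacter ℂ q)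
    (l : Filter ℕ), l ≤ atTop → ∀ J : Finset ℕ, J.Nonempty → ∀ r K b c : ℕ, 1 ≤ r → 2 * r ≤ K →
    8 * J.card ^ (2 * r) ≤ 4 ^ K → A * K * 2 ^ b ≤ 2 ^ c →
    ((patJ f l J).card : ℝ) * (patJ g l J).card ≤ Real.exp (2 * r) → ∀ lam : ℝ, 0 ≤ lam →
    ∀ᶠ N : ℕ in l, ‖(∑ n ∈ Icc 1 N,
      ((io (2 ^ b) N n * Real.exp (-(lam * Real.log n / Real.log N)) : ℝ) : ℂ) *
        wc (2 ^ c) (fun n => f n * g n) χ N n / n) / (Real.log N : ℂ)‖ ≤
      6 * Real.sqrt (2 * Real.exp 1 * r / J.card) := by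
  classical
  obtain ⟨A, hA, hmom⟩ := mom
  refine ⟨A, hA, ?_⟩
  intro f g hu hap q hq χ l hl J hJ r K b c hr hrK hLK hAK hM lam hlam
  set u : ℕ → ℤˣ := fun n => f n * g n with hudef
  set L : ℝ := (J.card : ℝ) with hL
  have hL1 : (1:ℝ) ≤ L := by
    rw [hL]
    exact_mod_cast hJ.card_pos
  have hr1 : (1:ℝ) ≤ r := by exact_mod_cast hr
  have hK1 : 1 ≤ K := by omega
  have he1 : (2.7:ℝ) ≤ Real.exp 1 := by
    have := Real.exp_one_gt_d9
    linarith
  set X : ℝ := 2 * Real.exp 1 * r * L with hX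
  have hX1 : 1 ≤ X := by
    have h1 : (1:ℝ) ≤ r * L := by nlinarith
    rw [hX]
    nlinarith
  have hX0 : 0 < X := by linarith
  set E : ℝ := Real.exp (2 * r) with hE
  have hE1 : 1 ≤ E := Real.one_le_exp (by positivity)
  have e1 := (hmom u hu hap q hq χ J r r K b c hK1 (by omega) hAK).filter_mono hl
  have hb0 : Tendsto (fun N => (pr N (fun n => BadP f l J n) + pr N (fun n => BadP g l J n)) *
      L ^ (2 * r)) l (𝓝 ((0 + 0) * L ^ (2 * r))) :=
    ((bad_tendsto f l J).add (bad_tendsto g l J)).mul_const _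
  rw [add_zero, zero_mul] at hb0
  have e2 : ∀ᶠ N in l, (pr N (fun n => BadP f l J n) + pr N (fun n => BadP g l J n)) *
      L ^ (2 * r) < 1 / 2 := hb0 (Iio_mem_nhds (by norm_num))
  set CJ : ℝ := ∑ j ∈ J, 4 * (j:ℝ) with hCJ
  have hCJ0 : 0 ≤ CJ := Finset.sum_nonneg fun j _ => by positivity
  have e3 : ∀ᶠ N : ℕ in l, 4 + CJ ≤ 2 * Real.log N := by
    have h1 : Tendsto (fun N : ℕ => Real.log (N:ℝ)) atTop atTop :=
      Real.tendsto_log_atTop.comp tendsto_natCast_atTop_atTop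
    have h2 := h1.eventually_ge_atTop ((4 + CJ) / 2)
    filter_upwards [h2.filter_mono hl] with N hN
    linarith
  have e4 : ∀ᶠ N : ℕ in l, 2 ≤ N := (eventually_ge_atTop 2).filter_mono hl
  filter_upwards [e1, e2, e3, e4] with N h1 h2 h3 h4
  have hN1 : 1 ≤ N := by omega
  have hH := HH_pos hN1
  have hlog : 0 < Real.log N := Real.log_pos (by exact_mod_cast (by omega : 1 < N))
  -- weights
  set a : ℕ → ℝ := fun n => Real.exp (-(lam * Real.log n / Real.log N)) with ha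
  have ha01 : ∀ n, 0 ≤ a n ∧ a n ≤ 1 := by
    intro n
    refine ⟨(Real.exp_pos _).le, ?_⟩
    rw [ha]
    apply Real.exp_le_one_iff.2
    have : 0 ≤ Real.log n := Real.log_natCast_nonneg n
    have : 0 ≤ lam * Real.log n / Real.log N := by positivity
    linarith
  have haanti : ∀ n, a (n + 1) ≤ a n := by
    intro n
    rw [ha]
    apply Real.exp_le_exp.2
    have h5 : Real.log n ≤ Real.log ((n + 1 : ℕ) : ℝ) := by
      rcases Nat.eq_zero_or_pos n with h0 | h0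
      · subst h0
        simp
      · apply Real.log_le_log (by exact_mod_cast h0)
        exact_mod_cast Nat.le_succ n
    have h6 : lam * Real.log n / Real.log N ≤ lam * Real.log ((n + 1 : ℕ) : ℝ) / Real.log N :=
      div_le_div_of_nonneg_right (mul_le_mul_of_nonneg_left h5 hlam) hlog.le
    linarith
  -- the linear forms
  set v : ℕ → ℂ := vc (2 ^ c) u χ N with hv
  set w : ℕ → ℂ := wc (2 ^ c) u χ N with hw
  set β : ℕ → ℝ := fun n => ‖∑ j ∈ J, sgC (f (n + j)) * sgC (g (n + j)) *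
    (starRingEnd ℂ) (v (n + j))‖ with hβ
  have hβ0 : ∀ n, 0 ≤ β n := fun n => norm_nonneg _
  have hwsum : ∀ n, ∑ j ∈ J, sgC (f (n + j)) * sgC (g (n + j)) * (starRingEnd ℂ) (v (n + j)) =
      ∑ j ∈ J, w (n + j) := by
    intro n
    refine Finset.sum_congr rfl fun j _ => ?_
    rw [← sgC_mul]
    exact sgC_conj_vc (2 ^ c) u χ N (n + j)
  -- second moment type bound
  have hS2 : ∑ n ∈ Icc 1 N, io (2 ^ b) N n * β n ^ (2 * r) / n ≤ 2 * E * X ^ r * HH N := by
    have hpt : ∀ n ∈ Icc 1 N, io (2 ^ b) N n * β n ^ (2 * r) / n ≤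
        ∑ x ∈ patJ f l J, ∑ y ∈ patJ g l J,
          io (2 ^ b) N n * ‖ZZ (2 ^ c) u χ N J (xt x y) n‖ ^ (2 * r) / n +
        (((if BadP f l J n then (1:ℝ) else 0) / n) + ((if BadP g l J n then (1:ℝ) else 0) / n)) *
          L ^ (2 * r) := by
      intro n hn
      rw [mem_Icc] at hn
      have hn0 : (0:ℝ) < n := by exact_mod_cast hn.1
      have k1 := pt_bound f g l J (2 ^ c) u χ N (2 * r) n
      have k2 := mul_le_mul_of_nonneg_left k1 (io_nonneg (2 ^ b) N n)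
      have k3 := div_le_div_of_nonneg_right k2 hn0.le
      refine k3.trans ?_
      have k4 : io (2 ^ b) N n * (∑ x ∈ patJ f l J, ∑ y ∈ patJ g l J,
          ‖ZZ (2 ^ c) u χ N J (xt x y) n‖ ^ (2 * r)) / n =
          ∑ x ∈ patJ f l J, ∑ y ∈ patJ g l J,
          io (2 ^ b) N n * ‖ZZ (2 ^ c) u χ N J (xt x y) n‖ ^ (2 * r) / n := by
        rw [Finset.mul_sum, Finset.sum_div]
        refine Finset.sum_congr rfl fun x _ => ?_
        rw [Finset.mul_sum, Finset.sum_div]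
      rw [mul_add, add_div, k4]
      refine add_le_add le_rfl ?_
      set W : ℝ := (if BadP f l J n then (1:ℝ) else 0) + (if BadP g l J n then (1:ℝ) else 0) with hW
      have hW0 : 0 ≤ W := by
        rw [hW]
        split_ifs <;> norm_num
      have k5 : ((if BadP f l J n then (1:ℝ) else 0) / n +
          (if BadP g l J n then (1:ℝ) else 0) / n) * L ^ (2 * r) = W * L ^ (2 * r) / n := by
        rw [hW]
        ring
      rw [k5]
      apply div_le_div_of_nonneg_right _ hn0.le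
      have k6 : 0 ≤ W * (J.card : ℝ) ^ (2 * r) := by positivity
      rcases io_cases (2 ^ b) N n with h | h <;> rw [h]
      · rw [zero_mul]
        exact k6
      · rw [one_mul]
    refine (Finset.sum_le_sum hpt).trans ?_
    rw [Finset.sum_add_distrib, ← Finset.sum_mul, Finset.sum_add_distrib, sum_bad hN1, sum_bad hN1]
    have hZ : ∀ x ∈ patJ f l J, ∀ y ∈ patJ g l J, ∑ n ∈ Icc 1 N,
        io (2 ^ b) N n * ‖ZZ (2 ^ c) u χ N J (xt x y) n‖ ^ (2 * r) / n ≤
        (X ^ r + 1 / 2) * HH N := by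
      intro x _ y _
      have k1 := h1 (xt x y) (abs_xt_le x y) (fun _ => 1) (fun _ => ⟨zero_le_one, le_rfl⟩)
        (fun _ => le_rfl)
      have k2 : ∑ n ∈ Icc 1 N, ((io (2 ^ b) N n * (1:ℝ) : ℝ) : ℂ) *
          (ZZ (2 ^ c) u χ N J (xt x y) n ^ r *
            (starRingEnd ℂ) (ZZ (2 ^ c) u χ N J (xt x y) n) ^ r) / n =
          ((∑ n ∈ Icc 1 N, io (2 ^ b) N n * ‖ZZ (2 ^ c) u χ N J (xt x y) n‖ ^ (2 * r) / n : ℝ) : ℂ) := by
        push_cast
        refine Finset.sum_congr rfl fun n _ => ?_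
        rw [← mul_pow, Complex.mul_conj, Complex.normSq_eq_norm_sq, mul_one, pow_mul]
        push_cast
        rfl
      rw [k2, Complex.norm_real, Real.norm_eq_abs] at k1
      refine (le_abs_self _).trans (k1.trans ?_)
      refine mul_le_mul_of_nonneg_right ?_ hH.le
      have k3 := tev_le J hr
      rw [two_mul] at k3
      have k4 : 4 * L ^ (r + r) * (1 / 4) ^ K ≤ 1 / 2 := by
        have k5 : ((8 * J.card ^ (2 * r) : ℕ) : ℝ) ≤ ((4 ^ K : ℕ) : ℝ) := by exact_mod_cast hLK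
        push_cast at k5
        have k6 : (4:ℝ) ^ K * (1 / 4) ^ K = 1 := by
          rw [← mul_pow]
          norm_num
        have k7 : (0:ℝ) ≤ (1 / 4) ^ K := by positivity
        have k8 := mul_le_mul_of_nonneg_right k5 k7
        rw [k6] at k8
        rw [← two_mul]
        have k9 : 4 * L ^ (2 * r) * (1 / 4) ^ K = (8 * (J.card:ℝ) ^ (2 * r) * (1 / 4) ^ K) / 2 := by
          rw [hL]
          ring
        rw [k9]
        linarith
      exact add_le_add k3 k4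
    have hZ2 : ∑ n ∈ Icc 1 N, ∑ x ∈ patJ f l J, ∑ y ∈ patJ g l J,
        io (2 ^ b) N n * ‖ZZ (2 ^ c) u χ N J (xt x y) n‖ ^ (2 * r) / n ≤
        E * ((X ^ r + 1 / 2) * HH N) := by
      rw [Finset.sum_comm]
      have k1 : ∀ x ∈ patJ f l J, ∑ n ∈ Icc 1 N, ∑ y ∈ patJ g l J,
          io (2 ^ b) N n * ‖ZZ (2 ^ c) u χ N J (xt x y) n‖ ^ (2 * r) / n ≤
          ∑ _y ∈ patJ g l J, (X ^ r + 1 / 2) * HH N := by
        intro x hx
        rw [Finset.sum_comm]
        exact Finset.sum_le_sum fun y hy => hZ x hx y hy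
      refine (Finset.sum_le_sum k1).trans ?_
      rw [Finset.sum_const, Finset.sum_const, nsmul_eq_mul, nsmul_eq_mul, ← mul_assoc]
      exact mul_le_mul_of_nonneg_right hM (by positivity)
    have hX2 : (1:ℝ) ≤ X ^ r := one_le_pow₀ hX1
    have k9 : (pr N (fun n => BadP f l J n) * HH N + pr N (fun n => BadP g l J n) * HH N) *
        L ^ (2 * r) ≤ 1 / 2 * HH N := by
      have := mul_le_mul_of_nonneg_right h2.le hH.le
      linarith
    refine (add_le_add hZ2 k9).trans ?_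
    have k10 : E * (X ^ r + 1 / 2) + 1 / 2 ≤ 2 * E * X ^ r := by nlinarith
    have k11 := mul_le_mul_of_nonneg_right k10 hH.le
    linarith
  -- Jensen
  have hS1 : ∑ n ∈ Icc 1 N, io (2 ^ b) N n * β n / n ≤ 4 * Real.sqrt X * HH N := by
    have k1 := jensen (B := 2 ^ b) hN1 β hβ0 (k := 2 * r) (by omega)
    have k2 : (∑ n ∈ Icc 1 N, io (2 ^ b) N n * β n ^ (2 * r) / n) / HH N ≤ 2 * E * X ^ r := by
      rw [div_le_iff₀ hH]
      exact hS2
    have k3 : 2 * E * X ^ r ≤ (4 * Real.sqrt X) ^ (2 * r) := by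
      have k4 : (4 * Real.sqrt X) ^ (2 * r) = 16 ^ r * X ^ r := by
        rw [pow_mul, mul_pow, Real.sq_sqrt hX0.le, mul_pow]
        norm_num
      rw [k4]
      exact mul_le_mul_of_nonneg_right (two_exp_le hr) (by positivity)
    have k5 := k1.trans (k2.trans k3)
    have k6 : (∑ n ∈ Icc 1 N, io (2 ^ b) N n * β n / n) / HH N ≤ 4 * Real.sqrt X := by
      refine (pow_le_pow_iff_left₀ ?_ (by positivity) (by omega : 2 * r ≠ 0)).1 k5
      refine div_nonneg (Finset.sum_nonneg fun n _ => ?_) hH.le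
      exact div_nonneg (mul_nonneg (io_nonneg _ _ _) (hβ0 n)) (Nat.cast_nonneg _)
    rwa [div_le_iff₀ hH] at k6
  -- the left side
  set W0 : ℂ := ∑ n ∈ Icc 1 N, ((io (2 ^ b) N n * a n : ℝ) : ℂ) * w n / n with hW0
  have hnorm : ‖∑ n ∈ Icc 1 N, ((io (2 ^ b) N n * a n : ℝ) : ℂ) * (∑ j ∈ J, w (n + j)) / n‖ ≤
      ∑ n ∈ Icc 1 N, io (2 ^ b) N n * β n / n := by
    refine (norm_sum_le _ _).trans (Finset.sum_le_sum fun n _ => ?_)
    rw [norm_div, norm_mul, Complex.norm_real, Real.norm_eq_abs, abs_mul,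
      abs_of_nonneg (io_nonneg _ _ _), abs_of_nonneg (ha01 n).1, ← hwsum n, Complex.norm_natCast]
    apply div_le_div_of_nonneg_right _ (Nat.cast_nonneg _)
    have k1 : io (2 ^ b) N n * a n * β n ≤ io (2 ^ b) N n * 1 * β n :=
      mul_le_mul_of_nonneg_right (mul_le_mul_of_nonneg_left (ha01 n).2 (io_nonneg _ _ _)) (hβ0 n)
    rw [mul_one] at k1
    exact k1
  have hexch : ∑ n ∈ Icc 1 N, ((io (2 ^ b) N n * a n : ℝ) : ℂ) * (∑ j ∈ J, w (n + j)) / n =
      ∑ j ∈ J, ∑ n ∈ Icc 1 N, ((io (2 ^ b) N n * a n : ℝ) : ℂ) * w (n + j) / n := by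
    rw [Finset.sum_comm]
    refine Finset.sum_congr rfl fun n _ => ?_
    rw [Finset.mul_sum, Finset.sum_div]
  have hshift : ‖∑ j ∈ J, ∑ n ∈ Icc 1 N, ((io (2 ^ b) N n * a n : ℝ) : ℂ) * w (n + j) / n -
      (J.card : ℂ) * W0‖ ≤ CJ := by
    have k1 : (J.card : ℂ) * W0 = ∑ _j ∈ J, W0 := by
      rw [Finset.sum_const, nsmul_eq_mul]
    rw [k1, ← Finset.sum_sub_distrib]
    refine (norm_sum_le _ _).trans (Finset.sum_le_sum fun j _ => ?_)
    exact shiftW hN1 Nat.one_le_two_pow (fun n => norm_wc_le (2 ^ c) u χ N n) ha01 haanti j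
  have hmain : L * ‖W0‖ ≤ 4 * Real.sqrt X * HH N + CJ := by
    have k1 : ‖(J.card : ℂ) * W0‖ = L * ‖W0‖ := by
      rw [norm_mul, Complex.norm_natCast]
    rw [← k1]
    have k2 := norm_sub_norm_le ((J.card : ℂ) * W0)
      (∑ j ∈ J, ∑ n ∈ Icc 1 N, ((io (2 ^ b) N n * a n : ℝ) : ℂ) * w (n + j) / n)
    rw [norm_sub_rev] at k2
    rw [hexch] at hnorm
    linarith
  have hsX : 1 ≤ Real.sqrt X := by
    exact Real.one_le_sqrt.2 hX1
  have hfin : L * ‖W0‖ ≤ 6 * Real.sqrt X * Real.log N := by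
    refine hmain.trans ?_
    have k1 := HH_le hN1
    have k2 : 4 * Real.sqrt X * HH N ≤ 4 * Real.sqrt X * (1 + Real.log N) :=
      mul_le_mul_of_nonneg_left k1 (by positivity)
    have k3 : CJ ≤ Real.sqrt X * CJ := by nlinarith
    have k4 : Real.sqrt X * (4 + CJ) ≤ Real.sqrt X * (2 * Real.log N) :=
      mul_le_mul_of_nonneg_left h3 (by positivity)
    linarith
  have hgoal : ‖W0 / (Real.log N : ℂ)‖ ≤ 6 * Real.sqrt (2 * Real.exp 1 * r / L) := by
    rw [norm_div, Complex.norm_real, Real.norm_eq_abs, abs_of_pos hlog, div_le_iff₀ hlog]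
    have k1 : Real.sqrt (2 * Real.exp 1 * r / L) * L = Real.sqrt X := by
      have hL0 : 0 < L := by linarith
      have k2 : X = (2 * Real.exp 1 * r / L) * L ^ 2 := by
        rw [hX]
        field_simp
      rw [k2, Real.sqrt_mul (by positivity), Real.sqrt_sq hL0.le]
    have hL0 : 0 < L := by linarith
    rw [← k1] at hfin
    have k3 : ‖W0‖ * L ≤ (6 * Real.sqrt (2 * Real.exp 1 * r / L) * Real.log N) * L := by
      linarith
    exact le_of_mul_le_mul_right k3 hL0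
  exact hgoal

end Pool.Agent.Lib.P4a7640C
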