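import Mathlib
import Pool.Agent.Lib.P4a7640C.Base
import Pool.Agent.Lib.P4a7640C.MomZ
import Pool.Agent.Lib.P4a7640C.TEven
import Pool.Agent.Lib.P4a7640C.AbelN
import Pool.Agent.Lib.P4a7640C.VcB
import Pool.Agent.Lib.P4a7640E.EntA

/-!
# The core inequality with the entropy of the pattern of `u`, at one scale

`X n = patn u J n`, `p z = pr N (X = z)`, `Z_z n = ∑ j ∈ J, z_j v(n+j)`, `T z = ∑ (n ≤ N, X n = z) io a ‖Z_z n‖ / n`.
For `1 ≤ r ≤ R` with `exp (-2 r) ≤ p z`: `y ≤ t (1 - 1/(2r)) + t/(2r) (y/t)^(2r)` (Bernoulli) with `t = e √(2 e r L)` and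
the `2r`-th moment `≤ 3/2 (2 e r L)^r HH N` give `T z ≤ 5/4 t p HH N`. If `p z < exp (-2 R)`: `T z ≤ L p HH N ≤
L HH N negMulLog p / (2 R)`. Sum over `z`: `≤ HH N (5/4 e √(2 e L (1 + h/2)) + L h / (2R))`.
-/

open Finset Filter Topology
open Pool.Agent.Lib.P4a7640 Pool.Agent.Lib.P4a7640E

namespace Pool.Agent.Lib.P4a7640C

/-- the pattern of `u` on `J` at `n` -/
def patn (u : ℕ → ℤˣ) (J : Finset ℕ) (n : ℕ) : J → ℤˣ := fun j => u (n + j)

/-- product of patterns -/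
def mulpat (J : Finset ℕ) (p : (J → ℤˣ) × (J → ℤˣ)) : J → ℤˣ := fun j => p.1 j * p.2 j

theorem entJ (f g : ℕ → ℤˣ) (J : Finset ℕ) (N : ℕ) :
    Ent N (patn (fun n => f n * g n) J) ≤ Ent N (patn f J) + Ent N (patn g J) := by
  have h2 := Ent_comp N (fun n => (patn f J n, patn g J n)) (mulpat J)
  have h3 := Ent_pair N (patn f J) (patn g J)
  have h1 : patn (fun n => f n * g n) J = fun n => mulpat J (patn f J n, patn g J n) := by
    funext n j
    rfl
  rw [h1]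
  exact h2.trans h3

namespace CoreEAux

/-- the pattern as a real vector -/
def xz {J : Finset ℕ} (z : J → ℤˣ) (j : ℕ) : ℝ := if h : j ∈ J then sg (z ⟨j, h⟩) else 0

theorem abs_sg (u : ℤˣ) : |sg u| = 1 := by
  rcases Int.units_eq_one_or u with h | h
  · rw [h]; simp [sg]
  · rw [h]; simp [sg]

theorem conj_sgC (u : ℤˣ) : (starRingEnd ℂ) (sgC u) = sgC u := by
  unfold sgC
  exact map_intCast (starRingEnd ℂ) _

theorem sg_sgC (u : ℤˣ) : ((sg u : ℝ) : ℂ) = sgC u := by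
  unfold sg sgC
  push_cast
  rfl

theorem abs_xz_le {J : Finset ℕ} (z : J → ℤˣ) (j : ℕ) : |xz z j| ≤ 1 := by
  unfold xz
  by_cases h : j ∈ J
  · rw [dif_pos h, abs_sg]
  · rw [dif_neg h, abs_zero]
    exact zero_le_one

theorem norm_ZZ_le (c : ℕ) (u : ℕ → ℤˣ) {q : ℕ} (χ : DirichletCharacter ℂ q) (N : ℕ) {J : Finset ℕ}
    (z : J → ℤˣ) (n : ℕ) : ‖ZZ c u χ N J (xz z) n‖ ≤ J.card := by
  unfold ZZ
  refine (norm_sum_le _ _).trans ?_
  have h2 : ∀ j ∈ J, ‖((xz z j : ℝ) : ℂ) * vc c u χ N (n + j)‖ ≤ 1 := by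
    intro j _
    rw [norm_mul, Complex.norm_real, Real.norm_eq_abs]
    exact mul_le_one₀ (abs_xz_le z j) (norm_nonneg _) (norm_vc_le c u χ N (n + j))
  refine (Finset.sum_le_sum h2).trans ?_
  rw [Finset.sum_const, nsmul_eq_mul, mul_one]

theorem sum_wc (c : ℕ) (u : ℕ → ℤˣ) {q : ℕ} (χ : DirichletCharacter ℂ q) (N : ℕ) (J : Finset ℕ) (n : ℕ) :
    ∑ j ∈ J, wc c u χ N (n + j) = (starRingEnd ℂ) (ZZ c u χ N J (xz (patn u J n)) n) := by
  unfold ZZ
  rw [map_sum]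
  refine Finset.sum_congr rfl fun j hj => ?_
  rw [map_mul, Complex.conj_ofReal, ← sgC_conj_vc]
  congr 1
  unfold xz patn
  rw [dif_pos hj, sg_sgC]

theorem young {y t : ℝ} (hy : 0 ≤ y) (ht : 0 < t) {m : ℕ} (hm : 1 ≤ m) :
    y ≤ t * (1 - 1 / m) + t / m * (y / t) ^ m := by
  have hm0 : (0 : ℝ) < m := by exact_mod_cast hm
  have h0 : 0 ≤ y / t := div_nonneg hy ht.le
  have h1 := one_add_mul_le_pow (a := y / t - 1) (by linarith) m
  have h2 : (1 + (y / t - 1)) = y / t := by ring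
  rw [h2] at h1
  have h3 : t / m * (1 + m * (y / t - 1)) ≤ t / m * (y / t) ^ m :=
    mul_le_mul_of_nonneg_left h1 (by positivity)
  have h4 : t / m * (1 + m * (y / t - 1)) = t / m + y - t := by
    field_simp
    ring
  rw [h4] at h3
  have h5 : t * (1 - 1 / m) = t - t / m := by
    field_simp
  rw [h5]
  linarith

/-- one pattern -/
theorem T_main {N : ℕ} {wt : ℕ → ℝ} (hwt0 : ∀ n, 0 ≤ wt n) (hwt1 : ∀ n, wt n ≤ 1 / n) (P : ℕ → Prop)
    [DecidablePred P]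
    {Y : ℕ → ℝ} (hY : ∀ n, 0 ≤ Y n) {r : ℕ} (hr : 1 ≤ r) {M : ℝ} (hM0 : 0 < M)
    (hM : ∑ n ∈ Icc 1 N, wt n * Y n ^ (2 * r) ≤ 3 / 2 * M ^ r * HH N) {p : ℝ}
    (hp : ∑ n ∈ (Icc 1 N).filter P, (1 : ℝ) / n = p * HH N) (hpr : Real.exp (-(2 * r)) ≤ p)
    (hH : 0 ≤ HH N) :
    ∑ n ∈ (Icc 1 N).filter P, wt n * Y n ≤ 5 / 4 * (Real.exp 1 * Real.sqrt M) * p * HH N := by
  set t : ℝ := Real.exp 1 * Real.sqrt M with ht
  have ht0 : 0 < t := by
    have := Real.sqrt_pos.2 hM0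
    positivity
  have hr0 : (1 : ℝ) ≤ r := by exact_mod_cast hr
  have htp : t ^ (2 * r) = Real.exp (2 * r) * M ^ r := by
    rw [ht, mul_pow, ← Real.exp_nat_mul, pow_mul (Real.sqrt M), Real.sq_sqrt hM0.le]
    congr 1
    push_cast
    ring_nf
  have hsub : ∑ n ∈ (Icc 1 N).filter P, wt n * Y n ^ (2 * r) ≤ 3 / 2 * M ^ r * HH N :=
    (Finset.sum_le_sum_of_subset_of_nonneg (Finset.filter_subset _ _)
      fun n _ _ => mul_nonneg (hwt0 n) (pow_nonneg (hY n) _)).trans hM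
  have hwsum : ∑ n ∈ (Icc 1 N).filter P, wt n ≤ p * HH N := by
    rw [← hp]
    exact Finset.sum_le_sum fun n _ => hwt1 n
  have h1 : ∀ n ∈ (Icc 1 N).filter P, wt n * Y n ≤
      t * (1 - 1 / (2 * r : ℕ)) * wt n + t / (2 * r : ℕ) / t ^ (2 * r) * (wt n * Y n ^ (2 * r)) := by
    intro n _
    have h2 := mul_le_mul_of_nonneg_left (young (hY n) ht0 (m := 2 * r) (by omega)) (hwt0 n)
    refine h2.trans (le_of_eq ?_)
    rw [div_pow]
    ring
  have hc : (0 : ℝ) ≤ 1 - 1 / (2 * r : ℕ) := by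
    have : (1 : ℝ) / (2 * r : ℕ) ≤ 1 := by
      rw [div_le_one (by positivity)]
      push_cast
      linarith
    linarith
  have hsum := Finset.sum_le_sum h1
  rw [Finset.sum_add_distrib, ← Finset.mul_sum, ← Finset.mul_sum] at hsum
  have hexp : (M ^ r) / t ^ (2 * r) = Real.exp (-(2 * r)) := by
    rw [htp, Real.exp_neg]
    field_simp
  have h3 : t / (2 * r : ℕ) / t ^ (2 * r) * ∑ n ∈ (Icc 1 N).filter P, wt n * Y n ^ (2 * r) ≤
      t / (2 * r : ℕ) * (3 / 2 * p * HH N) := by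
    calc t / (2 * r : ℕ) / t ^ (2 * r) * ∑ n ∈ (Icc 1 N).filter P, wt n * Y n ^ (2 * r)
        ≤ t / (2 * r : ℕ) / t ^ (2 * r) * (3 / 2 * M ^ r * HH N) :=
          mul_le_mul_of_nonneg_left hsub (by positivity)
      _ = t / (2 * r : ℕ) * (3 / 2 * (M ^ r / t ^ (2 * r)) * HH N) := by
          field_simp
      _ ≤ t / (2 * r : ℕ) * (3 / 2 * p * HH N) := by
          rw [hexp]
          gcongr
  have h4 : t * (1 - 1 / (2 * r : ℕ)) * ∑ n ∈ (Icc 1 N).filter P, wt n ≤ t * (1 - 1 / (2 * r : ℕ)) * (p * HH N) :=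
    mul_le_mul_of_nonneg_left hwsum (by positivity)
  have hp0 : 0 ≤ p := (Real.exp_pos _).le.trans hpr
  have h5 : t * (1 - 1 / (2 * r : ℕ)) * (p * HH N) + t / (2 * r : ℕ) * (3 / 2 * p * HH N) =
      (1 + 1 / (4 * r)) * t * p * HH N := by
    push_cast
    field_simp
    ring
  have h6 : (1 : ℝ) + 1 / (4 * r) ≤ 5 / 4 := by
    have : (1 : ℝ) / (4 * r) ≤ 1 / 4 := by
      apply one_div_le_one_div_of_le (by norm_num)
      linarith
    linarith
  calc ∑ n ∈ (Icc 1 N).filter P, wt n * Y n ≤ (1 + 1 / (4 * r)) * t * p * HH N := by linarith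
    _ ≤ 5 / 4 * t * p * HH N := by gcongr

theorem HH_nonneg (N : ℕ) : 0 ≤ HH N := Finset.sum_nonneg fun n _ => by positivity

theorem HH_pos {N : ℕ} (hN : 1 ≤ N) : 0 < HH N := by
  refine Finset.sum_pos (fun n hn => ?_) ⟨1, Finset.mem_Icc.2 ⟨le_refl _, hN⟩⟩
  have : 1 ≤ n := (Finset.mem_Icc.1 hn).1
  positivity

theorem pr_HH (N : ℕ) (P : ℕ → Prop) [DecidablePred P] :
    ∑ n ∈ (Icc 1 N).filter P, (1 : ℝ) / n = pr N P * HH N := by
  classical
  rcases Nat.eq_zero_or_pos N with h | h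
  · subst h
    simp [HH]
  · unfold pr
    have h1 : (∑ n ∈ Icc 1 N, (1 : ℝ) / n) = HH N := rfl
    rw [h1, div_mul_cancel₀]
    · refine Finset.sum_congr ?_ fun n _ => rfl
      ext n
      simp
    · exact (HH_pos h).ne'

theorem exp_cube : Real.exp 1 ^ 3 ≤ 201 / 10 := by
  have h := Real.exp_one_lt_d9
  have h0 := Real.exp_pos 1
  calc Real.exp 1 ^ 3 ≤ (2.7182818286 : ℝ) ^ 3 := by gcongr
    _ ≤ 201 / 10 := by norm_num

/-- the constant -/
theorem kap_le (L : ℝ) : 5 / 4 * Real.exp 1 * Real.sqrt (2 * Real.exp 1 * L) ≤ 8 * Real.sqrt L := by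
  have h0 := Real.exp_pos 1
  rw [Real.sqrt_mul (by positivity)]
  have h1 : 5 / 4 * Real.exp 1 * Real.sqrt (2 * Real.exp 1) ≤ 8 := by
    have h2 : (5 / 4 * Real.exp 1 * Real.sqrt (2 * Real.exp 1)) ^ 2 ≤ 8 ^ 2 := by
      rw [mul_pow, Real.sq_sqrt (by positivity)]
      have := exp_cube
      nlinarith
    exact le_of_sq_le_sq h2 (by norm_num)
  calc 5 / 4 * Real.exp 1 * (Real.sqrt (2 * Real.exp 1) * Real.sqrt L) =
      (5 / 4 * Real.exp 1 * Real.sqrt (2 * Real.exp 1)) * Real.sqrt L := by ring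
    _ ≤ 8 * Real.sqrt L := by gcongr

theorem T_all {N : ℕ} {J : Finset ℕ} {R : ℕ} (hR : 1 ≤ R) {wt : ℕ → ℝ} (hwt0 : ∀ n, 0 ≤ wt n)
    (hwt1 : ∀ n, wt n ≤ 1 / n) (P : ℕ → Prop) [DecidablePred P] {Y : ℕ → ℝ} (hY0 : ∀ n, 0 ≤ Y n) (hYL : ∀ n, Y n ≤ J.card)
    (hJ : J.Nonempty)
    (hM : ∀ r : ℕ, 1 ≤ r → r ≤ R →
      ∑ n ∈ Icc 1 N, wt n * Y n ^ (2 * r) ≤ 3 / 2 * (2 * Real.exp 1 * r * J.card) ^ r * HH N)
    {τ : ℝ} (hτ : 0 < τ) :
    ∑ n ∈ (Icc 1 N).filter P, wt n * Y n ≤ HH N *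
      (5 / 4 * Real.exp 1 * Real.sqrt (2 * Real.exp 1 * J.card) *
        (((pr N P + Real.negMulLog (pr N P) / 2) / τ + τ * pr N P) / 2) +
        J.card * Real.negMulLog (pr N P) / (2 * R)) := by
  have hH : 0 ≤ HH N := HH_nonneg N
  have hp0 := pr_nonneg N P
  have hp1 := pr_le_one N P
  have hng := Real.negMulLog_nonneg hp0 hp1
  have hR0 : (1 : ℝ) ≤ R := by exact_mod_cast hR
  have hL : (0 : ℝ) < J.card := by exact_mod_cast hJ.card_pos
  have he := Real.exp_pos 1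
  set p := pr N P with hp
  by_cases hpr : Real.exp (-(2 * R)) ≤ p
  · have hppos : 0 < p := (Real.exp_pos _).trans_le hpr
    have hlog0 : 0 ≤ -Real.log p := by
      have := Real.log_nonpos hp0 hp1
      linarith
    have hlogR : -Real.log p ≤ 2 * R := by
      have h1 := Real.log_le_log (Real.exp_pos _) hpr
      rw [Real.log_exp] at h1
      linarith
    set r : ℕ := max 1 ⌈-Real.log p / 2⌉₊ with hr
    have hr1 : 1 ≤ r := le_max_left _ _
    have hrR : r ≤ R := by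
      refine max_le hR (Nat.ceil_le.2 ?_)
      linarith
    have hr2 : -Real.log p / 2 ≤ r := (Nat.le_ceil _).trans (by exact_mod_cast le_max_right _ _)
    have hr3 : (r : ℝ) ≤ 1 + -Real.log p / 2 := by
      rw [hr]
      push_cast
      refine max_le (by linarith) ?_
      have := (Nat.ceil_lt_add_one (a := -Real.log p / 2) (by linarith)).le
      linarith
    have hr0 : (1 : ℝ) ≤ r := by exact_mod_cast hr1
    have hexp : Real.exp (-(2 * r)) ≤ p := by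
      rw [← Real.exp_log hppos]
      apply Real.exp_le_exp.2
      linarith
    have h1 := T_main hwt0 hwt1 P hY0 hr1 (M := 2 * Real.exp 1 * r * J.card) (by positivity) (hM r hr1 hrR)
      (p := p) (pr_HH N P) hexp hH
    refine h1.trans ?_
    have h2 : Real.sqrt (2 * Real.exp 1 * r * J.card) = Real.sqrt (2 * Real.exp 1 * J.card) * Real.sqrt r := by
      rw [← Real.sqrt_mul (by positivity)]
      congr 1
      ring
    have h3 : Real.sqrt r ≤ ((1 + -Real.log p / 2) / τ + τ) / 2 := by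
      have h4 : Real.sqrt r ^ 2 = r := Real.sq_sqrt (by positivity)
      have h5 : 0 ≤ (Real.sqrt r - τ) ^ 2 := sq_nonneg _
      have h6 : Real.sqrt r ≤ ((r : ℝ) / τ + τ) / 2 := by
        rw [div_add' _ _ _ hτ.ne', div_div, le_div_iff₀ (by positivity)]
        nlinarith
      refine h6.trans ?_
      gcongr
    have h7 : Real.negMulLog p = p * (-Real.log p) := by
      unfold Real.negMulLog
      ring
    have h8 : p * Real.sqrt r ≤ ((p + Real.negMulLog p / 2) / τ + τ * p) / 2 := by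
      calc p * Real.sqrt r ≤ p * (((1 + -Real.log p / 2) / τ + τ) / 2) := by gcongr
        _ = _ := by
          rw [h7]
          ring
    rw [h2]
    have h9 : (0 : ℝ) ≤ J.card * Real.negMulLog p / (2 * R) := by positivity
    calc 5 / 4 * (Real.exp 1 * (Real.sqrt (2 * Real.exp 1 * J.card) * Real.sqrt r)) * p * HH N
        = HH N * (5 / 4 * Real.exp 1 * Real.sqrt (2 * Real.exp 1 * J.card) * (p * Real.sqrt r) + 0) := by ring
      _ ≤ _ := by gcongr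
  · have hpr' : p ≤ Real.exp (-(2 * R)) := (not_le.1 hpr).le
    have h1 : 2 * R * p ≤ Real.negMulLog p := by
      rcases hp0.eq_or_lt with h0 | h0
      · rw [← h0]
        simp
      · have h2 := Real.log_le_log h0 hpr'
        rw [Real.log_exp] at h2
        unfold Real.negMulLog
        nlinarith
    have h2 : ∑ n ∈ (Icc 1 N).filter P, wt n * Y n ≤ HH N * (J.card * p) := by
      calc ∑ n ∈ (Icc 1 N).filter P, wt n * Y n ≤ ∑ n ∈ (Icc 1 N).filter P, (1 / (n : ℝ)) * J.card := by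
            refine Finset.sum_le_sum fun n _ => ?_
            exact mul_le_mul (hwt1 n) (hYL n) (hY0 n) (by positivity)
        _ = HH N * (J.card * p) := by
            rw [← Finset.sum_mul, pr_HH]
            ring
    refine h2.trans ?_
    have h3 : (J.card : ℝ) * p ≤ J.card * Real.negMulLog p / (2 * R) := by
      rw [le_div_iff₀ (by positivity)]
      nlinarith
    have h4 : 0 ≤ 5 / 4 * Real.exp 1 * Real.sqrt (2 * Real.exp 1 * J.card) *
        (((p + Real.negMulLog p / 2) / τ + τ * p) / 2) := by positivity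
    have h5 : (J.card : ℝ) * p ≤ 5 / 4 * Real.exp 1 * Real.sqrt (2 * Real.exp 1 * J.card) *
        (((p + Real.negMulLog p / 2) / τ + τ * p) / 2) + J.card * Real.negMulLog p / (2 * R) := by linarith
    exact mul_le_mul_of_nonneg_left h5 hH

theorem total (u : ℕ → ℤˣ) {N : ℕ} (hN : 1 ≤ N) {J : Finset ℕ} (hJ : J.Nonempty) {R : ℕ} (hR : 1 ≤ R) {wt : ℕ → ℝ}
    (hwt0 : ∀ n, 0 ≤ wt n) (hwt1 : ∀ n, wt n ≤ 1 / n) {Y : (J → ℤˣ) → ℕ → ℝ} (hY0 : ∀ z n, 0 ≤ Y z n)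
    (hYL : ∀ z n, Y z n ≤ J.card)
    (hM : ∀ z, ∀ r : ℕ, 1 ≤ r → r ≤ R →
      ∑ n ∈ Icc 1 N, wt n * Y z n ^ (2 * r) ≤ 3 / 2 * (2 * Real.exp 1 * r * J.card) ^ r * HH N) :
    ∑ n ∈ Icc 1 N, wt n * Y (patn u J n) n ≤ HH N *
      (5 / 4 * Real.exp 1 * Real.sqrt (2 * Real.exp 1 * J.card) * Real.sqrt (1 + Ent N (patn u J) / 2) +
        J.card * Ent N (patn u J) / (2 * R)) := by
  have hE := Ent_nonneg N (patn u J)
  set h := Ent N (patn u J) with hh
  set τ := Real.sqrt (1 + h / 2) with hτ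
  have hτ0 : 0 < τ := Real.sqrt_pos.2 (by positivity)
  have hτ2 : τ ^ 2 = 1 + h / 2 := Real.sq_sqrt (by positivity)
  have h1 : ∑ n ∈ Icc 1 N, wt n * Y (patn u J n) n =
      ∑ z, ∑ n ∈ (Icc 1 N).filter (fun n => patn u J n = z), wt n * Y z n := by
    rw [← Finset.sum_fiberwise (Icc 1 N) (patn u J)]
    refine Finset.sum_congr rfl fun z _ => Finset.sum_congr rfl fun n hn => ?_
    rw [(Finset.mem_filter.1 hn).2]
  rw [h1]
  have h2 := Finset.sum_le_sum fun z (_ : z ∈ (univ : Finset (J → ℤˣ))) =>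
    T_all hR hwt0 hwt1 (fun n => patn u J n = z) (hY0 z) (hYL z) hJ (hM z) hτ0
  refine h2.trans (le_of_eq ?_)
  have h3 : ∑ z, Real.negMulLog (pr N fun n => patn u J n = z) = h := rfl
  rw [← Finset.mul_sum, Finset.sum_add_distrib, ← Finset.mul_sum, ← Finset.sum_div, ← Finset.sum_div,
    Finset.sum_add_distrib, ← Finset.sum_div, Finset.sum_add_distrib, ← Finset.mul_sum, ← Finset.mul_sum,
    ← Finset.sum_div, pr_sum hN, h3]
  have h4 : (1 + h / 2) / τ = τ := by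
    rw [← hτ2]
    field_simp
  rw [h4]
  ring

end CoreEAux

open CoreEAux

theorem coreE : ∃ A : ℕ, 0 < A ∧ ∀ u : ℕ → ℤˣ, MultS u → Aperiodic u → ∀ q : ℕ, 0 < q →
    ∀ (χ : DirichletCharacter ℂ q) (J : Finset ℕ), J.Nonempty → ∀ R K b c : ℕ, 1 ≤ R → 2 * R ≤ K →
    8 * J.card ^ (2 * R) ≤ 4 ^ K → A * K * 2 ^ b ≤ 2 ^ c →
    ∀ᶠ N : ℕ in atTop, ∀ a : ℕ → ℝ, (∀ n, 0 ≤ a n ∧ a n ≤ 1) → (∀ n, a (n + 1) ≤ a n) →
      ‖(∑ n ∈ Icc 1 N, ((io (2 ^ b) N n * a n : ℝ) : ℂ) * wc (2 ^ c) u χ N n / n) /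
        (Real.log N : ℂ)‖ ≤
      10 * Real.sqrt ((1 + Ent N (patn u J)) / J.card) + Ent N (patn u J) / R := by
  obtain ⟨A, hA, hmom⟩ := mom
  refine ⟨A, hA, ?_⟩
  intro u hu hap q hq χ J hJ R K b c hR hRK hJK hAK
  have hall : ∀ᶠ N : ℕ in atTop, ∀ r ∈ Icc 1 R, ∀ x : ℕ → ℝ, (∀ j, |x j| ≤ 1) →
      ∀ a : ℕ → ℝ, (∀ n, 0 ≤ a n ∧ a n ≤ 1) → (∀ n, a (n + 1) ≤ a n) →
      ‖∑ n ∈ Icc 1 N, ((io (2 ^ b) N n * a n : ℝ) : ℂ) *
        (ZZ (2 ^ c) u χ N J x n ^ r * (starRingEnd ℂ) (ZZ (2 ^ c) u χ N J x n) ^ r) / n‖ ≤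
      ((Tev J (r + r) : ℝ) + 4 * (J.card : ℝ) ^ (r + r) * (1 / 4) ^ K) * HH N := by
    rw [eventually_all_finset]
    intro r hr
    rw [Finset.mem_Icc] at hr
    exact hmom u hu hap q hq χ J r r K b c (by omega) (by omega) hAK
  have hlog1 : Tendsto (fun N : ℕ => Real.log (N : ℝ)) atTop atTop :=
    Real.tendsto_log_atTop.comp tendsto_natCast_atTop_atTop
  filter_upwards [hall, eventually_ge_atTop 2, hlog1.eventually_ge_atTop 5,
    hlog1.eventually_ge_atTop (10 * ∑ j ∈ J, (j : ℝ) + 1)] with N hN hN2 hlog5 hlogJ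
  intro a ha hanti
  have hN1 : 1 ≤ N := by omega
  have hL1 : (1 : ℝ) ≤ J.card := by exact_mod_cast hJ.card_pos
  have hL0 : (0 : ℝ) < J.card := by linarith
  have hR0 : (1 : ℝ) ≤ R := by exact_mod_cast hR
  have he := Real.exp_pos 1
  have hE := Ent_nonneg N (patn u J)
  have hHle : HH N ≤ 6 / 5 * Real.log N := by
    have h1 : HH N ≤ 1 + Real.log N := by
      have h2 := harmonic_le_one_add_log N
      have h3 : ((harmonic N : ℚ) : ℝ) = HH N := by
        rw [harmonic_eq_sum_Icc]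
        unfold HH
        push_cast
        refine Finset.sum_congr rfl fun i _ => ?_
        rw [one_div]
      rw [← h3]
      exact h2
    linarith
  have hH0 : 0 ≤ HH N := HH_nonneg N
  have hlogpos : 0 < Real.log N := by linarith
  set h := Ent N (patn u J) with hh
  set L : ℝ := (J.card : ℝ) with hLdef
  set wt : ℕ → ℝ := fun n => io (2 ^ b) N n * a n / n with hwt
  have hio0 : ∀ n, 0 ≤ io (2 ^ b) N n := by
    intro n
    unfold io
    split_ifs <;> norm_num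
  have hio1 : ∀ n, io (2 ^ b) N n ≤ 1 := by
    intro n
    unfold io
    split_ifs <;> norm_num
  have hwt0 : ∀ n, 0 ≤ wt n := fun n => div_nonneg (mul_nonneg (hio0 n) (ha n).1) (Nat.cast_nonneg n)
  have hwt1 : ∀ n, wt n ≤ 1 / n := by
    intro n
    exact div_le_div_of_nonneg_right (mul_le_one₀ (hio1 n) (ha n).1 (ha n).2) (Nat.cast_nonneg n)
  -- the moments
  have hM : ∀ z : J → ℤˣ, ∀ r : ℕ, 1 ≤ r → r ≤ R →
      ∑ n ∈ Icc 1 N, wt n * ‖ZZ (2 ^ c) u χ N J (xz z) n‖ ^ (2 * r) ≤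
        3 / 2 * (2 * Real.exp 1 * r * J.card) ^ r * HH N := by
    intro z r hr1 hrR
    have h1 := hN r (Finset.mem_Icc.2 ⟨hr1, hrR⟩) (xz z) (abs_xz_le z) a ha hanti
    have h2 : ∑ n ∈ Icc 1 N, ((io (2 ^ b) N n * a n : ℝ) : ℂ) *
        (ZZ (2 ^ c) u χ N J (xz z) n ^ r * (starRingEnd ℂ) (ZZ (2 ^ c) u χ N J (xz z) n) ^ r) / n =
        ((∑ n ∈ Icc 1 N, wt n * ‖ZZ (2 ^ c) u χ N J (xz z) n‖ ^ (2 * r) : ℝ) : ℂ) := by
      rw [Complex.ofReal_sum]
      refine Finset.sum_congr rfl fun n _ => ?_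
      rw [← mul_pow, Complex.mul_conj, Complex.normSq_eq_norm_sq, pow_mul]
      simp only [hwt]
      push_cast
      ring
    rw [h2, Complex.norm_real, Real.norm_of_nonneg (Finset.sum_nonneg fun n _ => mul_nonneg (hwt0 n) (by positivity))] at h1
    refine h1.trans ?_
    have hr0 : (1 : ℝ) ≤ r := by exact_mod_cast hr1
    have h3 : (Tev J (r + r) : ℝ) ≤ (2 * Real.exp 1 * r * J.card) ^ r := by
      have := tev_le J hr1
      rwa [two_mul r] at this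
    have h4 : 4 * L ^ (r + r) * (1 / 4) ^ K ≤ 1 / 2 := by
      have h5 : L ^ (r + r) ≤ L ^ (2 * R) := pow_le_pow_right₀ hL1 (by omega)
      have h6 : 8 * L ^ (2 * R) ≤ 4 ^ K := by
        rw [hLdef]
        exact_mod_cast hJK
      have h7 : (0 : ℝ) < 4 ^ K := by positivity
      rw [one_div, inv_pow, ← div_eq_mul_inv, div_le_iff₀ h7]
      linarith
    have h8 : (1 : ℝ) ≤ (2 * Real.exp 1 * r * J.card) ^ r := by
      apply one_le_pow₀
      have h9 : (1 : ℝ) ≤ Real.exp 1 := Real.one_le_exp (by norm_num)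
      have h10 : (1 : ℝ) ≤ 2 * Real.exp 1 * r := by nlinarith
      calc (1 : ℝ) = 1 * 1 := by norm_num
        _ ≤ 2 * Real.exp 1 * r * J.card := mul_le_mul h10 hL1 (by norm_num) (by linarith)
    refine mul_le_mul_of_nonneg_right ?_ hH0
    linarith
  have htot := total u hN1 hJ hR hwt0 hwt1 (Y := fun z n => ‖ZZ (2 ^ c) u χ N J (xz z) n‖)
    (fun z n => norm_nonneg _) (fun z n => norm_ZZ_le _ _ _ _ z n) hM
  -- the shifts
  set S : ℂ := ∑ n ∈ Icc 1 N, ((io (2 ^ b) N n * a n : ℝ) : ℂ) * wc (2 ^ c) u χ N n / n with hS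
  have hshift : ‖∑ n ∈ Icc 1 N, ((io (2 ^ b) N n * a n : ℝ) : ℂ) * (∑ j ∈ J, wc (2 ^ c) u χ N (n + j)) / n -
      (J.card : ℂ) * S‖ ≤ ∑ j ∈ J, 4 * (j : ℝ) := by
    have e1 : ∑ n ∈ Icc 1 N, ((io (2 ^ b) N n * a n : ℝ) : ℂ) * (∑ j ∈ J, wc (2 ^ c) u χ N (n + j)) / n -
      (J.card : ℂ) * S = ∑ j ∈ J, (∑ n ∈ Icc 1 N, ((io (2 ^ b) N n * a n : ℝ) : ℂ) * wc (2 ^ c) u χ N (n + j) / n - S) := by
      rw [Finset.sum_sub_distrib, Finset.sum_const, nsmul_eq_mul, Finset.sum_comm]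
      congr 1
      refine Finset.sum_congr rfl fun n _ => ?_
      rw [Finset.mul_sum, Finset.sum_div]
    rw [e1]
    refine (norm_sum_le _ _).trans (Finset.sum_le_sum fun j _ => ?_)
    exact shiftW hN1 (Nat.one_le_two_pow) (fun n => norm_wc_le _ _ _ _ n) ha hanti j
  have hmain : ‖∑ n ∈ Icc 1 N, ((io (2 ^ b) N n * a n : ℝ) : ℂ) * (∑ j ∈ J, wc (2 ^ c) u χ N (n + j)) / n‖ ≤
      ∑ n ∈ Icc 1 N, wt n * ‖ZZ (2 ^ c) u χ N J (xz (patn u J n)) n‖ := by
    refine (norm_sum_le _ _).trans (le_of_eq (Finset.sum_congr rfl fun n _ => ?_))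
    rw [sum_wc, norm_div, norm_mul, Complex.norm_real, RCLike.norm_conj, Complex.norm_natCast,
      Real.norm_of_nonneg (mul_nonneg (hio0 n) (ha n).1)]
    simp only [hwt]
    ring
  have hLS : L * ‖S‖ ≤ HH N * (5 / 4 * Real.exp 1 * Real.sqrt (2 * Real.exp 1 * J.card) * Real.sqrt (1 + h / 2) +
        J.card * h / (2 * R)) + ∑ j ∈ J, 4 * (j : ℝ) := by
    have h1 : L * ‖S‖ = ‖(J.card : ℂ) * S‖ := by
      rw [norm_mul, Complex.norm_natCast]
    rw [h1]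
    have h2 := norm_sub_norm_le ((J.card : ℂ) * S)
      (∑ n ∈ Icc 1 N, ((io (2 ^ b) N n * a n : ℝ) : ℂ) * (∑ j ∈ J, wc (2 ^ c) u χ N (n + j)) / n)
    rw [norm_sub_rev] at h2
    linarith
  -- numerical conclusion
  have hsL : 1 ≤ Real.sqrt L := Real.one_le_sqrt.2 hL1
  have hSJ : ∑ j ∈ J, 4 * (j : ℝ) ≤ 2 / 5 * (Real.sqrt L * Real.log N) - 2 / 5 := by
    rw [← Finset.mul_sum]
    have h1 : (0 : ℝ) ≤ ∑ j ∈ J, (j : ℝ) := Finset.sum_nonneg fun j _ => Nat.cast_nonneg j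
    nlinarith
  have hk := kap_le L
  have hs1 : Real.sqrt (1 + h / 2) ≤ Real.sqrt (1 + h) := Real.sqrt_le_sqrt (by linarith)
  have hs2 : 1 ≤ Real.sqrt (1 + h) := Real.one_le_sqrt.2 (by linarith)
  have hb1 : 5 / 4 * Real.exp 1 * Real.sqrt (2 * Real.exp 1 * J.card) * Real.sqrt (1 + h / 2) ≤
      (8 * Real.sqrt L) * Real.sqrt (1 + h) :=
    mul_le_mul hk hs1 (Real.sqrt_nonneg _) (by positivity)
  have hb2 : L * ‖S‖ ≤ (6 / 5 * Real.log N) * ((8 * Real.sqrt L) * Real.sqrt (1 + h) + L * h / (2 * R)) +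
      2 / 5 * (Real.sqrt L * Real.sqrt (1 + h) * Real.log N) := by
    have h1 : HH N * (5 / 4 * Real.exp 1 * Real.sqrt (2 * Real.exp 1 * J.card) * Real.sqrt (1 + h / 2) +
        J.card * h / (2 * R)) ≤ (6 / 5 * Real.log N) * ((8 * Real.sqrt L) * Real.sqrt (1 + h) + L * h / (2 * R)) := by
      refine mul_le_mul hHle ?_ (by positivity) (by positivity)
      exact add_le_add hb1 (le_refl _)
    have h2 : Real.sqrt L * Real.log N ≤ Real.sqrt L * Real.sqrt (1 + h) * Real.log N := by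
      have : Real.sqrt L * 1 ≤ Real.sqrt L * Real.sqrt (1 + h) := mul_le_mul_of_nonneg_left hs2 (Real.sqrt_nonneg _)
      rw [mul_one] at this
      exact mul_le_mul_of_nonneg_right this hlogpos.le
    linarith
  have hsq : L * Real.sqrt ((1 + h) / L) = Real.sqrt L * Real.sqrt (1 + h) := by
    rw [Real.sqrt_div (by linarith)]
    have h1 : Real.sqrt L * Real.sqrt L = L := Real.mul_self_sqrt hL0.le
    have h2 : Real.sqrt L ≠ 0 := by positivity
    calc L * (Real.sqrt (1 + h) / Real.sqrt L) = (Real.sqrt L * Real.sqrt L) * (Real.sqrt (1 + h) / Real.sqrt L) := by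
          rw [h1]
      _ = _ := by
          field_simp
  have hb3 : L * ‖S‖ ≤ L * ((10 * Real.sqrt ((1 + h) / L) + h / R) * Real.log N) := by
    have h1 : L * ((10 * Real.sqrt ((1 + h) / L) + h / R) * Real.log N) =
        (10 * (L * Real.sqrt ((1 + h) / L)) + L * h / R) * Real.log N := by ring
    rw [h1, hsq]
    refine hb2.trans ?_
    have h2 : (6 / 5 * Real.log N) * ((8 * Real.sqrt L) * Real.sqrt (1 + h) + L * h / (2 * R)) +
      2 / 5 * (Real.sqrt L * Real.sqrt (1 + h) * Real.log N) =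
      (10 * (Real.sqrt L * Real.sqrt (1 + h)) + 3 / 5 * (L * h / R)) * Real.log N := by
      field_simp
      ring
    rw [h2]
    have h3 : 0 ≤ L * h / R := by positivity
    refine mul_le_mul_of_nonneg_right ?_ hlogpos.le
    linarith
  have hfin : ‖S‖ ≤ (10 * Real.sqrt ((1 + h) / L) + h / R) * Real.log N := le_of_mul_le_mul_left hb3 hL0
  rw [norm_div, Complex.norm_real, Real.norm_of_nonneg hlogpos.le, div_le_iff₀ hlogpos]
  exact hfin

end Pool.Agent.Lib.P4a7640C
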