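import Mathlib
import Pool.Agent.Lib.P4a7640C.Base
import Pool.Agent.Lib.P4a7640E.EntA

/-!
# Sauer-Shelah

Module P4a7640C.Shatter (1.5 h).

`shatter`: to `x : J → ℤˣ` associate the set `{j ∈ J : x j = 1}`, a `Finset J` (type `Finset ↥J`), injective in `x`. Let `𝒜` be the image
of `P` (`𝒜.card = P.card`). `Finset.card_le_card_shatterer` and `Finset.card_shatterer_le_sum_vcDim` (Mathlib,
`Combinatorics/SetFamily/Shatter`): `P.card ≤ ∑ k ∈ Iic 𝒜.vcDim, (Fintype.card J).choose k ≤ (J.card + 1)^(vcDim)`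
(`∑ k ≤ d, L.choose k ≤ (L+1)^d`: compare with the binomial expansion, `L.choose k ≤ L^k ≤ d.choose k * L^k` for `k ≤ d`). So
`d < vcDim`; `vcDim` is attained by a shattered set `s : Finset ↥J` (`Finset.exists_mem_shatterer..`, `vcDim = sup card` over
the shatterer, nonempty as `P.card > 0`). `J' = s.map (Function.Embedding.subtype _)`; for `y : J' → ℤˣ` the subset
`{j ∈ s : y j = 1}` is `s ∩ t` for some `t ∈ 𝒜` (`Finset.Shatters`).

`patJ_restrict`: `{n : ∀ j ∈ J, f (n+j) = x j} ⊆ {n : ∀ j ∈ J', f (n+j) = y j}`, so `pr N` of the second event is at least that of the first,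
`≥ 0`; if it tended to `0` so would the first (`squeeze_zero`).

`shat_main`: if `(J.card+1)^(2 d) < |P_f| |P_g|` then `(J.card+1)^d < |P_f|` or `(J.card+1)^d < |P_g|`.
-/

open Finset Filter Topology
open Pool.Agent.Lib.P4a7640 Pool.Agent.Lib.P4a7640E

namespace Pool.Agent.Lib.P4a7640C

namespace ShatterAux

theorem sum_choose_le (L d : ℕ) : ∑ k ∈ Iic d, L.choose k ≤ (L + 1) ^ d := by
  have h1 : Iic d = range (d + 1) := by
    ext k
    rw [mem_Iic, mem_range]
    omega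
  rw [h1, add_pow]
  refine sum_le_sum fun k hk => ?_
  have hk' : k ≤ d := Nat.lt_succ_iff.1 (mem_range.1 hk)
  have h2 := Nat.choose_le_pow L k
  have h3 : 1 ≤ d.choose k := Nat.choose_pos hk'
  rw [one_pow, mul_one]
  exact h2.trans (Nat.le_mul_of_pos_right _ h3)

theorem unit_eq {a b : ℤˣ} (h : a = 1 ↔ b = 1) : a = b := by
  rcases Int.units_eq_one_or a with ha | ha
  · rw [ha, h.1 ha]
  · rcases Int.units_eq_one_or b with hb | hb
    · rw [hb, h.2 hb]
    · rw [ha, hb]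

end ShatterAux

theorem shatter {J : Finset ℕ} (P : Finset (J → ℤˣ)) (d : ℕ) (h : (J.card + 1) ^ d < P.card) :
    ∃ J' : Finset ℕ, ∃ hJ : J' ⊆ J, d < J'.card ∧
      ∀ y : J' → ℤˣ, ∃ x ∈ P, ∀ j : J', x ⟨j, hJ j.2⟩ = y j := by
  classical
  let F : (J → ℤˣ) → Finset J := fun x => univ.filter fun j => x j = 1
  have hF : ∀ x j, j ∈ F x ↔ x j = 1 := fun x j => by simp [F]
  have hinj : Function.Injective F := by
    intro x x' hx
    funext j
    refine ShatterAux.unit_eq ?_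
    rw [← hF, ← hF, hx]
  have hcard : (P.image F).card = P.card := card_image_of_injective _ hinj
  have hvc : d < (P.image F).vcDim := by
    by_contra hcon
    push Not at hcon
    have h1 := card_le_card_shatterer (P.image F)
    have h2 := (card_shatterer_le_sum_vcDim (𝒜 := P.image F)).trans
      (ShatterAux.sum_choose_le (Fintype.card J) _)
    rw [Fintype.card_coe] at h2
    have h3 : (J.card + 1) ^ (P.image F).vcDim ≤ (J.card + 1) ^ d :=
      Nat.pow_le_pow_right (by omega) hcon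
    omega
  obtain ⟨s, hs, hds⟩ : ∃ s ∈ (P.image F).shatterer, d < s.card := Finset.lt_sup_iff.1 hvc
  rw [mem_shatterer] at hs
  have hJ : s.map (Function.Embedding.subtype _) ⊆ J := by
    intro j hj
    obtain ⟨i, _, rfl⟩ := mem_map.1 hj
    exact i.2
  refine ⟨s.map (Function.Embedding.subtype _), hJ, by rwa [card_map], fun y => ?_⟩
  obtain ⟨u, hu, hsu⟩ := hs (filter_subset
    (fun j : J => ∃ hj : (j : ℕ) ∈ s.map (Function.Embedding.subtype _), y ⟨j, hj⟩ = 1) s)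
  obtain ⟨x, hx, rfl⟩ := mem_image.1 hu
  refine ⟨x, hx, fun j => ?_⟩
  have hjs : (⟨j, hJ j.2⟩ : J) ∈ s := by
    obtain ⟨i, hi, hij⟩ := mem_map.1 j.2
    have : i = ⟨j, hJ j.2⟩ := Subtype.ext hij
    rwa [← this]
  refine ShatterAux.unit_eq ?_
  rw [← hF]
  constructor
  · intro h1
    have h2 : (⟨j, hJ j.2⟩ : J) ∈ s ∩ F x := mem_inter.2 ⟨hjs, h1⟩
    rw [hsu] at h2
    obtain ⟨_, h3⟩ := (mem_filter.1 h2).2
    exact h3
  · intro h1
    have h2 : (⟨j, hJ j.2⟩ : J) ∈ s ∩ F x := by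
      rw [hsu]
      exact mem_filter.2 ⟨hjs, j.2, h1⟩
    exact (mem_inter.1 h2).2

theorem patJ_restrict (f : ℕ → ℤˣ) (l : Filter ℕ) {J J' : Finset ℕ} (hJ : J' ⊆ J)
    {x : J → ℤˣ} (hx : x ∈ patJ f l J) {y : J' → ℤˣ} (hy : ∀ j : J', x ⟨j, hJ j.2⟩ = y j) :
    y ∈ patJ f l J' := by
  classical
  unfold patJ at hx ⊢
  rw [mem_filter] at hx ⊢
  refine ⟨mem_univ _, fun hcon => hx.2 ?_⟩
  refine squeeze_zero (fun N => pr_nonneg _ _) (fun N => ?_) hcon
  refine pr_mono fun n hn j => ?_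
  rw [← hy j]
  exact hn ⟨j, hJ j.2⟩

theorem shat_main (f g : ℕ → ℤˣ) (l : Filter ℕ) (J : Finset ℕ) (d : ℕ)
    (h : (J.card + 1) ^ (2 * d) < (patJ f l J).card * (patJ g l J).card) :
    ∃ J' ⊆ J, d < J'.card ∧ ((∀ y : J' → ℤˣ, y ∈ patJ f l J') ∨ ∀ y : J' → ℤˣ, y ∈ patJ g l J') := by
  have key : ∀ f : ℕ → ℤˣ, (J.card + 1) ^ d < (patJ f l J).card →
      ∃ J' ⊆ J, d < J'.card ∧ ∀ y : J' → ℤˣ, y ∈ patJ f l J' := by
    intro f hf
    obtain ⟨J', hJ, h1, h2⟩ := shatter (patJ f l J) d hf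
    refine ⟨J', hJ, h1, fun y => ?_⟩
    obtain ⟨x, hx, hxy⟩ := h2 y
    exact patJ_restrict f l hJ hx hxy
  by_cases hf : (J.card + 1) ^ d < (patJ f l J).card
  · obtain ⟨J', hJ, h1, h2⟩ := key f hf
    exact ⟨J', hJ, h1, Or.inl h2⟩
  · by_cases hg : (J.card + 1) ^ d < (patJ g l J).card
    · obtain ⟨J', hJ, h1, h2⟩ := key g hg
      exact ⟨J', hJ, h1, Or.inr h2⟩
    · exfalso
      push Not at hf hg
      have h1 := Nat.mul_le_mul hf hg
      have h2 : (J.card + 1) ^ d * (J.card + 1) ^ d = (J.card + 1) ^ (2 * d) := by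
        rw [← pow_add]
        congr 1
        omega
      omega

end Pool.Agent.Lib.P4a7640C
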